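import Pool.Agent.K9h98.HLp.Stm

/-!
# Averages of Poisson integrals (leaf AVG of MP_5bfbcb, Q2)
-/

set_option autoImplicit false

namespace Pool.Agent.K9h98.HLp

open MeasureTheory AddCircle Complex Set Filter Topology Metric
open Pool.Agent.W767.HL

noncomputable section

theorem avg_all : S_AVG := by
  intro G h hh hh1
  have hr0 : 0 ≤ 1 - h := by linarith
  have hch : Continuous (hn G) := (continuous_ev_ze G).norm
  have hn0 : ∀ θ, 0 ≤ hn G θ := fun θ => norm_nonneg _
  have hpt : ∀ θ, ‖pt h θ‖ = 1 - h := fun θ => norm_rze hr0 θ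
  have hw : ∀ θ, ‖pt h θ‖ < 1 := fun θ => by rw [hpt]; linarith
  have hjc : Continuous fun p : Ci × Ci => P (pt h p.1) p.2 := by
    unfold P
    have h3 : Continuous fun p : Ci × Ci => pt h p.1 :=
      continuous_const.mul (continuous_ze.comp continuous_fst)
    refine Continuous.div (continuous_const.sub (h3.norm.pow 2))
      (((continuous_ze.comp continuous_snd).sub h3).norm.pow 2) fun p => ?_
    have h4 := dist_pos (pt h p.1) p.2
    have h5 := hw p.1
    have h6 : 0 < ‖ze p.2 - pt h p.1‖ := by linarith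
    positivity
  have hjc2 : Continuous fun p : Ci × Ci => P (pt h p.1) p.2 * hn G p.2 :=
    hjc.mul (hch.comp continuous_snd)
  have hcont : Continuous fun θ => vv G (pt h θ) := by
    have h1 := continuous_parametric_integral_of_continuous (μ := (mu : Measure Ci))
      (f := fun (θ φ : Ci) => P (pt h θ) φ * hn G φ) hjc2 isCompact_univ
    simp only [Measure.restrict_univ] at h1
    exact h1
  have hvi : Integrable (fun θ => vv G (pt h θ)) mu := integrable_of_cont hcont
  have hv0 : ∀ θ, 0 ≤ vv G (pt h θ) := fun θ =>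
    integral_nonneg fun φ => mul_nonneg (P_pos (hw θ) φ).le (hn0 φ)
  have hprod : Integrable (Function.uncurry fun θ φ => P (pt h θ) φ * hn G φ) (mu.prod mu) :=
    hjc2.integrable_of_hasCompactSupport (HasCompactSupport.of_compactSpace _)
  have hint : ∫ θ, vv G (pt h θ) ∂mu = nrm G := by
    unfold vv nrm
    rw [integral_integral_swap hprod]
    refine integral_congr_ae (Filter.Eventually.of_forall fun φ => ?_)
    simp only
    rw [integral_mul_const]
    have : ∫ θ, P (pt h θ) φ ∂mu = 1 :=
      (integral_congr_ae (Filter.Eventually.of_forall fun θ => P_symm hr0 θ φ)).trans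
        (integral_P (hw φ))
    rw [this, one_mul]
  refine ⟨?_, ?_, hcont, hint⟩
  · intro A hA hpos
    have hne : mu A ≠ 0 := by
      intro h0
      rw [Measure.real, h0] at hpos
      simp at hpos
    obtain ⟨θ, hθ, hle⟩ := exists_le_setAverage hne (measure_ne_top _ _)
      (hvi.integrableOn (s := A))
    refine ⟨θ, hθ, hle.trans ?_⟩
    rw [setAverage_eq, smul_eq_mul, inv_mul_eq_div]
    refine div_le_div_of_nonneg_right ?_ hpos.le
    rw [← hint]
    exact setIntegral_le_integral hvi (Filter.Eventually.of_forall hv0)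
  · intro b hb
    rw [le_div_iff₀ hb, ← hint]
    have h1 : b * mu.real {θ | b ≤ vv G (pt h θ)} ≤ ∫ θ, vv G (pt h θ) ∂mu :=
      mul_meas_ge_le_integral_of_nonneg (Filter.Eventually.of_forall hv0) hvi _
    have h2 : mu.real {θ | b < vv G (pt h θ)} ≤ mu.real {θ | b ≤ vv G (pt h θ)} :=
      measureReal_mono fun θ (hθ : b < vv G (pt h θ)) => show b ≤ vv G (pt h θ) from hθ.le
    calc mu.real {θ | b < vv G (pt h θ)} * b ≤ mu.real {θ | b ≤ vv G (pt h θ)} * b :=
          mul_le_mul_of_nonneg_right h2 hb.le
      _ = b * mu.real {θ | b ≤ vv G (pt h θ)} := mul_comm _ _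
      _ ≤ _ := h1

end

end Pool.Agent.K9h98.HLp
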