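import Pool.Agent.K9h98.HLp.Stm

/-!
# MP_5bfbcb, Q2: elementary properties of truncations and dilations of Laurent polynomials
-/

set_option autoImplicit false

namespace Pool.Agent.K9h98.HLp

open MeasureTheory AddCircle Complex Set Filter Topology Metric
open Pool.Agent.W767.HL

noncomputable section

lemma tp_apply (G : ℤ →₀ ℂ) (N : ℕ) (n : ℤ) : tp G N n = if -(N : ℤ) ≤ n then G n else 0 := by
  unfold tp
  rw [Finsupp.filter_apply]

lemma sc_apply (ρ : ℝ) (G : ℤ →₀ ℂ) (n : ℤ) : sc ρ G n = (ρ : ℂ) ^ n * G n := rfl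

lemma ev_sc (ρ : ℝ) (G : ℤ →₀ ℂ) (z : ℂ) : ev (sc ρ G) z = ev G (ρ * z) := by
  rw [ev_eq_sum, ev_eq_sum, Finsupp.sum, Finsupp.sum]
  have hsub : (sc ρ G).support ⊆ G.support := Finsupp.support_onFinset_subset
  rw [Finset.sum_subset hsub fun n _ hn => by
    rw [Finsupp.notMem_support_iff.mp hn, zero_mul]]
  refine Finset.sum_congr rfl fun n _ => ?_
  rw [sc_apply, mul_zpow]
  ring

lemma HL_tp {m : ℕ → ℕ} {G : ℤ →₀ ℂ} (h : HL m G) (N : ℕ) : HL m (tp G N) := by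
  intro j hj n h1 h2
  rw [tp_apply]
  split_ifs
  · exact h j hj n h1 h2
  · rfl

lemma HL_sc {m : ℕ → ℕ} {G : ℤ →₀ ℂ} (h : HL m G) (ρ : ℝ) : HL m (sc ρ G) := by
  intro j hj n h1 h2
  rw [sc_apply, h j hj n h1 h2, mul_zero]

lemma hn_nonneg (G : ℤ →₀ ℂ) (θ : Ci) : 0 ≤ hn G θ := norm_nonneg _

lemma continuous_hn (G : ℤ →₀ ℂ) : Continuous (hn G) := (continuous_ev_ze G).norm

lemma integrable_hn (G : ℤ →₀ ℂ) : Integrable (hn G) mu := integrable_of_cont (continuous_hn G)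

lemma nrm_nonneg (G : ℤ →₀ ℂ) : 0 ≤ nrm G := integral_nonneg fun θ => hn_nonneg G θ

lemma hn_sc (h : ℝ) (G : ℤ →₀ ℂ) (θ : Ci) : hn (sc (1 - h) G) θ = ‖ev G (pt h θ)‖ := by
  unfold hn pt
  rw [ev_sc]

lemma hn_sub_le (G H : ℤ →₀ ℂ) (θ : Ci) : hn H θ ≤ hn G θ + hn (G - H) θ := by
  unfold hn
  rw [ev_sub]
  have h := norm_sub_le (ev G (ze θ)) (ev G (ze θ) - ev H (ze θ))
  rwa [sub_sub_cancel] at h

lemma isClosed_Sm (G : ℤ →₀ ℂ) (τ : ℝ) : IsClosed (Sm G τ) :=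
  isClosed_le (continuous_hn G) continuous_const

lemma measurableSet_Sm (G : ℤ →₀ ℂ) (τ : ℝ) : MeasurableSet (Sm G τ) := (isClosed_Sm G τ).measurableSet

lemma norm_pt {h : ℝ} (h1 : h ≤ 1) (θ : Ci) : ‖pt h θ‖ = 1 - h := by
  unfold pt
  exact norm_rze (by linarith) θ

lemma nrm_sub_le (G H : ℤ →₀ ℂ) : nrm H ≤ nrm G + nrm (G - H) := by
  unfold nrm
  rw [← integral_add (integrable_hn G) (integrable_hn (G - H))]
  exact integral_mono (integrable_hn H) ((integrable_hn G).add (integrable_hn (G - H)))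
    fun θ => hn_sub_le G H θ

/-- frequencies below `-m K` of a half-lacunary polynomial -/
lemma freq {m : ℕ → ℕ} (hm : StrictMono m) {G : ℤ →₀ ℂ} (h : HL m G) {K : ℕ} {n : ℤ}
    (hn1 : n < -(m K : ℤ)) (hn2 : G n ≠ 0) : ∃ i, K < i ∧ n = -(m i : ℤ) := by
  have hex : ∃ i, n.natAbs ≤ m i := ⟨n.natAbs, hm.le_apply⟩
  classical
  obtain ⟨i, hi1, hi2⟩ : ∃ i, n.natAbs ≤ m i ∧ ∀ j < i, ¬ n.natAbs ≤ m j :=
    ⟨Nat.find hex, Nat.find_spec hex, fun j hj => Nat.find_min hex hj⟩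
  have hKi : K < i := by
    by_contra hc
    push Not at hc
    have := hm.monotone hc
    omega
  refine ⟨i, hKi, ?_⟩
  by_contra hne
  have h3 := hi2 (i - 1) (by omega)
  exact hn2 (h i (by omega) n (by omega) (by omega))

/-- the tail of a half-lacunary polynomial -/
lemma tail_sum {m : ℕ → ℕ} (hm : StrictMono m) {G : ℤ →₀ ℂ} (h : HL m G) (K : ℕ) :
    ∃ K', K + 1 ≤ K' ∧ ((G - tp G (m K)).sum fun _ c => ‖c‖ ^ 2) ≤
      ∑ i ∈ Finset.Icc (K + 1) K', ‖G (-(m i : ℤ))‖ ^ 2 := by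
  set R := G - tp G (m K) with hR
  have hRn : ∀ n, R n = if -(m K : ℤ) ≤ n then 0 else G n := by
    intro n
    rw [hR, Finsupp.sub_apply, tp_apply]
    split_ifs <;> simp
  obtain ⟨b, hb⟩ : ∃ b : ℕ, ∀ n ∈ R.support, n.natAbs ≤ b :=
    ⟨R.support.sup Int.natAbs, fun n hn => Finset.le_sup (f := Int.natAbs) hn⟩
  refine ⟨K + 1 + b, by omega, ?_⟩
  have hsub : R.support ⊆ (Finset.Icc (K + 1) (K + 1 + b)).image fun i => -(m i : ℤ) := by
    intro n hn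
    have h1 := Finsupp.mem_support_iff.mp hn
    rw [hRn] at h1
    split_ifs at h1 with h2
    · exact absurd rfl h1
    obtain ⟨i, hi, hi2⟩ := freq hm h (not_le.mp h2) h1
    refine Finset.mem_image.mpr ⟨i, Finset.mem_Icc.mpr ⟨hi, ?_⟩, hi2.symm⟩
    have h3 := hb n hn
    have h4 : i ≤ m i := hm.le_apply
    omega
  have hinj : ∀ i ∈ Finset.Icc (K + 1) (K + 1 + b), ∀ j ∈ Finset.Icc (K + 1) (K + 1 + b),
      -(m i : ℤ) = -(m j : ℤ) → i = j := by
    intro i _ j _ hij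
    exact hm.injective (by omega)
  rw [Finsupp.sum]
  calc ∑ a ∈ R.support, ‖R a‖ ^ 2
      ≤ ∑ a ∈ (Finset.Icc (K + 1) (K + 1 + b)).image fun i => -(m i : ℤ), ‖R a‖ ^ 2 :=
        Finset.sum_le_sum_of_subset_of_nonneg hsub fun _ _ _ => by positivity
    _ = ∑ i ∈ Finset.Icc (K + 1) (K + 1 + b), ‖R (-(m i : ℤ))‖ ^ 2 := Finset.sum_image hinj
    _ ≤ _ := by
        refine Finset.sum_le_sum fun i hi => ?_
        rw [hRn]
        split_ifs
        · rw [norm_zero, zero_pow two_ne_zero]; positivity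
        · exact le_rfl

/-- a point near the small set stays in a slightly larger one -/
lemma unif (G : ℤ →₀ ℂ) {τ τ' : ℝ} (h : τ' < τ) : ∃ y > 0, ∀ θ ∈ Sm G τ, closedBall θ y ⊆ Sm G τ' := by
  have huc : UniformContinuous (hn G) := CompactSpace.uniformContinuous_of_continuous (continuous_hn G)
  have hd : 0 < Real.exp (-τ') - Real.exp (-τ) := by
    rw [sub_pos]
    exact Real.exp_lt_exp.mpr (by linarith)
  rw [Metric.uniformContinuous_iff] at huc
  obtain ⟨d, hd0, hd1⟩ := huc _ hd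
  refine ⟨d / 2, by linarith, fun θ hθ φ hφ => ?_⟩
  have h1 := hd1 (a := φ) (b := θ) (by
    have := mem_closedBall.mp hφ
    linarith)
  rw [Real.dist_eq] at h1
  have h2 := (abs_lt.mp h1).2
  have h3 : hn G θ ≤ Real.exp (-τ) := hθ
  show hn G φ ≤ Real.exp (-τ')
  linarith

end

end Pool.Agent.K9h98.HLp
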