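import Pool.Agent.K9h98.HLp.Stm

/-!
# Leaf BDD: boundedness in an annulus
-/

set_option autoImplicit false

namespace Pool.Agent.K9h98.HLp

open MeasureTheory AddCircle Complex Set Filter Topology Metric
open Pool.Agent.W767.HL

noncomputable section

lemma bdd_tp_apply (G : ℤ →₀ ℂ) (N : ℕ) (n : ℤ) :
    tp G N n = if -(N : ℤ) ≤ n then G n else 0 := by
  unfold tp
  rw [Finsupp.filter_apply]

lemma bdd_tp_succ {m : ℕ → ℕ} (hm : StrictMono m) {G : ℤ →₀ ℂ} (hG : HL m G) (k : ℕ) :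
    tp G (m (k + 1)) = tp G (m k) +
      Finsupp.single (-(m (k + 1) : ℤ)) (G (-(m (k + 1) : ℤ))) := by
  ext n
  rw [Finsupp.add_apply, bdd_tp_apply, bdd_tp_apply, Finsupp.single_apply]
  have hlt : m k < m (k + 1) := hm (Nat.lt_succ_self k)
  by_cases h1 : -(m (k + 1) : ℤ) = n
  · rw [if_pos h1.le, if_neg (by omega), if_pos h1, zero_add, h1]
  · rw [if_neg h1, add_zero]
    by_cases h2 : -(m (k + 1) : ℤ) ≤ n
    · rw [if_pos h2]
      by_cases h3 : -(m k : ℤ) ≤ n
      · rw [if_pos h3]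
      · rw [if_neg h3]
        exact hG (k + 1) (by omega) n (by omega) (by rw [Nat.add_sub_cancel]; omega)
    · rw [if_neg h2, if_neg (by omega)]

lemma bdd_ev {m : ℕ → ℕ} (hm : StrictMono m) {G : ℤ →₀ ℂ} (hG : HL m G) (z : ℂ) {j K : ℕ}
    (hj : j ≤ K) :
    ev (tp G (m K)) z = ev (tp G (m j)) z +
      ∑ i ∈ Finset.Ioc j K, G (-(m i : ℤ)) * z ^ (-(m i : ℤ)) := by
  induction K, hj using Nat.le_induction with
  | base => simp
  | succ k hk ih =>
      have hI : Finset.Ioc j (k + 1) = insert (k + 1) (Finset.Ioc j k) := by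
        ext x
        simp only [Finset.mem_Ioc, Finset.mem_insert]
        omega
      rw [bdd_tp_succ hm hG, ev_add, ih, ev_single, hI,
        Finset.sum_insert (by simp)]
      ring

/-- negative powers near the circle -/
lemma bdd_pow {z : ℂ} (hz : 1 / 2 ≤ ‖z‖) (hz1 : ‖z‖ < 1) (n : ℕ) :
    ‖z ^ (-(n : ℤ))‖ ≤ Real.exp (2 * n * (1 - ‖z‖)) := by
  have h0 : 0 < ‖z‖ := by linarith
  have h1 : ‖z‖⁻¹ ≤ Real.exp (2 * (1 - ‖z‖)) := by
    have h2 : ‖z‖⁻¹ ≤ 1 + 2 * (1 - ‖z‖) := by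
      rw [inv_le_iff_one_le_mul₀ h0]
      nlinarith
    have h3 := Real.add_one_le_exp (2 * (1 - ‖z‖))
    linarith
  rw [zpow_neg, zpow_natCast, norm_inv, norm_pow, ← inv_pow]
  calc (‖z‖⁻¹) ^ n ≤ Real.exp (2 * (1 - ‖z‖)) ^ n := pow_le_pow_left₀ (inv_nonneg.2 h0.le) h1 n
    _ = Real.exp (2 * n * (1 - ‖z‖)) := by
        rw [← Real.exp_nat_mul]
        congr 1
        ring

lemma bdd_grow {L : ℕ} {m : ℕ → ℕ} {lam : ℝ} (lac : Lac L m lam) {h : ℝ} (hh : 0 < h) {j : ℕ}
    (hj : 1 < h * m (j + 1)) (i : ℕ) : 1 + i * lam ≤ h * m (j + 1 + i) := by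
  induction i with
  | zero => simpa using hj.le
  | succ i ih =>
      have h1 := lac.ratio (j + 1 + (i + 1)) (by omega)
      have h2 : j + 1 + (i + 1) - 1 = j + 1 + i := by omega
      rw [h2] at h1
      have h3 : (m (j + 1 + i) : ℝ) ≤ m (j + 1 + (i + 1)) := by
        exact_mod_cast lac.mono.monotone (by omega)
      have hl := lac.lam_pos
      have h4 : lam * (1 + i * lam) ≤ lam * (h * m (j + 1 + i)) :=
        mul_le_mul_of_nonneg_left ih hl.le
      have h5 : lam * (h * m (j + 1 + i)) ≤ lam * (h * m (j + 1 + (i + 1))) := by gcongr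
      have h6 := mul_le_mul_of_nonneg_left h1 hh.le
      have h7 : 0 ≤ (i : ℝ) * lam := by positivity
      push_cast
      nlinarith

theorem bdd_all {L : ℕ} {m : ℕ → ℕ} {lam : ℝ} (lac : Lac L m lam) : S_BDD m lam := by
  have hl := lac.lam_pos
  have hl1 := lac.lam_le
  set q := Real.exp (-(lam ^ 2 / 4)) with hq
  have hq0 : 0 < q := Real.exp_pos _
  have hq1 : q < 1 := by
    rw [hq, Real.exp_lt_one_iff]
    have : 0 < lam ^ 2 := by positivity
    linarith
  set C1 := (1 - q)⁻¹ with hC1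
  have hC1' : 1 ≤ C1 := by
    rw [hC1]
    exact (one_le_inv₀ (by linarith)).2 (by linarith)
  set C2 := Real.exp (1 + m 0) with hC2
  have hC2' : 1 ≤ C2 := Real.one_le_exp (by positivity)
  refine ⟨C2 * C1 + C1, by nlinarith, ?_⟩
  intro G h B K hG hh hh2 hB hdec z hz hz1
  have hlh : lam / 8 * h ≤ 1 / 16 := by
    calc lam / 8 * h ≤ 1 / 8 * (1 / 2) := by gcongr
      _ = 1 / 16 := by norm_num
  have hz2 : 1 / 2 ≤ ‖z‖ := by linarith
  have hz0 : z ≠ 0 := by
    intro h0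
    rw [h0, norm_zero] at hz2
    norm_num at hz2
  -- the splitting index
  obtain ⟨j1, hj1K, hj1a, hj1b⟩ : ∃ j1, j1 ≤ K ∧ h * m j1 ≤ 1 + m 0 ∧
      ∀ j, j1 < j → j ≤ K → 1 < h * m j := by
    classical
    by_cases hex : ∃ j, j ≤ K ∧ h * m j ≤ 1
    · set j1 := Nat.findGreatest (fun j => h * (m j : ℝ) ≤ 1) K with hj1
      obtain ⟨j, hjK, hj⟩ := hex
      have h1 : h * (m j1 : ℝ) ≤ 1 :=
        Nat.findGreatest_spec (P := fun j => h * (m j : ℝ) ≤ 1) hjK hj
      refine ⟨j1, Nat.findGreatest_le K, by linarith [(Nat.cast_nonneg (m 0) : (0 : ℝ) ≤ m 0)],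
        fun i hi1 hi2 => ?_⟩
      exact not_le.1 (Nat.findGreatest_is_greatest hi1 hi2)
    · push Not at hex
      refine ⟨0, Nat.zero_le _, ?_, fun j _ hjK => hex j hjK⟩
      have h0 : (0 : ℝ) ≤ m 0 := Nat.cast_nonneg _
      nlinarith
  set U := tp G (m K) with hU
  -- the remainder
  set Q : ℂ → ℂ := fun w => ∑ i ∈ Finset.Ioc j1 K, G (-(m i : ℤ)) * w ^ (-(m i : ℤ)) with hQ
  have hQb : ∀ w : ℂ, 1 - lam / 8 * h ≤ ‖w‖ → ‖w‖ ≤ 1 → ‖Q w‖ ≤ B * C1 := by
    intro w hw hw1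
    have hw2 : 1 / 2 ≤ ‖w‖ := by linarith
    have hterm : ∀ i ∈ Finset.Ioc j1 K, ‖G (-(m i : ℤ)) * w ^ (-(m i : ℤ))‖ ≤
        B * q ^ (i - (j1 + 1)) := by
      intro i hi
      rw [Finset.mem_Ioc] at hi
      obtain ⟨k, rfl⟩ : ∃ k, i = j1 + 1 + k := ⟨i - (j1 + 1), by omega⟩
      have h1 := hdec (j1 + 1 + k) (by omega) hi.2
      have h2 : ‖w ^ (-(m (j1 + 1 + k) : ℤ))‖ ≤ Real.exp (lam / 4 * (h * m (j1 + 1 + k))) := by
        rcases hw1.lt_or_eq with h3 | h3
        · refine (bdd_pow hw2 h3 _).trans (Real.exp_le_exp.2 ?_)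
          have h4 : 1 - ‖w‖ ≤ lam / 8 * h := by linarith
          calc 2 * (m (j1 + 1 + k) : ℝ) * (1 - ‖w‖) ≤ 2 * (m (j1 + 1 + k) : ℝ) * (lam / 8 * h) := by
                gcongr
            _ = lam / 4 * (h * m (j1 + 1 + k)) := by ring
        · rw [norm_zpow, h3, one_zpow]
          exact Real.one_le_exp (by positivity)
      have h5 := bdd_grow lac hh (j := j1) (hj1b (j1 + 1) (by omega) (by omega)) k
      have h6 : j1 + 1 + k - (j1 + 1) = k := by omega
      rw [norm_mul, h6]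
      calc ‖G (-(m (j1 + 1 + k) : ℤ))‖ * ‖w ^ (-(m (j1 + 1 + k) : ℤ))‖
          ≤ (B * Real.exp (-(lam / 2) * (h * m (j1 + 1 + k)))) *
            Real.exp (lam / 4 * (h * m (j1 + 1 + k))) :=
            mul_le_mul h1 h2 (norm_nonneg _) (by positivity)
        _ = B * Real.exp (-(lam / 4) * (h * m (j1 + 1 + k))) := by
            rw [mul_assoc, ← Real.exp_add]
            congr 2
            ring
        _ ≤ B * q ^ k := by
            refine mul_le_mul_of_nonneg_left ?_ (by linarith)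
            rw [hq, ← Real.exp_nat_mul]
            refine Real.exp_le_exp.2 ?_
            nlinarith
    have hsum : ∑ i ∈ Finset.Ioc j1 K, q ^ (i - (j1 + 1)) ≤ C1 := by
      have e : Finset.Ioc j1 K = (Finset.range (K - j1)).image (fun k => j1 + 1 + k) := by
        ext x
        simp only [Finset.mem_Ioc, Finset.mem_image, Finset.mem_range]
        constructor
        · rintro ⟨a, b⟩
          exact ⟨x - (j1 + 1), by omega, by omega⟩
        · rintro ⟨k, hk, rfl⟩
          omega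
      rw [e, Finset.sum_image (fun a _ b _ hab => by simpa using hab)]
      simp only [Nat.add_sub_cancel_left]
      rw [hC1]
      exact (Summable.sum_le_tsum _ (fun i _ => pow_nonneg hq0.le i)
        (summable_geometric_of_lt_one hq0.le hq1)).trans_eq (tsum_geometric_of_lt_one hq0.le hq1)
    calc ‖Q w‖ ≤ ∑ i ∈ Finset.Ioc j1 K, ‖G (-(m i : ℤ)) * w ^ (-(m i : ℤ))‖ := norm_sum_le _ _
      _ ≤ ∑ i ∈ Finset.Ioc j1 K, B * q ^ (i - (j1 + 1)) := Finset.sum_le_sum hterm
      _ = B * ∑ i ∈ Finset.Ioc j1 K, q ^ (i - (j1 + 1)) := by rw [Finset.mul_sum]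
      _ ≤ B * C1 := mul_le_mul_of_nonneg_left hsum (by linarith)
  have hdecomp : ∀ w : ℂ, ev U w = ev (tp G (m j1)) w + Q w := fun w =>
    bdd_ev lac.mono hG w hj1K
  -- the polynomial part
  set f := sh (m j1 : ℤ) (tp G (m j1)) with hf
  have hneg : ∀ n : ℤ, n < 0 → f n = 0 := by
    intro n hn
    rw [hf, sh_apply, bdd_tp_apply, if_neg (by omega)]
  have hfev : ∀ w : ℂ, w ≠ 0 → ev f w = w ^ (m j1 : ℤ) * ev (tp G (m j1)) w := fun w hw =>
    ev_sh _ _ hw
  have hfz : ‖ev f z‖ ≤ vv U z + B * C1 := by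
    refine (norm_poisson_le (differentiable_ev hneg) hz1).trans ?_
    have hcU : Continuous fun θ => ‖ev U (ze θ)‖ := (continuous_ev_ze U).norm
    have i1 : Integrable (fun θ => P z θ * ‖ev U (ze θ)‖) mu :=
      integrable_of_cont ((continuous_P hz1).mul hcU)
    have i2 : Integrable (fun θ => P z θ * (B * C1)) mu :=
      integrable_of_cont ((continuous_P hz1).mul continuous_const)
    calc ∫ θ, P z θ * ‖ev f (ze θ)‖ ∂mu
        ≤ ∫ θ, (P z θ * ‖ev U (ze θ)‖ + P z θ * (B * C1)) ∂mu := by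
          refine integral_mono (integrable_of_cont ((continuous_P hz1).mul
            (continuous_ev_ze f).norm)) (i1.add i2) fun θ => ?_
          simp only
          rw [← mul_add]
          refine mul_le_mul_of_nonneg_left ?_ (P_pos hz1 θ).le
          have h1 : ‖ev f (ze θ)‖ = ‖ev (tp G (m j1)) (ze θ)‖ := by
            rw [hfev _ (ze_ne θ), norm_mul, norm_zpow, norm_ze, one_zpow, one_mul]
          have h2 : ev (tp G (m j1)) (ze θ) = ev U (ze θ) - Q (ze θ) := by
            rw [hdecomp]; ring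
          rw [h1, h2]
          refine (norm_sub_le _ _).trans (add_le_add le_rfl (hQb _ ?_ (norm_ze θ).le))
          rw [norm_ze]
          have : 0 < lam / 8 * h := by positivity
          linarith
      _ = vv U z + B * C1 := by
          rw [integral_add i1 i2, integral_mul_const, integral_P hz1, one_mul]
          rfl
  have hvv : 0 ≤ vv U z := integral_nonneg fun θ => mul_nonneg (P_pos hz1 θ).le (norm_nonneg _)
  have hpow : ‖z ^ (-(m j1 : ℤ))‖ ≤ C2 := by
    refine (bdd_pow hz2 hz1 _).trans (Real.exp_le_exp.2 ?_)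
    have h4 : 1 - ‖z‖ ≤ lam / 8 * h := by linarith
    calc 2 * (m j1 : ℝ) * (1 - ‖z‖) ≤ 2 * (m j1 : ℝ) * (lam / 8 * h) := by gcongr
      _ = lam / 4 * (h * m j1) := by ring
      _ ≤ 1 * (1 + m 0) := by
          refine mul_le_mul (by linarith) hj1a (by positivity) (by norm_num)
      _ = 1 + m 0 := one_mul _
  have hlow : ‖ev (tp G (m j1)) z‖ ≤ C2 * (vv U z + B * C1) := by
    have h1 : ev (tp G (m j1)) z = z ^ (-(m j1 : ℤ)) * ev f z := by
      rw [hfev z hz0, ← mul_assoc, ← zpow_add₀ hz0, neg_add_cancel, zpow_zero, one_mul]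
    rw [h1, norm_mul]
    exact mul_le_mul hpow hfz (norm_nonneg _) (by positivity)
  rw [hdecomp]
  refine (norm_add_le _ _).trans ((add_le_add hlow (hQb z hz hz1.le)).trans ?_)
  have h0 : 0 ≤ B * C1 := by positivity
  have h1 : C2 * (vv U z + B * C1) ≤ C2 * (C1 * (vv U z + B)) := by
    refine mul_le_mul_of_nonneg_left ?_ (by positivity)
    nlinarith
  nlinarith

end

end Pool.Agent.K9h98.HLp
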