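import Pool.Agent.K9h98.HLp.Stm

/-!
# MP_5bfbcb, Q2, leaf CAKE (helper71)
-/

set_option autoImplicit false

namespace Pool.Agent.K9h98.HLp

open MeasureTheory AddCircle Complex Set Filter Topology Metric
open Pool.Agent.W767.HL

theorem cake_all : S_CAKE := by
  intro δ M d hδ hδ8 hM hd hd0 hd1 hint hlast
  by_contra hcon
  push Not at hcon
  -- layer cake
  have hdi : Integrable d mu := by
    refine Integrable.of_bound (C := 1) hd.aestronglyMeasurable (Eventually.of_forall fun θ => ?_)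
    rw [Real.norm_of_nonneg (hd0 θ)]
    exact hd1 θ
  set F : ℝ → ℝ := fun t => mu.real {θ | t ≤ d θ} with hF
  have hlc : ∫ θ, d θ ∂mu = ∫ t in (0 : ℝ)..1, F t := by
    rw [intervalIntegral.integral_of_le (by norm_num)]
    exact hdi.integral_eq_integral_Ioc_meas_le (Eventually.of_forall hd0) (Eventually.of_forall hd1)
  have hFanti : Antitone F := by
    intro s t hst
    exact measureReal_mono (fun θ (h : t ≤ d θ) => le_trans hst h)
  have hFi : ∀ a b : ℝ, IntervalIntegrable F volume a b := fun a b => hFanti.intervalIntegrable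
  have h2 : ∫ t in (0 : ℝ)..1, F t = (∫ t in (0 : ℝ)..(1 - δ), F t) + ∫ t in (1 - δ)..1, F t :=
    (intervalIntegral.integral_add_adjacent_intervals (hFi _ _) (hFi _ _)).symm
  have h3 : ∫ t in (1 - δ)..1, F t ≤ δ * (δ / 16 * M) := by
    have : ∫ t in (1 - δ)..1, F t ≤ ∫ _t in (1 - δ)..1, (δ / 16 * M) := by
      refine intervalIntegral.integral_mono_on (by linarith) (hFi _ _)
        intervalIntegrable_const ?_
      intro t ht
      exact (hFanti ht.1).trans hlast.le
    refine this.trans (le_of_eq ?_)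
    rw [intervalIntegral.integral_const, smul_eq_mul]
    ring
  have h4 : ∫ t in (0 : ℝ)..(1 - δ), F t ≤
      (1 + δ / 16) * M * ((1 - δ) ^ (1 - δ / 4) / (1 - δ / 4)) := by
    have e1 : ∫ t in (0 : ℝ)..(1 - δ), (1 + δ / 16) * M * t ^ (-(δ / 4)) =
        (1 + δ / 16) * M * ((1 - δ) ^ (1 - δ / 4) / (1 - δ / 4)) := by
      rw [intervalIntegral.integral_const_mul, integral_rpow (Or.inl (by linarith))]
      have e2 : -(δ / 4) + 1 = 1 - δ / 4 := by ring
      rw [e2, Real.zero_rpow (by linarith), sub_zero]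
    rw [← e1]
    refine intervalIntegral.integral_mono_on_of_le_Ioo (by linarith) (hFi _ _) ?_ ?_
    · exact (intervalIntegral.intervalIntegrable_rpow' (by linarith)).const_mul _
    · intro t ht
      have := (hcon t ht.1 (by linarith [ht.2])).le
      simp only [hF]
      linarith
  have h5 : (1 - δ) ^ (1 - δ / 4) ≤ 1 - δ + δ ^ 2 / 4 := by
    have := rpow_one_add_le_one_add_mul_self (s := -δ) (by linarith) (p := 1 - δ / 4)
      (by linarith) (by linarith)
    have e : 1 + -δ = 1 - δ := by ring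
    rw [e] at this
    linarith
  have h6 : 0 < 1 - δ / 4 := by linarith
  have h7 : (1 - δ) ^ (1 - δ / 4) / (1 - δ / 4) ≤ (1 - δ + δ ^ 2 / 4) / (1 - δ / 4) := by
    gcongr
  have h8 : (1 + δ / 16) * ((1 - δ + δ ^ 2 / 4) / (1 - δ / 4)) + δ * (δ / 16) < 1 - δ / 16 := by
    have e : (1 + δ / 16) * ((1 - δ + δ ^ 2 / 4) / (1 - δ / 4)) =
        ((1 + δ / 16) * (1 - δ + δ ^ 2 / 4)) / (1 - δ / 4) := by ring
    rw [e, ← lt_sub_iff_add_lt, div_lt_iff₀ h6]
    nlinarith [mul_pos hδ hδ, mul_pos (mul_pos hδ hδ) hδ]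
  have h9 : ∫ θ, d θ ∂mu < (1 - δ / 16) * M := by
    rw [hlc, h2]
    calc (∫ t in (0 : ℝ)..(1 - δ), F t) + ∫ t in (1 - δ)..1, F t ≤
        (1 + δ / 16) * M * ((1 - δ + δ ^ 2 / 4) / (1 - δ / 4)) + δ * (δ / 16 * M) := by
          refine add_le_add (h4.trans ?_) h3
          exact mul_le_mul_of_nonneg_left h7 (by positivity)
      _ = ((1 + δ / 16) * ((1 - δ + δ ^ 2 / 4) / (1 - δ / 4)) + δ * (δ / 16)) * M := by ring
      _ < _ := mul_lt_mul_of_pos_right h8 hM
  linarith

end Pool.Agent.K9h98.HLp
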