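import Pool.Agent.K9h98.HLp.Stm

/-!
# Leaf CHAIN: a chain of discs
-/

set_option autoImplicit false

namespace Pool.Agent.K9h98.HLp

open MeasureTheory AddCircle Complex Set Filter Topology Metric
open Pool.Agent.W767.HL

noncomputable section

lemma ch_ze_add (x y : Ci) : ze (x + y) = ze x * ze y := by
  simp only [ze, fourier_one]
  rw [AddCircle.toCircle_add]
  simp

lemma ch_ze_lip (x y : Ci) : ‖ze x - ze y‖ ≤ 2 * Real.pi * dist x y := by
  obtain ⟨t, ht⟩ : ∃ t : Ci, x = y + t := ⟨x - y, by abel⟩
  subst ht
  rw [ch_ze_add, show ze y * ze t - ze y = ze y * (ze t - 1) by ring, norm_mul, norm_ze, one_mul,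
    dist_eq_norm, add_sub_cancel_left]
  induction t using QuotientAddGroup.induction_on with
  | H s =>
    have h1 : ((s : ℝ) : Ci) = ((s - round s : ℝ) : Ci) := by
      rw [AddCircle.coe_sub]
      have : ((round s : ℝ) : Ci) = 0 := by
        have := AddCircle.coe_period (1 : ℝ)
        have h2 : ((round s : ℝ) : Ci) = (round s) • ((1 : ℝ) : Ci) := by
          rw [← AddCircle.coe_zsmul]
          simp
        rw [h2, this, smul_zero]
      rw [this, sub_zero]
    change ‖ze ((s : ℝ) : Ci) - 1‖ ≤ 2 * Real.pi * ‖((s : ℝ) : Ci)‖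
    rw [show ‖((s : ℝ) : Ci)‖ = |s - round s| from UnitAddCircle.norm_eq, h1, ze_coe]
    have h3 : (2 * Real.pi * Complex.I * ((s - round s : ℝ) : ℂ)) =
        Complex.I * ((2 * Real.pi * (s - round s) : ℝ) : ℂ) := by
      push_cast
      ring
    rw [h3]
    refine Real.norm_exp_I_mul_ofReal_sub_one_le.trans_eq ?_
    rw [Real.norm_eq_abs, abs_mul, abs_of_pos (by positivity : (0 : ℝ) < 2 * Real.pi)]

lemma ch_ze_surj {w : ℂ} (hw : ‖w‖ = 1) : ∃ β : Ci, ze β = w := by
  refine ⟨((Complex.arg w / (2 * Real.pi) : ℝ) : Ci), ?_⟩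
  rw [ze_coe]
  have h1 : 2 * (Real.pi : ℂ) * Complex.I * ((Complex.arg w / (2 * Real.pi) : ℝ) : ℂ) =
      (Complex.arg w : ℂ) * Complex.I := by
    have : (Real.pi : ℂ) ≠ 0 := by exact_mod_cast Real.pi_ne_zero
    push_cast
    field_simp
  rw [h1]
  have h2 := Complex.norm_mul_exp_arg_mul_I w
  rwa [hw, ofReal_one, one_mul] at h2

lemma ch_measure (β : Ci) {y : ℝ} (hy : 0 ≤ y) (hy2 : y ≤ 1 / 2) :
    mu.real (closedBall β y) = 2 * y := by
  have h1 : (volume : Measure Ci) = mu := by
    rw [AddCircle.volume_eq_smul_haarAddCircle]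
    simp
  rw [← h1, Measure.real, AddCircle.volume_closedBall, min_eq_right (by linarith),
    ENNReal.toReal_ofReal (by linarith)]

theorem chain_all (h : S_TC) : S_CHAIN := by
  intro n
  induction n with
  | zero =>
    intro f p r b e hr he heb hd hb hp h0 w hw
    have hle : Real.log e ≤ Real.log b := Real.log_le_log he heb
    refine (h0 w hw).trans ?_
    rw [pow_zero, one_mul, sub_sub_cancel, Real.exp_log he]
  | succ n ih =>
    intro f p r b e hr he heb hd hb hp h0 w hw
    have hb0 : 0 < b := he.trans_le heb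
    have hle : Real.log e ≤ Real.log b := Real.log_le_log he heb
    have ihn := ih f p r b e hr he heb (fun i hi => hd i (by omega)) (fun i hi => hb i (by omega))
      (fun i hi => hp i (by omega)) h0
    set en : ℝ := Real.exp (Real.log b - (1 / 7 : ℝ) ^ n * (Real.log b - Real.log e)) with hen
    have hen0 : 0 < en := Real.exp_pos _
    have hpw : 0 ≤ (1 / 7 : ℝ) ^ n := by positivity
    have henb : en ≤ b := by
      rw [hen, ← Real.le_log_iff_exp_le hb0]
      nlinarith
    have hlog : Real.log en = Real.log b - (1 / 7 : ℝ) ^ n * (Real.log b - Real.log e) := by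
      rw [hen, Real.log_exp]
    have hd1 : ‖w - p n‖ ≤ 2 * r := by
      rw [mem_closedBall, dist_eq_norm] at hw
      calc ‖w - p n‖ = ‖(w - p (n + 1)) + (p (n + 1) - p n)‖ := by congr 1; ring
        _ ≤ ‖w - p (n + 1)‖ + ‖p (n + 1) - p n‖ := norm_add_le _ _
        _ ≤ r + r := add_le_add hw (hp n (by omega))
        _ = 2 * r := by ring
    by_cases hcase : ‖w - p n‖ ≤ r
    · refine (ihn w (by rwa [mem_closedBall, dist_eq_norm])).trans ?_
      rw [hen, Real.exp_le_exp, pow_succ]
      nlinarith [mul_nonneg hpw (sub_nonneg.mpr hle)]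
    · rw [not_le] at hcase
      set R : ℝ := ‖w - p n‖ with hR
      have hR0 : 0 < R := hr.trans hcase
      have hRC : (R : ℂ) ≠ 0 := by exact_mod_cast hR0.ne'
      obtain ⟨β, hβ⟩ := ch_ze_surj (w := (p n - w) / R) (by
        rw [norm_div, Complex.norm_real, Real.norm_of_nonneg hR0.le, norm_sub_rev, ← hR]
        exact div_self hR0.ne')
      have hpn : p n = w + R * ze β := by
        rw [hβ, mul_div_cancel₀ _ hRC, add_sub_cancel]
      have hsub : closedBall w R ⊆ closedBall (p n) (4 * r) := by
        refine closedBall_subset_closedBall' ?_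
        rw [dist_eq_norm, ← hR]
        linarith
      have hpi : 0 < Real.pi := Real.pi_pos
      have hpi3 : 3 < Real.pi := Real.pi_gt_three
      have hpi4 : Real.pi < 3.15 := Real.pi_lt_d2
      set A : Set Ci := closedBall β (1 / (4 * Real.pi)) with hA
      have hy2 : 1 / (4 * Real.pi) ≤ 1 / 2 := by
        rw [div_le_div_iff₀ (by positivity) (by norm_num)]
        linarith
      have hmA : mu.real A = 2 * (1 / (4 * Real.pi)) := ch_measure β (by positivity) hy2
      have hα : (1 / 7 : ℝ) ≤ mu.real A := by
        rw [hmA, show 2 * (1 / (4 * Real.pi)) = 1 / (2 * Real.pi) by field_simp; norm_num,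
          div_le_div_iff₀ (by norm_num) (by positivity)]
        linarith
      have h2 := (h f w w R b en (1 / 7) A hR0 ((hd n (by omega)).mono hsub) hen0 henb
        (fun x hx => hb n (by omega) x (hsub (sphere_subset_closedBall hx)))
        isClosed_closedBall.measurableSet (fun x hx => by
          refine ihn _ ?_
          rw [hA, mem_closedBall] at hx
          rw [mem_closedBall, dist_eq_norm, hpn, add_sub_add_left_eq_sub, ← mul_sub, norm_mul,
            Complex.norm_real, Real.norm_of_nonneg hR0.le]
          have h3 := ch_ze_lip x β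
          have h4 : 2 * Real.pi * dist x β ≤ 1 / 2 := by
            calc 2 * Real.pi * dist x β ≤ 2 * Real.pi * (1 / (4 * Real.pi)) :=
                  mul_le_mul_of_nonneg_left hx (by positivity)
              _ = 1 / 2 := by field_simp; norm_num
          nlinarith) (by norm_num) hα).2
      refine h2.trans_eq ?_
      rw [hlog, pow_succ]
      congr 1
      ring

end

end Pool.Agent.K9h98.HLp
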