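import Pool.Agent.K9h98.HLp.Stm

/-!
# Parseval and Chebyshev for Laurent polynomials (leaf CHEB of MP_5bfbcb, Q2)
-/

set_option autoImplicit false

namespace Pool.Agent.K9h98.HLp

open MeasureTheory AddCircle Complex Set Filter Topology Metric
open Pool.Agent.W767.HL

noncomputable section

/-- The Laurent polynomial on the circle as a continuous function. -/
def cf (G : ℤ →₀ ℂ) : C(Ci, ℂ) := ⟨fun θ => ev G (ze θ), continuous_ev_ze G⟩

lemma fc_ev (G : ℤ →₀ ℂ) (n : ℤ) : fourierCoeff (fun θ : Ci => ev G (ze θ)) n = G n := by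
  have h1 : (fun θ : Ci => ev G (ze θ))
      = ∑ k ∈ G.support, fun θ : Ci => G k * (fourier k θ : ℂ) := by
    ext θ
    rw [ev_eq_sum, Finsupp.sum, Finset.sum_apply]
    refine Finset.sum_congr rfl fun k _ => ?_
    rw [fourier_eq]
  have hint : ∀ k ∈ G.support, Integrable (fun θ : Ci => G k * (fourier k θ : ℂ)) mu := by
    intro k _
    exact integrable_of_cont (continuous_const.mul (fourier k).continuous)
  rw [h1, fourierCoeff.sum _ _ hint, Finset.sum_apply]
  have h2 : ∀ k ∈ G.support, fourierCoeff (fun θ : Ci => G k * (fourier k θ : ℂ)) n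
      = if k = n then G k else 0 := by
    intro k _
    rw [fourierCoeff.const_mul]
    have h3 := congrFun (fourierCoeff_fourier (T := (1 : ℝ)) k) n
    rw [h3, Pi.single_apply]
    by_cases hkn : k = n
    · simp [hkn]
    · rw [if_neg (Ne.symm hkn), if_neg hkn, mul_zero]
  rw [Finset.sum_congr rfl h2, Finset.sum_ite_eq']
  by_cases hn : n ∈ G.support
  · rw [if_pos hn]
  · rw [if_neg hn, Finsupp.notMem_support_iff.mp hn]

lemma continuous_hn (G : ℤ →₀ ℂ) : Continuous (hn G) := (continuous_ev_ze G).norm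

lemma parseval (G : ℤ →₀ ℂ) : ∫ θ, hn G θ ^ 2 ∂mu = G.sum fun _ c => ‖c‖ ^ 2 := by
  have h1 := tsum_sq_fourierCoeff (T := (1 : ℝ)) (ContinuousMap.toLp (E := ℂ) 2 mu ℂ (cf G))
  have h2 : ∫ θ, hn G θ ^ 2 ∂mu
      = ∫ t, ‖(ContinuousMap.toLp (E := ℂ) 2 mu ℂ (cf G) : Lp ℂ 2 mu) t‖ ^ 2 ∂mu := by
    refine integral_congr_ae ?_
    filter_upwards [ContinuousMap.coeFn_toLp (p := 2) (𝕜 := ℂ) mu (cf G)] with θ h
    rw [h]
    rfl
  rw [h2, ← h1]
  have h3 : ∀ i : ℤ, fourierCoeff (ContinuousMap.toLp (E := ℂ) 2 mu ℂ (cf G) : Lp ℂ 2 mu) i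
      = G i := by
    intro i
    rw [fourierCoeff_toLp]
    exact fc_ev G i
  simp only [h3]
  rw [tsum_eq_sum (s := G.support)]
  · rfl
  · intro b hb
    rw [Finsupp.notMem_support_iff.mp hb]
    simp

theorem cheb_all : S_CHEB := by
  intro G s hs
  have hc : Continuous fun θ => hn G θ ^ 2 := (continuous_hn G).pow 2
  have hi := integrable_of_cont hc
  have hi1 := integrable_of_cont (continuous_hn G)
  refine ⟨?_, ?_, ?_⟩
  · rw [← parseval, le_div_iff₀ (by positivity)]
    have h1 : s ^ 2 * mu.real {θ | s ^ 2 ≤ hn G θ ^ 2} ≤ ∫ θ, hn G θ ^ 2 ∂mu :=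
      mul_meas_ge_le_integral_of_nonneg (Filter.Eventually.of_forall fun θ => sq_nonneg _) hi _
    have h2 : mu.real {θ | s < hn G θ} ≤ mu.real {θ | s ^ 2 ≤ hn G θ ^ 2} := by
      refine measureReal_mono fun θ hθ => ?_
      exact pow_le_pow_left₀ hs.le (le_of_lt hθ) 2
    calc mu.real {θ | s < hn G θ} * s ^ 2 ≤ mu.real {θ | s ^ 2 ≤ hn G θ ^ 2} * s ^ 2 :=
          mul_le_mul_of_nonneg_right h2 (by positivity)
      _ = s ^ 2 * mu.real {θ | s ^ 2 ≤ hn G θ ^ 2} := mul_comm _ _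
      _ ≤ _ := h1
  · rw [← parseval]
    have h1 : 0 ≤ ∫ θ, (hn G θ - nrm G) ^ 2 ∂mu := integral_nonneg fun θ => sq_nonneg _
    have h2 : ∫ θ, (hn G θ - nrm G) ^ 2 ∂mu
        = ∫ θ, hn G θ ^ 2 ∂mu - nrm G ^ 2 := by
      have h3 : (fun θ => (hn G θ - nrm G) ^ 2)
          = fun θ => (hn G θ ^ 2 - (2 * nrm G) * hn G θ) + nrm G ^ 2 := by
        ext θ
        ring
      have i2 : Integrable (fun θ => (2 * nrm G) * hn G θ) mu := hi1.const_mul _
      have i3 : Integrable (fun θ => hn G θ ^ 2 - (2 * nrm G) * hn G θ) mu := hi.sub i2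
      rw [h3, integral_add i3 (integrable_const _),
        integral_sub hi i2, integral_const_mul, integral_const]
      simp only [probReal_univ, one_smul]
      have h4 : ∫ θ, hn G θ ∂mu = nrm G := rfl
      rw [h4]
      ring
    linarith
  · intro n
    rw [← fc_ev G n]
    unfold fourierCoeff nrm hn
    refine (norm_integral_le_integral_norm _).trans (le_of_eq ?_)
    refine integral_congr_ae (Filter.Eventually.of_forall fun θ => ?_)
    simp only [smul_eq_mul, norm_mul, fourier_eq, norm_zpow, norm_ze, one_zpow, one_mul]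

end

end Pool.Agent.K9h98.HLp
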