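import Pool.Agent.K9h98.HLp.Basic

/-!
# Coefficients of Laurent polynomials; leaf CHEB
-/

set_option autoImplicit false

namespace Pool.Agent.K9h98.HLp

open MeasureTheory AddCircle Complex Set Filter Topology Metric
open Pool.Agent.W767.HL

noncomputable section

/-- The Fourier coefficients of a Laurent polynomial. -/
lemma fourierCoeff_ev (G : ℤ →₀ ℂ) (n : ℤ) : fourierCoeff (fun θ => ev G (ze θ)) n = G n := by
  have h1 : (fun θ => ev G (ze θ)) = ∑ k ∈ G.support, fun θ => G k * (fourier k θ : ℂ) := by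
    ext θ
    rw [ev_eq_sum, Finsupp.sum, Finset.sum_apply]
    refine Finset.sum_congr rfl fun k _ => ?_
    rw [fourier_eq]
  have h0 : ∀ k ∈ G.support, Integrable (fun θ => G k * (fourier k θ : ℂ)) mu := fun k _ =>
    integrable_of_cont (continuous_const.mul (fourier k).continuous)
  have h4 := fourierCoeff.sum (T := (1 : ℝ)) G.support
    (fun k => fun θ : Ci => G k * (fourier k θ : ℂ)) h0
  rw [h1, h4, Finset.sum_apply]
  have h2 : ∀ k ∈ G.support, fourierCoeff (fun θ : Ci => G k * (fourier k θ : ℂ)) n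
      = if k = n then G k else 0 := by
    intro k _
    rw [fourierCoeff.const_mul]
    have h3 := congrFun (fourierCoeff_fourier (T := (1 : ℝ)) k) n
    rw [h3]
    by_cases hkn : k = n
    · rw [if_pos hkn, hkn, Pi.single_eq_same, mul_one]
    · rw [if_neg hkn, Pi.single_eq_of_ne (Ne.symm hkn), mul_zero]
  rw [Finset.sum_congr rfl h2, Finset.sum_ite_eq']
  by_cases hn : n ∈ G.support
  · rw [if_pos hn]
  · rw [if_neg hn, Finsupp.notMem_support_iff.mp hn]

lemma coeff_le_nrm (G : ℤ →₀ ℂ) (n : ℤ) : ‖G n‖ ≤ nrm G := by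
  rw [← fourierCoeff_ev G n]
  unfold fourierCoeff nrm hn
  refine (norm_integral_le_integral_norm _).trans (le_of_eq ?_)
  refine integral_congr_ae (Filter.Eventually.of_forall fun θ => ?_)
  simp only [smul_eq_mul, norm_mul, fourier_eq, norm_zpow, norm_ze, one_zpow, one_mul]

/-- Parseval's identity for Laurent polynomials. -/
lemma parseval (G : ℤ →₀ ℂ) : ∫ θ, hn G θ ^ 2 ∂mu = G.sum fun _ c => ‖c‖ ^ 2 := by
  set f : C(Ci, ℂ) := ⟨fun θ => ev G (ze θ), continuous_ev_ze G⟩ with hf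
  have h := hasSum_sq_fourierCoeff (ContinuousMap.toLp (E := ℂ) 2 mu ℂ f)
  have h1 : (fun i => ‖fourierCoeff (ContinuousMap.toLp (E := ℂ) 2 mu ℂ f) i‖ ^ 2)
      = fun i => ‖G i‖ ^ 2 := by
    ext i
    rw [fourierCoeff_toLp]
    congr 2
    exact fourierCoeff_ev G i
  rw [h1] at h
  have h2 : HasSum (fun i => ‖G i‖ ^ 2) (∑ i ∈ G.support, ‖G i‖ ^ 2) := by
    refine hasSum_sum_of_ne_finset_zero fun i hi => ?_
    rw [Finsupp.notMem_support_iff.mp hi, norm_zero, zero_pow two_ne_zero]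
  have h3 := h.unique h2
  rw [Finsupp.sum, ← h3]
  refine integral_congr_ae ?_
  filter_upwards [ContinuousMap.coeFn_toLp (p := 2) (𝕜 := ℂ) mu f] with θ hθ
  rw [hθ]
  rfl

theorem cheb_all : S_CHEB := by
  intro G s hs
  have hc := continuous_hn G
  have hi : Integrable (fun θ => hn G θ ^ 2) mu := integrable_of_cont (hc.pow 2)
  refine ⟨?_, ?_, coeff_le_nrm G⟩
  · rw [← parseval G, le_div_iff₀ (by positivity)]
    have h := mul_meas_ge_le_integral_of_nonneg (μ := mu) (f := fun θ => hn G θ ^ 2)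
      (Filter.Eventually.of_forall fun θ => sq_nonneg (hn G θ)) hi (s ^ 2)
    have h2 : mu.real {θ | s < hn G θ} ≤ mu.real {θ | s ^ 2 ≤ hn G θ ^ 2} := by
      refine measureReal_mono (fun θ hθ => ?_)
      simp only [Set.mem_ofPred_eq] at hθ ⊢
      exact pow_le_pow_left₀ hs.le hθ.le 2
    calc mu.real {θ | s < hn G θ} * s ^ 2 ≤ mu.real {θ | s ^ 2 ≤ hn G θ ^ 2} * s ^ 2 :=
          mul_le_mul_of_nonneg_right h2 (sq_nonneg s)
      _ = s ^ 2 * mu.real {θ | s ^ 2 ≤ hn G θ ^ 2} := mul_comm _ _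
      _ ≤ _ := h
  · rw [← parseval G]
    have i1 : Integrable (fun θ => hn G θ) mu := integrable_of_cont hc
    have h0 : 0 ≤ ∫ θ, (hn G θ - nrm G) ^ 2 ∂mu := integral_nonneg fun θ => sq_nonneg _
    have h1 : ∫ θ, (hn G θ - nrm G) ^ 2 ∂mu
        = ∫ θ, hn G θ ^ 2 ∂mu - 2 * nrm G * ∫ θ, hn G θ ∂mu + nrm G ^ 2 := by
      have e1 : ∀ θ, (hn G θ - nrm G) ^ 2
          = hn G θ ^ 2 - 2 * nrm G * hn G θ + nrm G ^ 2 := fun θ => by ring
      simp only [e1]
      have e2 : ∫ θ, (hn G θ ^ 2 - 2 * nrm G * hn G θ + nrm G ^ 2) ∂mu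
          = ∫ θ, (hn G θ ^ 2 - 2 * nrm G * hn G θ) ∂mu + ∫ θ, nrm G ^ 2 ∂mu :=
        integral_add (hi.sub (i1.const_mul _)) (integrable_const _)
      have e3 : ∫ θ, (hn G θ ^ 2 - 2 * nrm G * hn G θ) ∂mu
          = ∫ θ, hn G θ ^ 2 ∂mu - ∫ θ, 2 * nrm G * hn G θ ∂mu :=
        integral_sub hi (i1.const_mul _)
      rw [e2, e3, integral_const_mul, integral_const]
      simp
    have h2 : ∫ θ, hn G θ ∂mu = nrm G := rfl
    rw [h2] at h1
    nlinarith

end

end Pool.Agent.K9h98.HLp
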