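import Pool.Agent.K9h98.HLp.CoreA

/-!
Leaf CORE (helper72).
-/

set_option autoImplicit false

namespace Pool.Agent.K9h98.HLp

open MeasureTheory AddCircle Complex Set Filter Topology Metric
open Pool.Agent.W767.HL

namespace Cor

/-- the chain of discs -/
lemma chain (hc : S_CHAIN) {f : ℂ → ℂ} {Y y R b e1 : ℝ} {θ φ : Ci} {n : ℕ} (hY : 0 < Y)
    (hR0 : 0 < R) (hy0 : 0 < y) (hyR : y ≤ R / 8) (hyR1 : y + R ≤ 1) (hn : 0 < n)
    (hnR : 48 * Real.pi * Y ≤ n * R) (hd : dist φ θ ≤ 3 * Y) (he1 : 0 < e1) (he1b : e1 ≤ b)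
    (hdiff : ∀ ψ : Ci, ‖ze ψ - ze θ‖ ≤ 6 * Real.pi * Y →
      DifferentiableOn ℂ f (closedBall (pt (y + R) ψ) (R / 2)))
    (hbd : ∀ ψ : Ci, ‖ze ψ - ze θ‖ ≤ 6 * Real.pi * Y →
      ∀ w ∈ closedBall (pt (y + R) ψ) (R / 2), ‖f w‖ ≤ b)
    (hfirst : ∀ w ∈ closedBall (pt (y + R) φ) (R / 8), ‖f w‖ ≤ e1) :
    ‖f (pt R θ)‖ ≤ Real.exp (Real.log b - (1 / 7 : ℝ) ^ n * (Real.log b - Real.log e1)) := by
  have hpi := Real.pi_pos
  have hn0 : (0 : ℝ) < n := by exact_mod_cast hn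
  obtain ⟨x, hx, hxd⟩ := exists_diff φ θ
  rw [← hxd] at hd
  obtain ⟨q, hq⟩ : ∃ q : ℕ → Ci, q = fun i : ℕ => φ + (((i : ℝ) / n * x : ℝ) : Ci) := ⟨_, rfl⟩
  have hqi : ∀ i, q i = φ + (((i : ℝ) / n * x : ℝ) : Ci) := fun i => by rw [hq]
  have hqn : q n = θ := by
    rw [hqi]
    have e1 : (n : ℝ) / n * x = x := by field_simp
    rw [e1, hx]
  have hq0 : q 0 = φ := by
    rw [hqi]
    simp
  have hψ : ∀ i : ℕ, i ≤ n → ‖ze (q i) - ze θ‖ ≤ 6 * Real.pi * Y := by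
    intro i hi
    have hin : (i : ℝ) ≤ n := by exact_mod_cast hi
    have e1 : q i + (((1 - (i : ℝ) / n) * x : ℝ) : Ci) = θ := by
      rw [hqi, add_assoc, ← AddCircle.coe_add]
      have : ((i : ℝ) / n * x + (1 - (i : ℝ) / n) * x) = x := by ring
      rw [this, hx]
    have h1 := ze_add_sub (q i) ((1 - (i : ℝ) / n) * x)
    rw [e1, norm_sub_rev] at h1
    refine h1.trans ?_
    rw [abs_mul]
    have h2 : |1 - (i : ℝ) / n| ≤ 1 := by
      rw [abs_le]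
      have h3 : (i : ℝ) / n ≤ 1 := by rw [div_le_one hn0]; exact hin
      have h4 : 0 ≤ (i : ℝ) / n := by positivity
      constructor <;> linarith
    have h5 : |1 - (i : ℝ) / n| * |x| ≤ 1 * (3 * Y) :=
      mul_le_mul h2 hd (abs_nonneg _) (by norm_num)
    calc 2 * Real.pi * (|1 - (i : ℝ) / n| * |x|) ≤ 2 * Real.pi * (1 * (3 * Y)) :=
          mul_le_mul_of_nonneg_left h5 (by positivity)
      _ = 6 * Real.pi * Y := by ring
  have hstep : ∀ i : ℕ, ‖pt (y + R) (q (i + 1)) - pt (y + R) (q i)‖ ≤ R / 8 := by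
    intro i
    refine (pt_sub_pt (by linarith) hyR1 _ _).trans ?_
    have e2 : q (i + 1) = q i + ((x / n : ℝ) : Ci) := by
      rw [hqi, hqi, add_assoc, ← AddCircle.coe_add]
      congr 2
      push_cast
      ring
    rw [e2]
    refine (ze_add_sub _ _).trans ?_
    rw [abs_div, abs_of_pos hn0]
    have h1 : 2 * Real.pi * (|x| / n) ≤ 2 * Real.pi * (3 * Y / n) := by
      apply mul_le_mul_of_nonneg_left _ (by positivity)
      exact div_le_div_of_nonneg_right hd hn0.le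
    refine h1.trans ?_
    have e3 : 2 * Real.pi * (3 * Y / n) = (6 * Real.pi * Y) / n := by ring
    rw [e3, div_le_iff₀ hn0]
    linarith
  have hchain := hc n f (fun i => pt (y + R) (q i)) (R / 8) b e1 (by positivity) he1 he1b
    (fun i hi => by
      have : 4 * (R / 8) = R / 2 := by ring
      rw [this]
      exact hdiff _ (hψ i hi))
    (fun i hi w hw => by
      have : 4 * (R / 8) = R / 2 := by ring
      rw [this] at hw
      exact hbd _ (hψ i hi) w hw)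
    (fun i _ => hstep i)
    (fun w hw => by
      simp only [hq0] at hw
      exact hfirst w hw)
  apply hchain
  rw [mem_closedBall, dist_eq_norm]
  simp only [hqn]
  rw [pt_sub_same, abs_of_nonpos (by linarith)]
  linarith

/-- constants of the geometry -/
structure Geom (Y y R : ℝ) : Prop where
  Y0 : 0 < Y
  Y2 : Y ≤ 1 / 2
  y0 : 0 < y
  R0 : 0 < R
  yR : y ≤ R / 162
  RY : R ≤ Y / 128

/-- the first disc -/
lemma first (hne : S_NEAR) (hs : S_SMALL) (ht : S_TC) {U : ℤ →₀ ℂ} {N : ℕ}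
    {Y y R η τ lam h V b : ℝ} {E : Set Ci} {θ φ : Ci} (g : Geom Y y R) (hη : 0 < η)
    (hlam : 0 < lam) (hτ : 0 ≤ τ) (hy1 : y = lam / 5184 * η * h) (hy2 : y = η * R / 162)
    (hmK : h * N ≤ τ) (hU0 : ∀ n : ℤ, n < -(N : ℤ) → U n = 0) (hE : MeasurableSet E)
    (hEs : ∀ ψ ∈ E, hn U ψ ≤ Real.exp (-(lam / 8 * τ))) (hd : ‖ze φ - ze θ‖ ≤ 6 * Real.pi * Y)
    (hEη : η * y ≤ mu.real (E ∩ closedBall φ y)) (hV0 : 0 ≤ V) (hb1 : 1 ≤ b)
    (hvvV : ∀ z : ℂ, 1 - 4 * R ≤ ‖z‖ → ‖z‖ ≤ 1 - y → ‖z - pt Y θ‖ ≤ 21 * Y → vv U z ≤ V)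
    (hUb : ∀ z : ℂ, 1 - 4 * R ≤ ‖z‖ → ‖z‖ ≤ 1 - y → ‖z - pt Y θ‖ ≤ 21 * Y → ‖ev U z‖ ≤ b)
    (hdiff : ∀ z : ℂ, z ∈ closedBall (pt (y + R) φ) R → z ≠ 0) :
    ∃ e : ℝ, 0 < e ∧ e ≤ b ∧ e ≤ Real.exp (1 - η * τ * lam / 1296) * (1 + V) ∧
      ∀ z : ℂ, ‖z - pt (y + R) φ‖ ≤ R / 2 →
        ‖ev U z‖ ≤ Real.exp (Real.log b - η / 600 / 3 * (Real.log b - Real.log e)) := by
  have hpi := Real.pi_pos
  have hR0 := g.R0
  have hy0 := g.y0
  have hyR := g.yR
  have hY0 := g.Y0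
  have hY2 := g.Y2
  have hRY := g.RY
  obtain ⟨e0, he0⟩ : ∃ e0 : ℝ, e0 = Real.exp (1 - η * τ * lam / 1296) * (1 + V) := ⟨_, rfl⟩
  have he00 : 0 < e0 := by rw [he0]; positivity
  rw [← he0]
  refine ⟨min e0 b, lt_min he00 (by linarith), min_le_right _ _, min_le_left _ _, ?_⟩
  have hsmall : ∀ ξ ∈ closedBall φ (y / (2 * Real.pi * R)),
      ‖ev U (pt (y + R) φ + R * ze ξ)‖ ≤ min e0 b := by
    intro ξ hξ
    have hz1 := near_pt (y := y) hR0 hξ
    have hzR : ‖pt (y + R) φ + R * ze ξ - pt (y + R) φ‖ ≤ R := by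
      rw [add_sub_cancel_left, norm_mul, norm_ze, Complex.norm_real,
        Real.norm_of_nonneg hR0.le, mul_one]
    obtain ⟨k1, k2, k3⟩ := disc hY0 hY2 hy0 hyR hRY hd hzR
    obtain ⟨z, hz⟩ : ∃ z : ℂ, z = pt (y + R) φ + R * ze ξ := ⟨_, rfl⟩
    rw [← hz] at hz1 k1 k2 k3 ⊢
    refine le_min ?_ (hUb z k1 k2 k3)
    have hω := hne η y φ E z hη hy0 (by linarith) hE hEη k2 hz1
    have hS := hs U N E (lam / 8 * τ) z hU0 hE (by positivity) hEs (by linarith) (by linarith)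
    refine hS.trans ?_
    rw [he0]
    have hz2 : 1 - ‖z‖ ≤ 2 * y := by
      have h1 : ‖pt y φ‖ ≤ ‖z‖ + ‖z - pt y φ‖ := by
        have := norm_sub_le z (z - pt y φ)
        rwa [sub_sub_cancel] at this
      rw [norm_pt (by linarith)] at h1
      linarith
    have hv0 := vv_nonneg U (z := z) (by linarith)
    apply mul_le_mul _ (by linarith [hvvV z k1 k2 k3]) (by linarith) (Real.exp_pos _).le
    apply Real.exp_le_exp.mpr
    exact expo hη hlam hτ (Nat.cast_nonneg N) hy1 hmK hz2 hω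
  have hρ : y / (2 * Real.pi * R) ≤ 1 / 2 := by
    rw [div_le_iff₀ (by positivity)]
    have h3 : (3 : ℝ) ≤ Real.pi := Real.pi_gt_three.le
    have h4 : R ≤ 1 / 2 * (2 * Real.pi * R) := by
      have : 1 / 2 * (2 * Real.pi * R) = Real.pi * R := by ring
      rw [this]
      calc R = 1 * R := by ring
        _ ≤ Real.pi * R := mul_le_mul_of_nonneg_right (by linarith) hR0.le
    linarith
  have hmeas : η / 600 ≤ mu.real (closedBall φ (y / (2 * Real.pi * R))) := by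
    rw [mu_closedBall φ (by positivity) hρ, hy2]
    have e1 : 2 * (η * R / 162 / (2 * Real.pi * R)) = η / (162 * Real.pi) := by
      field_simp
    rw [e1]
    apply div_le_div_of_nonneg_left hη.le (by positivity)
    have : Real.pi ≤ 3.15 := Real.pi_lt_d2.le
    linarith
  intro z hz
  refine (ht (ev U) (pt (y + R) φ) z R b (min e0 b) (η / 600)
    (closedBall φ (y / (2 * Real.pi * R))) hR0 ?_ (lt_min he00 (by linarith)) (min_le_right _ _)
    ?_ isClosed_closedBall.measurableSet hsmall (by positivity) hmeas).1 hz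
  · intro w hw
    exact (diff_ev U (hdiff w hw)).differentiableWithinAt
  · intro w hw
    rw [mem_sphere, dist_eq_norm] at hw
    obtain ⟨k1, k2, k3⟩ := disc hY0 hY2 hy0 hyR hRY hd hw.le
    exact hUb w k1 k2 k3

end Cor

open Cor in
theorem core_all {L : ℕ} {m : ℕ → ℕ} {lam : ℝ} (hne : S_NEAR) (hh : S_HARN) (hb : S_BDD m lam)
    (hs : S_SMALL) (ht : S_TC) (hc : S_CHAIN) (lac : Lac L m lam) : S_CORE L m lam := by
  obtain ⟨Cb, hCb, hb⟩ := hb
  have hlam := lac.lam_pos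
  have hlam1 := lac.lam_le
  have hL1 : (1 : ℝ) ≤ L := by exact_mod_cast lac.hL
  -- constants
  obtain ⟨D, hD⟩ : ∃ D : ℝ, D = 10368 * ((L : ℝ) + 1) / lam := ⟨_, rfl⟩
  have hD1 : 1 ≤ D := by
    rw [hD, le_div_iff₀ hlam]; linarith
  obtain ⟨n, hn1⟩ := exists_nat_ge (48 * Real.pi * (64 * ((L : ℝ) + 1) / lam) + 1)
  have hpi := Real.pi_pos
  have hn0 : (0 : ℝ) < n := by
    have : 0 < 48 * Real.pi * (64 * ((L : ℝ) + 1) / lam) := by positivity
    linarith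
  have hn0' : 0 < n := by exact_mod_cast hn0
  obtain ⟨κ, hκ⟩ : ∃ κ : ℝ, κ = (1 / 7 : ℝ) ^ n / 1800 := ⟨_, rfl⟩
  have hκ0 : 0 < κ := by rw [hκ]; positivity
  have hκ1 : κ ≤ 1 := by
    have : (1 / 7 : ℝ) ^ n ≤ 1 := pow_le_one₀ (by norm_num) (by norm_num)
    rw [hκ]; linarith
  obtain ⟨D2, hD2⟩ : ∃ D2 : ℝ, D2 = 484 * D ^ 2 + 1 := ⟨_, rfl⟩
  have hD21 : 1 ≤ D2 := by rw [hD2]; linarith [sq_nonneg D]
  have hlogD2 : 0 ≤ Real.log D2 := Real.log_nonneg hD21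
  have hlogCb : 0 ≤ Real.log Cb := Real.log_nonneg hCb
  refine ⟨κ * lam / 1296, 5 + Real.log Cb + 2 * Real.log D2, by positivity, by linarith, ?_⟩
  intro G Y h y τ B η K E θ φ hG hY hY2 hh' hη hη1 hy hB hτ hmK hcoef hE hEs hdist hEη hvv
  -- geometry
  have hh0 : 0 < h := by rw [hh']; positivity
  have hhY : h ≤ Y / 4 := by
    rw [hh', div_le_div_iff₀ (by positivity) (by norm_num)]
    calc Y * 4 ≤ Y * (2 * ((L : ℝ) + 1)) := mul_le_mul_of_nonneg_left (by linarith) hY.le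
      _ = Y * (2 * ((L : ℝ) + 1)) := rfl
  obtain ⟨R, hR⟩ : ∃ R : ℝ, R = lam / 32 * h := ⟨_, rfl⟩
  have hR0 : 0 < R := by rw [hR]; positivity
  have hRh : R ≤ h / 32 := by
    rw [hR]
    calc lam / 32 * h = lam * (h / 32) := by ring
      _ ≤ 1 * (h / 32) := mul_le_mul_of_nonneg_right hlam1 (by positivity)
      _ = h / 32 := one_mul _
  have hyR : y = η * R / 162 := by rw [hy, hR]; ring
  have hy0 : 0 < y := by rw [hyR]; positivity
  have hyR2 : y ≤ R / 162 := by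
    rw [hyR]
    calc η * R / 162 = η * (R / 162) := by ring
      _ ≤ 1 * (R / 162) := mul_le_mul_of_nonneg_right hη1 (by positivity)
      _ = R / 162 := one_mul _
  have hR128 : R ≤ Y / 128 := by linarith
  have g : Geom Y y R := ⟨hY, hY2, hy0, hR0, hyR2, hR128⟩
  obtain ⟨U, hU⟩ : ∃ U : ℤ →₀ ℂ, U = tp G (m K) := ⟨_, rfl⟩
  have hBDD : ∀ z : ℂ, 1 - 4 * R ≤ ‖z‖ → ‖z‖ < 1 → ‖ev U z‖ ≤ Cb * (vv U z + B) := by
    intro z h1 h2
    rw [hU]
    refine hb G h B K hG hh0 (by linarith) hB hcoef z ?_ h2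
    have : lam / 8 * h = 4 * R := by rw [hR]; ring
    linarith
  rw [← hU] at hEs hvv ⊢
  -- the bound of the Poisson integral
  obtain ⟨V, hV⟩ : ∃ V : ℝ, V = (22 * (D / η)) ^ 2 * B := ⟨_, rfl⟩
  have hV0 : 0 ≤ V := by rw [hV]; positivity
  have hYy : Y / y = D / η := by
    rw [hyR, hR, hh', hD]; field_simp; ring
  have hDη : 1 ≤ D / η := by
    rw [le_div_iff₀ hη]; linarith
  have hvvV : ∀ z : ℂ, 1 - 4 * R ≤ ‖z‖ → ‖z‖ ≤ 1 - y → ‖z - pt Y θ‖ ≤ 21 * Y → vv U z ≤ V := by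
    intro z h1 h2 h3
    rw [hV]
    exact vv_bound hh hY hY2 hy0 (by linarith) hYy hDη hvv h1 h2 h3
  obtain ⟨b, hbdef⟩ : ∃ b : ℝ, b = Cb * (V + B) := ⟨_, rfl⟩
  have hb1 : 1 ≤ b := by
    rw [hbdef]
    calc (1 : ℝ) = 1 * 1 := by ring
      _ ≤ Cb * (V + B) := mul_le_mul hCb (by linarith) (by norm_num) (by linarith)
  have hUb : ∀ z : ℂ, 1 - 4 * R ≤ ‖z‖ → ‖z‖ ≤ 1 - y → ‖z - pt Y θ‖ ≤ 21 * Y → ‖ev U z‖ ≤ b := by
    intro z h1 h2 h3
    refine (hBDD z h1 (by linarith)).trans ?_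
    rw [hbdef]
    apply mul_le_mul_of_nonneg_left _ (by linarith)
    linarith [hvvV z h1 h2 h3]
  have hφθ : ‖ze φ - ze θ‖ ≤ 6 * Real.pi * Y := by
    obtain ⟨x, hx, hxd⟩ := exists_diff φ θ
    rw [← hxd] at hdist
    have := ze_add_sub φ x
    rw [hx, norm_sub_rev] at this
    refine this.trans ?_
    calc 2 * Real.pi * |x| ≤ 2 * Real.pi * (3 * Y) :=
          mul_le_mul_of_nonneg_left hdist (by positivity)
      _ = 6 * Real.pi * Y := by ring
  have hz_ne : ∀ z : ℂ, 1 - 4 * R ≤ ‖z‖ → z ≠ 0 := by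
    intro z h1 h2
    rw [h2, norm_zero] at h1
    linarith
  obtain ⟨e, he_pos, heb, hee0, hfirst⟩ := first hne hs ht g hη hlam hτ hy hyR hmK
    (fun k hk => by rw [hU]; exact tp_apply_lt G _ hk) hE hEs hφθ hEη hV0 hb1 hvvV hUb
    (fun z hz => by
      rw [mem_closedBall, dist_eq_norm] at hz
      exact hz_ne z (disc hY hY2 hy0 hyR2 hR128 hφθ hz).1)
  have hlogeb : Real.log e ≤ Real.log b := Real.log_le_log he_pos heb
  obtain ⟨e1, he1⟩ : ∃ e1 : ℝ, e1 = Real.exp (Real.log b - η / 600 / 3 * (Real.log b - Real.log e)) :=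
    ⟨_, rfl⟩
  rw [← he1] at hfirst
  have he1b : e1 ≤ b := by
    have h1 : 0 ≤ η / 600 / 3 * (Real.log b - Real.log e) :=
      mul_nonneg (by positivity) (by linarith)
    rw [he1]
    calc Real.exp (Real.log b - η / 600 / 3 * (Real.log b - Real.log e)) ≤ Real.exp (Real.log b) :=
          Real.exp_le_exp.mpr (by linarith)
      _ = b := Real.exp_log (by linarith)
  have hYR : Y = 64 * ((L : ℝ) + 1) / lam * R := by
    rw [hR, hh']; field_simp; ring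
  have hnR : 48 * Real.pi * Y ≤ n * R := by
    have h3 : 48 * Real.pi * (64 * ((L : ℝ) + 1) / lam) * R ≤ n * R :=
      mul_le_mul_of_nonneg_right (by linarith) hR0.le
    calc 48 * Real.pi * Y = 48 * Real.pi * (64 * ((L : ℝ) + 1) / lam) * R := by
          conv_lhs => rw [hYR]
          ring
      _ ≤ _ := h3
  have hlast := chain hc (f := ev U) (θ := θ) (φ := φ) hY hR0 hy0 (by linarith) (by linarith) hn0'
    hnR hdist (by rw [he1]; exact Real.exp_pos _) he1b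
    (fun ψ hψ z hz => by
      rw [mem_closedBall, dist_eq_norm] at hz
      exact (diff_ev U (hz_ne z (disc hY hY2 hy0 hyR2 hR128 hψ
        (hz.trans (by linarith))).1)).differentiableWithinAt)
    (fun ψ hψ w hw => by
      rw [mem_closedBall, dist_eq_norm] at hw
      obtain ⟨k1, k2, k3⟩ := disc hY hY2 hy0 hyR2 hR128 hψ (hw.trans (by linarith))
      exact hUb w k1 k2 k3)
    (fun w hw => by
      apply hfirst
      rw [mem_closedBall, dist_eq_norm] at hw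
      linarith)
  rw [← hR]
  refine hlast.trans ?_
  apply Real.exp_le_exp.mpr
  have hloge1 : Real.log e1 = Real.log b - η / 600 / 3 * (Real.log b - Real.log e) := by
    rw [he1, Real.log_exp]
  rw [hloge1]
  have e2 : Real.log b - (1 / 7 : ℝ) ^ n * (Real.log b - (Real.log b -
      η / 600 / 3 * (Real.log b - Real.log e))) = Real.log b - κ * η * (Real.log b - Real.log e) := by
    rw [hκ]; ring
  rw [e2]
  have hη2 : (1 : ℝ) ≤ 1 / η ^ 2 := by
    rw [le_div_iff₀ (by positivity), one_mul]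
    exact pow_le_one₀ hη.le hη1
  have hVB : V + B ≤ D2 * (B * (1 / η ^ 2)) := by
    have e3 : V = 484 * D ^ 2 * (B * (1 / η ^ 2)) := by
      rw [hV]; field_simp; ring
    have e4 : D2 * (B * (1 / η ^ 2)) = 484 * D ^ 2 * (B * (1 / η ^ 2)) + B * (1 / η ^ 2) := by
      rw [hD2]; ring
    have e5 : B ≤ B * (1 / η ^ 2) := le_mul_of_one_le_right (by linarith) hη2
    rw [e4, e3]
    linarith
  exact logs hκ0 hκ1 hη hη1 hlam hCb hD21 hB hV0 hVB hbdef he_pos hee0 rfl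

end Pool.Agent.K9h98.HLp
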