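import Pool.Agent.K9h98.HLp.Stm

/-!
Leaf CORE (helper72), auxiliary lemmas.
-/

set_option autoImplicit false

namespace Pool.Agent.K9h98.HLp

open MeasureTheory AddCircle Complex Set Filter Topology Metric
open Pool.Agent.W767.HL

namespace Cor

lemma ze_add (a b : Ci) : ze (a + b) = ze a * ze b := by
  rw [ze, fourier_one, ze, fourier_one, ze, fourier_one, AddCircle.toCircle_add, Circle.coe_mul]

lemma ze_coe_sub_one (x : ℝ) : ‖ze (x : Ci) - 1‖ ≤ 2 * Real.pi * |x| := by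
  rw [ze_coe]
  have h := Real.norm_exp_I_mul_ofReal_sub_one_le (x := 2 * Real.pi * x)
  have e : (2 * Real.pi * Complex.I * x : ℂ) = Complex.I * ((2 * Real.pi * x : ℝ) : ℂ) := by
    push_cast; ring
  rw [e]
  refine h.trans ?_
  rw [Real.norm_eq_abs, abs_mul, abs_of_pos (by positivity : (0 : ℝ) < 2 * Real.pi)]

lemma ze_add_sub (a : Ci) (x : ℝ) : ‖ze (a + (x : Ci)) - ze a‖ ≤ 2 * Real.pi * |x| := by
  have e : ze (a + (x : Ci)) - ze a = ze a * (ze (x : Ci) - 1) := by rw [ze_add]; ring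
  rw [e, norm_mul, norm_ze, one_mul]
  exact ze_coe_sub_one x

lemma exists_rep (a : Ci) : ∃ x : ℝ, (x : Ci) = a ∧ |x| = ‖a‖ := by
  obtain ⟨x, rfl⟩ := QuotientAddGroup.mk_surjective a
  refine ⟨x - round x, ?_, ?_⟩
  · have h : ((round x : ℝ) : Ci) = 0 := by
      rw [AddCircle.coe_eq_zero_iff]
      exact ⟨round x, by simp⟩
    have h2 : ((x - round x : ℝ) : Ci) = (x : Ci) - ((round x : ℝ) : Ci) := AddCircle.coe_sub _ _ _
    rw [h2, h, sub_zero]
  · have h := AddCircle.norm_eq (p := (1 : ℝ)) (x := x)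
    rw [inv_one, one_mul, mul_one] at h
    exact h.symm

lemma exists_diff (φ θ : Ci) : ∃ x : ℝ, φ + (x : Ci) = θ ∧ |x| = dist φ θ := by
  obtain ⟨x, hx, hn⟩ := exists_rep (θ - φ)
  refine ⟨x, by rw [hx]; abel, ?_⟩
  rw [hn, dist_comm, dist_eq_norm]

lemma mu_closedBall (φ : Ci) {ρ : ℝ} (h0 : 0 ≤ ρ) (h1 : ρ ≤ 1 / 2) :
    mu.real (closedBall φ ρ) = 2 * ρ := by
  have h := AddCircle.volume_closedBall (T := (1 : ℝ)) (x := φ) ρ
  have h2 : (volume : Measure Ci) = mu := by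
    rw [AddCircle.volume_eq_smul_haarAddCircle]
    simp
  rw [h2] at h
  rw [Measure.real, h, ENNReal.toReal_ofReal]
  · exact min_eq_right (by linarith)
  · exact le_min zero_le_one (by linarith)

lemma norm_pt {h : ℝ} (h1 : h ≤ 1) (θ : Ci) : ‖pt h θ‖ = 1 - h := by
  unfold pt
  rw [norm_mul, norm_ze, mul_one, Complex.norm_real, Real.norm_of_nonneg (by linarith)]

lemma pt_sub_same {a b : ℝ} (θ : Ci) : ‖pt a θ - pt b θ‖ = |a - b| := by
  unfold pt
  rw [← sub_mul, norm_mul, norm_ze, mul_one, ← Complex.ofReal_sub, Complex.norm_real,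
    Real.norm_eq_abs, abs_sub_comm]
  congr 1
  ring

lemma pt_sub_pt {a : ℝ} (h0 : 0 ≤ a) (h1 : a ≤ 1) (θ ψ : Ci) :
    ‖pt a θ - pt a ψ‖ ≤ ‖ze θ - ze ψ‖ := by
  unfold pt
  rw [← mul_sub, norm_mul, Complex.norm_real, Real.norm_of_nonneg (by linarith)]
  exact mul_le_of_le_one_left (norm_nonneg _) (by linarith)

lemma ev_apply (f : ℤ →₀ ℂ) (z : ℂ) : ev f z = ∑ n ∈ f.support, f n * z ^ n := by
  unfold ev
  rw [Finsupp.linearCombination_apply, Finsupp.sum]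
  simp

lemma diff_ev (f : ℤ →₀ ℂ) {z : ℂ} (hz : z ≠ 0) : DifferentiableAt ℂ (ev f) z := by
  have e : ev f = fun z => ∑ n ∈ f.support, f n * z ^ n := funext (ev_apply f)
  rw [e]
  apply DifferentiableAt.fun_sum
  intro n _
  exact (differentiableAt_zpow.mpr (Or.inl hz)).const_mul _

lemma vv_nonneg (G : ℤ →₀ ℂ) {z : ℂ} (hz : ‖z‖ < 1) : 0 ≤ vv G z := by
  unfold vv
  apply integral_nonneg
  intro θ
  exact mul_nonneg (P_pos hz θ).le (norm_nonneg _)

lemma tp_apply_lt (G : ℤ →₀ ℂ) (N : ℕ) {n : ℤ} (hn : n < -(N : ℤ)) : tp G N n = 0 := by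
  unfold tp
  rw [Finsupp.filter_apply, if_neg (by omega)]

/-- the Poisson integral near the circle -/
lemma vv_bound (hh : S_HARN) {U : ℤ →₀ ℂ} {Y y R q B : ℝ} {θ : Ci} (hY : 0 < Y) (hY2 : Y ≤ 1 / 2)
    (hy : 0 < y) (hR : 8 * R ≤ Y) (hq : Y / y = q) (hq1 : 1 ≤ q) (hvv : vv U (pt Y θ) ≤ B)
    {z : ℂ} (h1 : 1 - 4 * R ≤ ‖z‖) (h2 : ‖z‖ ≤ 1 - y) (h3 : ‖z - pt Y θ‖ ≤ 21 * Y) :
    vv U z ≤ (22 * q) ^ 2 * B := by
  have hw : ‖pt Y θ‖ = 1 - Y := norm_pt (by linarith) θ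
  have h4 := hh U z (pt Y θ) (by linarith) (by rw [hw]; linarith)
  rw [hw] at h4
  obtain ⟨t, ht⟩ : ∃ t : ℝ, t = 1 - ‖z‖ := ⟨_, rfl⟩
  have hz : ‖z‖ = 1 - t := by rw [ht]; ring
  have hty : y ≤ t := by linarith
  have ht4 : t ≤ 4 * R := by linarith
  have ht1 : t ≤ 1 := by linarith [norm_nonneg z]
  have ht0 : 0 < t := by linarith
  rw [hz] at h4
  have e1 : (1 : ℝ) - (1 - t) ^ 2 = t * (2 - t) := by ring
  have e2 : (1 : ℝ) - (1 - Y) ^ 2 = Y * (2 - Y) := by ring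
  have e3 : (1 : ℝ) - (1 - t) = t := by ring
  rw [e1, e2, e3] at h4
  have h5 : t * (2 - t) / (Y * (2 - Y)) ≤ 1 := by
    have hden : 0 < Y * (2 - Y) := mul_pos hY (by linarith)
    rw [div_le_one hden]
    calc t * (2 - t) ≤ t * 2 := mul_le_mul_of_nonneg_left (by linarith) ht0.le
      _ ≤ Y * 1 := by linarith
      _ ≤ Y * (2 - Y) := mul_le_mul_of_nonneg_left (by linarith) hY.le
  have h5' : 0 ≤ t * (2 - t) / (Y * (2 - Y)) :=
    div_nonneg (mul_nonneg ht0.le (by linarith)) (mul_nonneg hY.le (by linarith))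
  have h6 : ‖z - pt Y θ‖ / t ≤ 21 * q := by
    rw [div_le_iff₀ ht0]
    have h61 : Y = q * y := by rw [← hq]; field_simp
    calc ‖z - pt Y θ‖ ≤ 21 * Y := h3
      _ = 21 * q * y := by rw [h61]; ring
      _ ≤ 21 * q * t := mul_le_mul_of_nonneg_left hty (by linarith)
  have h8 : 0 ≤ ‖z - pt Y θ‖ / t := div_nonneg (norm_nonneg _) ht0.le
  have h9 : (1 + ‖z - pt Y θ‖ / t) ^ 2 ≤ (22 * q) ^ 2 := by
    apply pow_le_pow_left₀ (by linarith)
    linarith
  have hvw : 0 ≤ vv U (pt Y θ) := vv_nonneg U (by rw [hw]; linarith)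
  calc vv U z ≤ t * (2 - t) / (Y * (2 - Y)) * (1 + ‖z - pt Y θ‖ / t) ^ 2 * vv U (pt Y θ) := h4
    _ ≤ 1 * (22 * q) ^ 2 * B := by
        apply mul_le_mul _ hvv hvw (by positivity)
        exact mul_le_mul h5 h9 (by positivity) (by norm_num)
    _ = (22 * q) ^ 2 * B := by ring

/-- points of the discs -/
lemma disc {Y y R : ℝ} {θ ψ : Ci} {z : ℂ} (hY : 0 < Y) (hY2 : Y ≤ 1 / 2) (hy : 0 < y)
    (hyR : y ≤ R / 162) (hR : R ≤ Y / 128) (h1 : ‖ze ψ - ze θ‖ ≤ 6 * Real.pi * Y)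
    (h2 : ‖z - pt (y + R) ψ‖ ≤ R) :
    1 - 4 * R ≤ ‖z‖ ∧ ‖z‖ ≤ 1 - y ∧ ‖z - pt Y θ‖ ≤ 21 * Y := by
  have hp : ‖pt (y + R) ψ‖ = 1 - (y + R) := norm_pt (by linarith) ψ
  have h3 : ‖z‖ ≤ ‖pt (y + R) ψ‖ + ‖z - pt (y + R) ψ‖ := by
    have := norm_add_le (pt (y + R) ψ) (z - pt (y + R) ψ)
    rwa [add_sub_cancel] at this
  have h4 : ‖pt (y + R) ψ‖ ≤ ‖z‖ + ‖z - pt (y + R) ψ‖ := by
    have := norm_sub_le z (z - pt (y + R) ψ)
    rwa [sub_sub_cancel] at this
  refine ⟨by linarith, by linarith, ?_⟩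
  have e : z - pt Y θ = (z - pt (y + R) ψ) + (pt (y + R) ψ - pt (y + R) θ) +
      (pt (y + R) θ - pt Y θ) := by ring
  rw [e]
  refine (norm_add₃_le).trans ?_
  have h5 := pt_sub_pt (a := y + R) (by linarith) (by linarith) ψ θ
  have h6 : ‖pt (y + R) θ - pt Y θ‖ ≤ Y := by
    rw [pt_sub_same, abs_of_nonpos (by linarith)]; linarith
  have hpi4 : Real.pi ≤ 3.15 := Real.pi_lt_d2.le
  have h7 : 6 * Real.pi * Y ≤ 18.9 * Y := by
    apply mul_le_mul_of_nonneg_right _ hY.le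
    linarith
  linarith

/-- the first disc: the distance of the far points of the disc from the point over the arc -/
lemma near_pt {y R : ℝ} {φ ξ : Ci} (hR : 0 < R) (hξ : ξ ∈ closedBall φ (y / (2 * Real.pi * R))) :
    ‖pt (y + R) φ + R * ze ξ - pt y φ‖ ≤ y := by
  obtain ⟨x', hx', hxd'⟩ := exists_diff φ ξ
  rw [mem_closedBall, dist_comm, ← hxd'] at hξ
  have hpi := Real.pi_pos
  have e1 : pt (y + R) φ + R * ze ξ - pt y φ = R * (ze ξ - ze φ) := by
    unfold pt; push_cast; ring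
  rw [e1, norm_mul, Complex.norm_real, Real.norm_of_nonneg hR.le]
  have h1 := ze_add_sub φ x'
  rw [hx'] at h1
  calc R * ‖ze ξ - ze φ‖ ≤ R * (2 * Real.pi * |x'|) := mul_le_mul_of_nonneg_left h1 hR.le
    _ ≤ R * (2 * Real.pi * (y / (2 * Real.pi * R))) := by
        apply mul_le_mul_of_nonneg_left _ hR.le
        apply mul_le_mul_of_nonneg_left hξ (by positivity)
    _ = y := by field_simp

/-- the exponent of `SMALL` -/
lemma expo {y η lam τ h mK t ω : ℝ} (hη : 0 < η) (hlam : 0 < lam) (hτ : 0 ≤ τ)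
    (hm : 0 ≤ mK) (hy : y = lam / 5184 * η * h) (hmK : h * mK ≤ τ) (ht : t ≤ 2 * y)
    (hω : η / 81 ≤ ω) :
    1 + 2 * mK * t - ω * (lam / 8 * τ) ≤ 1 - η * τ * lam / 1296 := by
  have h11 : 2 * mK * t ≤ 2 * mK * (2 * y) := mul_le_mul_of_nonneg_left ht (by linarith)
  have h12 : 2 * mK * (2 * y) = lam * η / 1296 * (h * mK) := by rw [hy]; ring
  have h13 : lam * η / 1296 * (h * mK) ≤ lam * η / 1296 * τ :=
    mul_le_mul_of_nonneg_left hmK (by positivity)
  have h2 : η / 81 * (lam / 8 * τ) ≤ ω * (lam / 8 * τ) :=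
    mul_le_mul_of_nonneg_right hω (by positivity)
  have h3 : η / 81 * (lam / 8 * τ) = lam * η / 1296 * τ + lam * η / 1296 * τ := by ring
  have h4 : η * τ * lam / 1296 = lam * η / 1296 * τ := by ring
  linarith

/-- the logarithms -/
lemma logs {κ η lam τ Cb D2 B V b e e0 : ℝ} (hκ0 : 0 < κ) (hκ1 : κ ≤ 1) (hη : 0 < η) (hη1 : η ≤ 1)
    (hlam : 0 < lam) (hCb : 1 ≤ Cb) (hD2 : 1 ≤ D2) (hB : 1 ≤ B) (hV0 : 0 ≤ V)
    (hVB : V + B ≤ D2 * (B * (1 / η ^ 2))) (hb : b = Cb * (V + B)) (he0 : 0 < e) (hee : e ≤ e0)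
    (hdef : e0 = Real.exp (1 - η * τ * lam / 1296) * (1 + V)) :
    Real.log b - κ * η * (Real.log b - Real.log e) ≤
      -(κ * lam / 1296 * η ^ 2 * τ) + (5 + Real.log Cb + 2 * Real.log D2) *
        (Real.log B + Real.log (1 / η) + 1) := by
  have hb1 : 1 ≤ b := by
    rw [hb]
    have : 1 ≤ V + B := by linarith
    calc (1 : ℝ) = 1 * 1 := by ring
      _ ≤ Cb * (V + B) := mul_le_mul hCb this (by norm_num) (by linarith)
  have hlogb0 : 0 ≤ Real.log b := Real.log_nonneg hb1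
  have hloge : Real.log e ≤ Real.log e0 := Real.log_le_log he0 hee
  have hloge0 : Real.log e0 = 1 - η * τ * lam / 1296 + Real.log (1 + V) := by
    rw [hdef, Real.log_mul (Real.exp_pos _).ne' (by linarith), Real.log_exp]
  have hlog1V : 0 ≤ Real.log (1 + V) := Real.log_nonneg (by linarith)
  have hκη : κ * η ≤ 1 := mul_le_one₀ hκ1 hη.le hη1
  have hκη0 : 0 < κ * η := by positivity
  have h1V : 1 + V ≤ D2 * (B * (1 / η ^ 2)) := by linarith
  have hlogX : Real.log (D2 * (B * (1 / η ^ 2))) =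
      Real.log D2 + Real.log B + 2 * Real.log (1 / η) := by
    rw [Real.log_mul (by positivity) (by positivity), Real.log_mul (by positivity) (by positivity)]
    have : (1 : ℝ) / η ^ 2 = (1 / η) ^ 2 := by field_simp
    rw [this, Real.log_pow]
    push_cast
    ring
  have hlogV : Real.log (1 + V) ≤ Real.log D2 + Real.log B + 2 * Real.log (1 / η) := by
    rw [← hlogX]
    exact Real.log_le_log (by linarith) h1V
  have hlogbb : Real.log b ≤ Real.log Cb + (Real.log D2 + Real.log B + 2 * Real.log (1 / η)) := by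
    rw [← hlogX, ← Real.log_mul (by positivity) (by positivity)]
    apply Real.log_le_log (by linarith)
    rw [hb]
    exact mul_le_mul_of_nonneg_left hVB (by linarith)
  have hlogB : 0 ≤ Real.log B := Real.log_nonneg hB
  have hlogD2 : 0 ≤ Real.log D2 := Real.log_nonneg hD2
  have hlogCb : 0 ≤ Real.log Cb := Real.log_nonneg hCb
  have hlogη : 0 ≤ Real.log (1 / η) := Real.log_nonneg (by rw [le_div_iff₀ hη]; linarith)
  have h1 : κ * η * Real.log e ≤ κ * η * (1 - η * τ * lam / 1296 + Real.log (1 + V)) := by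
    rw [← hloge0]
    exact mul_le_mul_of_nonneg_left hloge hκη0.le
  have h2 : κ * η * (1 + Real.log (1 + V)) ≤ 1 * (1 + Real.log (1 + V)) :=
    mul_le_mul_of_nonneg_right hκη (by linarith)
  have h3 : 0 ≤ κ * η * Real.log b := by positivity
  have h4 : κ * η * (η * τ * lam / 1296) = κ * lam / 1296 * η ^ 2 * τ := by ring
  have h6 : 0 ≤ (Real.log Cb + 2 * Real.log D2) * (Real.log B + Real.log (1 / η)) :=
    mul_nonneg (by linarith) (by linarith)
  have h7 : (5 + Real.log Cb + 2 * Real.log D2) * (Real.log B + Real.log (1 / η) + 1) =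
      5 * (Real.log B + Real.log (1 / η) + 1) + (Real.log Cb + 2 * Real.log D2) +
      (Real.log Cb + 2 * Real.log D2) * (Real.log B + Real.log (1 / η)) := by ring
  have h8 : Real.log b - κ * η * (Real.log b - Real.log e) =
      Real.log b - κ * η * Real.log b + κ * η * Real.log e := by ring
  have h9 : κ * η * (1 - η * τ * lam / 1296 + Real.log (1 + V)) =
      κ * η * (1 + Real.log (1 + V)) - κ * lam / 1296 * η ^ 2 * τ := by rw [← h4]; ring
  rw [h7, h8]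
  linarith

end Cor

end Pool.Agent.K9h98.HLp
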