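import Pool.Agent.K9h98.HLp.Stm

/-!
# MP_5bfbcb, Q2, leaf DENSE (helper71)
-/

set_option autoImplicit false

namespace Pool.Agent.K9h98.HLp

open MeasureTheory AddCircle Complex Set Filter Topology Metric
open Pool.Agent.W767.HL

namespace DenseA

lemma mu_vol : (mu : Measure Ci) = volume := by
  rw [volume_eq_smul_haarAddCircle]
  simp

lemma mu_ball (φ : Ci) (y : ℝ) (hy : 0 ≤ y) (hy2 : y ≤ 1 / 2) : mu.real (closedBall φ y) = 2 * y := by
  rw [mu_vol, measureReal_def, AddCircle.volume_closedBall, min_eq_right (by linarith),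
    ENNReal.toReal_ofReal (by linarith)]

lemma norm_pt {h : ℝ} (h1 : h ≤ 1) (θ : Ci) : ‖pt h θ‖ = 1 - h := by
  unfold pt
  rw [norm_mul, norm_ze, mul_one, Complex.norm_real, Real.norm_of_nonneg (by linarith)]

/-- the distance to the point of the circle at the distance `u` -/
lemma dist_lb {h : ℝ} (h0 : 0 ≤ h) (h1 : h ≤ 1) (θ : Ci) (u : ℝ) (hu : |u| ≤ 1 / 2) :
    16 * (1 - h) * u ^ 2 ≤ ‖ze (θ + (u : Ci)) - pt h θ‖ ^ 2 := by
  have e1 : ze (θ + (u : Ci)) = ze θ * ze (u : Ci) := by
    rw [ze, ze, ze, fourier_one, fourier_one, fourier_one, AddCircle.toCircle_add, Circle.coe_mul]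
  have e2 : ze (θ + (u : Ci)) - pt h θ = ze θ * (ze (u : Ci) - ((1 - h : ℝ) : ℂ)) := by
    rw [e1]
    unfold pt
    ring
  rw [e2, norm_mul, norm_ze, one_mul]
  have e3 : ze (u : Ci) = Complex.exp (((2 * Real.pi * u : ℝ) : ℂ) * Complex.I) := by
    rw [ze_coe]
    congr 1
    push_cast
    ring
  have e4 : ‖ze (u : Ci) - ((1 - h : ℝ) : ℂ)‖ ^ 2 = h ^ 2 + 4 * (1 - h) * Real.sin (Real.pi * u) ^ 2 := by
    rw [e3, ← Complex.normSq_eq_norm_sq, Complex.normSq_apply]
    have r1 : (Complex.exp (((2 * Real.pi * u : ℝ) : ℂ) * Complex.I) - ((1 - h : ℝ) : ℂ)).re =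
        Real.cos (2 * Real.pi * u) - (1 - h) := by
      rw [Complex.sub_re, Complex.exp_ofReal_mul_I_re, Complex.ofReal_re]
    have r2 : (Complex.exp (((2 * Real.pi * u : ℝ) : ℂ) * Complex.I) - ((1 - h : ℝ) : ℂ)).im =
        Real.sin (2 * Real.pi * u) := by
      rw [Complex.sub_im, Complex.exp_ofReal_mul_I_im, Complex.ofReal_im, sub_zero]
    rw [r1, r2]
    have r3 : 2 * Real.pi * u = 2 * (Real.pi * u) := by ring
    have r4 := Real.sin_sq_add_cos_sq (2 * (Real.pi * u))
    have r5 := Real.cos_two_mul (Real.pi * u)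
    have r6 := Real.sin_sq_add_cos_sq (Real.pi * u)
    rw [r3]
    nlinarith
  rw [e4]
  have hs : 4 * u ^ 2 ≤ Real.sin (Real.pi * u) ^ 2 := by
    have key : ∀ v : ℝ, 0 ≤ v → v ≤ 1 / 2 → 2 * v ≤ Real.sin (Real.pi * v) := by
      intro v hv hv2
      have := Real.mul_le_sin (x := Real.pi * v) (by positivity) (by nlinarith [Real.pi_pos])
      have e : 2 / Real.pi * (Real.pi * v) = 2 * v := by
        field_simp
      rwa [e] at this
    rcases le_total 0 u with h2 | h2
    · have h3 := key u h2 (by rwa [abs_of_nonneg h2] at hu)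
      nlinarith
    · have h3 := key (-u) (by linarith) (by rwa [abs_of_nonpos h2] at hu)
      have e : Real.sin (Real.pi * -u) = - Real.sin (Real.pi * u) := by
        rw [mul_neg, Real.sin_neg]
      rw [e] at h3
      nlinarith
  nlinarith [mul_le_mul_of_nonneg_left hs (show (0 : ℝ) ≤ 4 * (1 - h) by linarith), sq_nonneg h]

end DenseA

open DenseA in
theorem dense_all : S_DENSE := by
  intro δ Y θ E hδ hδ2 hY hY2 hE hden
  have hh0 : 0 < δ * Y := by positivity
  have hh1 : δ * Y ≤ 1 / 4 := by nlinarith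
  have hw : ‖pt (δ * Y) θ‖ = 1 - δ * Y := norm_pt (by linarith) θ
  have hw1 : ‖pt (δ * Y) θ‖ < 1 := by rw [hw]; linarith
  set f : Ci → ℝ := P (pt (δ * Y) θ) with hf
  have hfc : Continuous f := continuous_P hw1
  have hfi : Integrable f mu := integrable_of_cont hfc
  have hf0 : ∀ φ, 0 < f φ := fun φ => P_pos hw1 φ
  have hfle : ∀ φ, f φ ≤ 2 / (δ * Y) := fun φ => by
    have := P_le hw1 φ
    rw [hw] at this
    have e : 1 - (1 - δ * Y) = δ * Y := by ring
    rwa [e] at this
  -- the complement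
  have h1 : ∫ φ in E, f φ ∂mu = 1 - ∫ φ in Eᶜ, f φ ∂mu := by
    have := integral_add_compl hE hfi
    rw [integral_P hw1] at this
    linarith
  set A : Set Ci := closedBall θ Y with hA
  have hAm : MeasurableSet A := isClosed_closedBall.measurableSet
  -- the near part
  have h2 : ∫ φ in A \ E, f φ ∂mu ≤ δ / 2 := by
    have m1 : mu.real (A \ E) ≤ δ ^ 2 * Y / 4 := by
      have e1 : mu.real (A ∩ E) + mu.real (A \ E) = mu.real A := measureReal_inter_add_sdiff hE
      rw [hA, mu_ball θ Y hY.le hY2] at e1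
      rw [inter_comm] at hden
      rw [hA]
      linarith
    calc ∫ φ in A \ E, f φ ∂mu ≤ ∫ _φ in A \ E, 2 / (δ * Y) ∂mu :=
          setIntegral_mono hfi.integrableOn (integrableOn_const (by finiteness)) hfle
      _ = mu.real (A \ E) * (2 / (δ * Y)) := by
          rw [setIntegral_const, smul_eq_mul]
      _ ≤ δ ^ 2 * Y / 4 * (2 / (δ * Y)) := mul_le_mul_of_nonneg_right m1 (by positivity)
      _ = δ / 2 := by
          field_simp
          ring
  -- the far part
  have h3 : ∫ φ in Aᶜ, f φ ∂mu ≤ δ / 3 := by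
    obtain ⟨x₀, rfl⟩ : ∃ x₀ : ℝ, (x₀ : Ci) = θ := QuotientAddGroup.mk_surjective θ
    set g : ℝ → ℝ := fun u => (Aᶜ).indicator f ((x₀ : Ci) + (u : Ci)) with hg
    have e1 : ∫ φ in Aᶜ, f φ ∂mu = ∫ u in (-(1 / 2) : ℝ)..(1 / 2), g u := by
      rw [← integral_indicator hAm.compl, mu_vol,
        ← UnitAddCircle.intervalIntegral_preimage (x₀ - 1 / 2)]
      have := intervalIntegral.integral_comp_add_left (a := -(1 / 2)) (b := 1 / 2)
        (fun x : ℝ => (Aᶜ).indicator f ((x : ℝ) : Ci)) x₀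
      have e2 : x₀ + -(1 / 2) = x₀ - 1 / 2 := by ring
      have e3 : x₀ + 1 / 2 = x₀ - 1 / 2 + 1 := by ring
      rw [e2, e3] at this
      rw [← this]
      refine intervalIntegral.integral_congr fun u _ => ?_
      simp only [hg, AddCircle.coe_add]
    have hgm : Measurable g := by
      rw [hg]
      refine Measurable.comp ((hfc.measurable).indicator hAm.compl) ?_
      exact measurable_const.add (AddCircle.measurable_mk')
    have hg0 : ∀ u, 0 ≤ g u := fun u => indicator_nonneg (fun φ _ => (hf0 φ).le) _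
    have hgle : ∀ u, g u ≤ 2 / (δ * Y) := by
      intro u
      by_cases hu : ((x₀ : Ci) + (u : Ci)) ∈ Aᶜ
      · simp only [hg, indicator_of_mem hu]
        exact hfle _
      · simp only [hg, indicator_of_notMem hu]
        positivity
    have hgi : ∀ a b : ℝ, IntervalIntegrable g volume a b := by
      intro a b
      refine (intervalIntegrable_const (c := 2 / (δ * Y))).mono_fun hgm.aestronglyMeasurable ?_
      refine Eventually.of_forall fun u => ?_
      show ‖g u‖ ≤ ‖2 / (δ * Y)‖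
      rw [Real.norm_of_nonneg (hg0 u), Real.norm_of_nonneg (by positivity)]
      exact hgle u
    have hgin : ∀ u, |u| ≤ Y → g u = 0 := by
      intro u hu
      have : ((x₀ : Ci) + (u : Ci)) ∉ Aᶜ := by
        rw [mem_compl_iff, not_not, hA, mem_closedBall, dist_eq_norm, add_sub_cancel_left]
        rw [(AddCircle.norm_coe_eq_abs_iff (p := (1 : ℝ)) one_ne_zero).2 (by
          rw [abs_one]; linarith)]
        exact hu
      simp only [hg, indicator_of_notMem this]
    have hgout : ∀ u, Y ≤ |u| → |u| ≤ 1 / 2 → g u ≤ δ * Y / 6 * u ^ (-2 : ℤ) := by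
      intro u hu hu2
      have hu0 : 0 < |u| := hY.trans_le hu
      have hun : u ≠ 0 := abs_pos.1 hu0
      have hu2' : 0 < u ^ 2 := by positivity
      have hr : 0 ≤ δ * Y / 6 * u ^ (-2 : ℤ) := by
        have : u ^ (-2 : ℤ) = (u ^ 2)⁻¹ := by
          rw [zpow_neg]; norm_cast
        rw [this]
        positivity
      by_cases hm : ((x₀ : Ci) + (u : Ci)) ∈ Aᶜ
      · simp only [hg, indicator_of_mem hm]
        have hd := dist_lb hh0.le (by linarith) (x₀ : Ci) u hu2
        simp only [hf]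
        unfold P
        rw [hw]
        have e : u ^ (-2 : ℤ) = (u ^ 2)⁻¹ := by
          rw [zpow_neg]; norm_cast
        rw [e]
        have h4 : 0 < ‖ze ((x₀ : Ci) + (u : Ci)) - pt (δ * Y) (x₀ : Ci)‖ ^ 2 := by
          refine lt_of_lt_of_le ?_ hd
          have : 0 < 1 - δ * Y := by linarith
          positivity
        rw [div_le_iff₀ h4]
        have h5 : 12 * u ^ 2 ≤ ‖ze ((x₀ : Ci) + (u : Ci)) - pt (δ * Y) (x₀ : Ci)‖ ^ 2 := by
          nlinarith
        calc 1 - (1 - δ * Y) ^ 2 ≤ 2 * (δ * Y) := by nlinarith [sq_nonneg (δ * Y)]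
          _ = δ * Y / 6 * (u ^ 2)⁻¹ * (12 * u ^ 2) := by
              field_simp
              ring
          _ ≤ _ := mul_le_mul_of_nonneg_left h5 (by positivity)
      · simp only [hg, indicator_of_notMem hm]
        exact hr
    rw [e1]
    have s1 : ∫ u in (-(1 / 2) : ℝ)..(1 / 2), g u = (∫ u in (-(1 / 2) : ℝ)..(-Y), g u) +
        (∫ u in (-Y)..Y, g u) + ∫ u in Y..(1 / 2), g u := by
      rw [intervalIntegral.integral_add_adjacent_intervals (hgi _ _) (hgi _ _),
        intervalIntegral.integral_add_adjacent_intervals (hgi _ _) (hgi _ _)]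
    have s2 : ∫ u in (-Y)..Y, g u = 0 := by
      rw [intervalIntegral.integral_congr (g := fun _ => (0 : ℝ)) fun u hu => ?_]
      · simp
      · rw [uIcc_of_le (by linarith)] at hu
        exact hgin u (abs_le.2 hu)
    have zi : ∀ a b : ℝ, (0 : ℝ) ∉ uIcc a b →
        ∫ u in a..b, δ * Y / 6 * u ^ (-2 : ℤ) = δ * Y / 6 * (a⁻¹ - b⁻¹) := by
      intro a b hab
      rw [intervalIntegral.integral_const_mul, integral_zpow (Or.inr ⟨by norm_num, hab⟩)]
      congr 1
      norm_num
      ring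
    have zii : ∀ a b : ℝ, (0 : ℝ) ∉ uIcc a b →
        IntervalIntegrable (fun u : ℝ => δ * Y / 6 * u ^ (-2 : ℤ)) volume a b := by
      intro a b hab
      exact (intervalIntegral.intervalIntegrable_zpow (Or.inr hab)).const_mul _
    have n1 : (0 : ℝ) ∉ uIcc Y (1 / 2) := by
      rw [uIcc_of_le hY2]
      intro h
      linarith [h.1]
    have n2 : (0 : ℝ) ∉ uIcc (-(1 / 2)) (-Y) := by
      rw [uIcc_of_le (by linarith)]
      intro h
      linarith [h.2]
    have s3 : ∫ u in Y..(1 / 2), g u ≤ δ / 6 := by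
      calc ∫ u in Y..(1 / 2), g u ≤ ∫ u in Y..(1 / 2), δ * Y / 6 * u ^ (-2 : ℤ) := by
            refine intervalIntegral.integral_mono_on hY2 (hgi _ _) (zii _ _ n1) fun u hu => ?_
            have : |u| = u := abs_of_nonneg (by linarith [hu.1])
            exact hgout u (by rw [this]; exact hu.1) (by rw [this]; exact hu.2)
        _ = δ * Y / 6 * (Y⁻¹ - (1 / 2)⁻¹) := zi _ _ n1
        _ ≤ δ * Y / 6 * Y⁻¹ := mul_le_mul_of_nonneg_left (by norm_num) (by positivity)
        _ = δ / 6 := by field_simp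
    have s4 : ∫ u in (-(1 / 2) : ℝ)..(-Y), g u ≤ δ / 6 := by
      calc ∫ u in (-(1 / 2) : ℝ)..(-Y), g u ≤ ∫ u in (-(1 / 2) : ℝ)..(-Y), δ * Y / 6 * u ^ (-2 : ℤ) := by
            refine intervalIntegral.integral_mono_on (by linarith) (hgi _ _) (zii _ _ n2)
              fun u hu => ?_
            have : |u| = -u := abs_of_nonpos (by linarith [hu.2])
            exact hgout u (by rw [this]; linarith [hu.2]) (by rw [this]; linarith [hu.1])
        _ = δ * Y / 6 * ((-(1 / 2))⁻¹ - (-Y)⁻¹) := zi _ _ n2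
        _ ≤ δ * Y / 6 * Y⁻¹ := by
            refine mul_le_mul_of_nonneg_left ?_ (by positivity)
            rw [inv_neg, inv_neg]
            norm_num
        _ = δ / 6 := by field_simp
    rw [s1, s2]
    linarith
  -- together
  have h4 : ∫ φ in Eᶜ, f φ ∂mu ≤ (∫ φ in A \ E, f φ ∂mu) + ∫ φ in Aᶜ, f φ ∂mu := by
    have hd : Disjoint (A \ E) Aᶜ := by
      rw [Set.disjoint_left]
      intro x hx hx'
      exact hx' hx.1
    rw [← setIntegral_union hd hAm.compl hfi.integrableOn hfi.integrableOn]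
    refine setIntegral_mono_set hfi.integrableOn (Eventually.of_forall fun φ => (hf0 φ).le) ?_
    refine HasSubset.Subset.eventuallyLE ?_
    intro x hx
    by_cases hxA : x ∈ A
    · exact Or.inl ⟨hxA, hx⟩
    · exact Or.inr hxA
  rw [h1]
  linarith

end Pool.Agent.K9h98.HLp
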