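import Pool.Agent.K9h98.HLp.Fub

/-!
# Density points (for the step of MP_5bfbcb, Q2)
-/

set_option autoImplicit false

namespace Pool.Agent.K9h98.HLp

open MeasureTheory AddCircle Complex Set Filter Topology Metric
open Pool.Agent.W767.HL

noncomputable section

lemma vol_eq_mu : (volume : Measure Ci) = haarAddCircle := by
  rw [volume_eq_smul_haarAddCircle]
  simp

lemma mu_closedBall {φ : Ci} {y : ℝ} (hy : 0 ≤ y) (hy2 : y ≤ 1 / 2) :
    mu (closedBall φ y) = ENNReal.ofReal (2 * y) := by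
  have h2 := AddCircle.volume_closedBall (1 : ℝ) (x := φ) y
  rw [vol_eq_mu] at h2
  rw [h2, min_eq_right (by linarith)]

/-- The points at which `F` is dense at scale `y`. -/
def Dn (F : Set Ci) (δ y : ℝ) : Set Ci :=
  {θ | (1 - δ) * (2 * y) ≤ mu.real (F ∩ closedBall θ y)}

lemma measurableSet_Dn {F : Set Ci} (hF : MeasurableSet F) (δ y : ℝ) :
    MeasurableSet (Dn F δ y) :=
  measurableSet_le measurable_const (fub_all.2.1 F y hF)

/-- Lebesgue's density theorem: a set of positive measure is dense at small scales around half of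
its points. -/
theorem exists_dense_scale {F : Set Ci} (hF : MeasurableSet F) (hpos : 0 < mu.real F) {δ : ℝ}
    (hδ : 0 < δ) :
    ∃ N : ℕ, ∀ n : ℕ, N ≤ n → mu.real F / 2 ≤ mu.real (Dn F δ ((1 / 2) ^ (n + 1))) := by
  have hae := IsUnifLocDoublingMeasure.ae_tendsto_measure_inter_div (volume : Measure Ci) F 1
  rw [vol_eq_mu] at hae
  have hlim : Tendsto (fun n : ℕ => ((1 / 2 : ℝ)) ^ (n + 1)) atTop (𝓝[>] 0) := by
    rw [tendsto_nhdsWithin_iff]
    refine ⟨(tendsto_pow_atTop_nhds_zero_of_lt_one (by norm_num) (by norm_num)).comp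
      (tendsto_add_atTop_nat 1), Filter.Eventually.of_forall fun n => ?_⟩
    simp only [mem_Ioi]
    positivity
  set S : ℕ → Set Ci := fun N => {θ | θ ∈ F ∧ ∀ n, N ≤ n → θ ∈ Dn F δ ((1 / 2) ^ (n + 1))} with hS
  have hmono : Monotone S := by
    intro a b hab θ hθ
    exact ⟨hθ.1, fun n hn => hθ.2 n (hab.trans hn)⟩
  have hsub : ∀ᵐ θ ∂(mu.restrict F), θ ∈ F → θ ∈ ⋃ N, S N := by
    filter_upwards [hae] with θ hθ hθF
    have h1 := hθ (ι := ℕ) (l := atTop) (fun _ => θ) (fun n => (1 / 2 : ℝ) ^ (n + 1)) hlim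
      (Filter.Eventually.of_forall fun n => by
        rw [mem_closedBall, dist_self]
        positivity)
    have h2 : ∀ᶠ n : ℕ in atTop, ENNReal.ofReal (1 - δ) <
        mu (F ∩ closedBall θ ((1 / 2) ^ (n + 1))) / mu (closedBall θ ((1 / 2) ^ (n + 1))) := by
      refine h1.eventually_const_lt ?_
      rw [← ENNReal.ofReal_one, ENNReal.ofReal_lt_ofReal_iff one_pos]
      linarith
    obtain ⟨N, hN⟩ := eventually_atTop.mp h2
    refine mem_iUnion.mpr ⟨N, hθF, fun n hn => ?_⟩
    have h3 := hN n hn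
    have hy0 : 0 < (1 / 2 : ℝ) ^ (n + 1) := by positivity
    have hy1 : (1 / 2 : ℝ) ^ (n + 1) ≤ 1 / 2 := by
      rw [pow_succ]
      have : (1 / 2 : ℝ) ^ n ≤ 1 := pow_le_one₀ (by norm_num) (by norm_num)
      linarith
    rw [mu_closedBall hy0.le hy1] at h3
    have h4 : ENNReal.ofReal (1 - δ) * ENNReal.ofReal (2 * (1 / 2) ^ (n + 1))
        ≤ mu (F ∩ closedBall θ ((1 / 2) ^ (n + 1))) := by
      have h5 := h3.le
      rw [ENNReal.le_div_iff_mul_le (Or.inl (by positivity)) (Or.inl ENNReal.ofReal_ne_top)] at h5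
      exact h5
    by_cases hd : 1 - δ ≤ 0
    · show (1 - δ) * (2 * (1 / 2) ^ (n + 1)) ≤ _
      have h6 : (1 - δ) * (2 * (1 / 2) ^ (n + 1)) ≤ 0 :=
        mul_nonpos_of_nonpos_of_nonneg hd (by positivity)
      exact h6.trans measureReal_nonneg
    · rw [not_le] at hd
      show (1 - δ) * (2 * (1 / 2) ^ (n + 1)) ≤ _
      rw [← ENNReal.ofReal_mul hd.le] at h4
      exact (ENNReal.ofReal_le_iff_le_toReal (measure_ne_top _ _)).mp h4
  have hge : mu F ≤ mu (⋃ N, S N) := by
    have h1 : ∀ᵐ θ ∂mu, θ ∈ F → θ ∈ ⋃ N, S N := by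
      have h2 := (ae_restrict_iff' hF).mp hsub
      filter_upwards [h2] with θ h3 h4 using h3 h4 h4
    exact measure_mono_ae h1
  have ht := tendsto_measure_iUnion_atTop (μ := (mu : Measure Ci)) hmono
  have hpos' : mu F ≠ 0 := by
    intro h0
    rw [Measure.real, h0] at hpos
    simp at hpos
  have hhalf : mu F / 2 < mu (⋃ N, S N) :=
    (ENNReal.half_lt_self hpos' (measure_ne_top _ _)).trans_le hge
  obtain ⟨N, hN⟩ := (ht.eventually_const_lt hhalf).exists
  refine ⟨N, fun n hn => ?_⟩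
  have h1 : mu F / 2 ≤ mu (Dn F δ ((1 / 2) ^ (n + 1))) := by
    refine (le_of_lt hN).trans ?_
    exact measure_mono fun θ hθ => hθ.2 n hn
  have h2 := ENNReal.toReal_mono (measure_ne_top _ _) h1
  rw [ENNReal.toReal_div] at h2
  simpa [Measure.real] using h2

end

end Pool.Agent.K9h98.HLp
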