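import Pool.Agent.K9h98.HLp.Denspt

/-!
# Averaging: a set which has a positive proportion of an arc has a positive proportion of a small
arc (for the step of MP_5bfbcb, Q2)
-/

set_option autoImplicit false

namespace Pool.Agent.K9h98.HLp

open MeasureTheory AddCircle Complex Set Filter Topology Metric
open Pool.Agent.W767.HL

noncomputable section

lemma real_closedBall_le {φ : Ci} {y : ℝ} (hy : 0 ≤ y) : mu.real (closedBall φ y) ≤ 2 * y := by
  have h2 := AddCircle.volume_closedBall (1 : ℝ) (x := φ) y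
  rw [vol_eq_mu] at h2
  rw [Measure.real, h2, ENNReal.toReal_ofReal (le_min zero_le_one (by linarith))]
  exact min_le_right _ _

lemma integrable_inter {E : Set Ci} (hE : MeasurableSet E) (y : ℝ) :
    Integrable (fun φ : Ci => mu.real (E ∩ closedBall φ y)) mu := by
  refine (integrable_const (1 : ℝ)).mono' (fub_all.2.1 E y hE).aestronglyMeasurable
    (Filter.Eventually.of_forall fun φ => ?_)
  rw [Real.norm_of_nonneg measureReal_nonneg]
  exact measureReal_le_one

/-- Some small arc contains a large part of `E`. -/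
theorem exphi {E : Set Ci} (hE : MeasurableSet E) {Y y η : ℝ} {θ : Ci} (hy : 0 < y) (hyY : y ≤ Y)
    (hy2 : y ≤ 1 / 2) (hη : 0 ≤ η) (h : η * (4 * Y) ≤ mu.real (E ∩ closedBall θ (2 * Y))) :
    ∃ φ : Ci, dist φ θ ≤ 3 * Y ∧ η * y ≤ mu.real (E ∩ closedBall φ y) := by
  have hY : 0 < Y := hy.trans_le hyY
  set A : Set Ci := closedBall θ (2 * Y + y) with hA
  have hAm : MeasurableSet A := measurableSet_closedBall
  have hA1 : mu.real A ≤ 2 * (2 * Y + y) := real_closedBall_le (by linarith)
  have hsubB : closedBall θ y ⊆ A := closedBall_subset_closedBall (by linarith)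
  have hA0 : 0 < mu.real A := by
    have h1 := fub_all.1 θ y hy.le hy2
    have h2 : mu.real (closedBall θ y) ≤ mu.real A := measureReal_mono hsubB
    linarith
  have hAne : mu A ≠ 0 := by
    intro h0
    rw [Measure.real, h0] at hA0
    simp at hA0
  have hi := integrable_inter hE y
  obtain ⟨φ, hφ, hle⟩ := exists_setAverage_le hAne (measure_ne_top _ _) (hi.integrableOn (s := A))
  refine ⟨φ, ?_, ?_⟩
  · have := mem_closedBall.mp hφ
    linarith
  · refine le_trans ?_ hle
    rw [setAverage_eq, smul_eq_mul, inv_mul_eq_div, le_div_iff₀ hA0,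
      fub_all.2.2 A E y hAm hE]
    have hiA := integrable_inter hAm y
    have h1 : ∫ ψ in E ∩ closedBall θ (2 * Y), mu.real (A ∩ closedBall ψ y) ∂mu
        ≤ ∫ ψ in E, mu.real (A ∩ closedBall ψ y) ∂mu :=
      setIntegral_mono_set hiA.integrableOn
        (Filter.Eventually.of_forall fun ψ => measureReal_nonneg)
        (LE.le.eventuallyLE inter_subset_left)
    have h2 : ∫ ψ in E ∩ closedBall θ (2 * Y), (2 * y) ∂mu
        ≤ ∫ ψ in E ∩ closedBall θ (2 * Y), mu.real (A ∩ closedBall ψ y) ∂mu := by
      refine setIntegral_mono_on (integrable_const _).integrableOn hiA.integrableOn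
        (hE.inter measurableSet_closedBall) fun ψ hψ => ?_
      have h3 : closedBall ψ y ⊆ A := by
        intro x hx
        have h4 := mem_closedBall.mp hx
        have h5 := mem_closedBall.mp hψ.2
        have h6 := dist_triangle x ψ θ
        exact mem_closedBall.mpr (by linarith)
      rw [inter_eq_right.mpr h3, fub_all.1 ψ y hy.le hy2]
    rw [setIntegral_const, smul_eq_mul] at h2
    have h3 : η * y * mu.real A ≤ η * y * (2 * (2 * Y + y)) :=
      mul_le_mul_of_nonneg_left hA1 (mul_nonneg hη hy.le)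
    have h4 : η * (4 * Y) * (2 * y) ≤ mu.real (E ∩ closedBall θ (2 * Y)) * (2 * y) :=
      mul_le_mul_of_nonneg_right h (by linarith)
    have h5 : η * y * (2 * (2 * Y + y)) ≤ η * (4 * Y) * (2 * y) := by
      have h6 : 0 ≤ η * y * (Y - y) := mul_nonneg (mul_nonneg hη hy.le) (by linarith)
      have h7 : 0 ≤ η * y * Y := mul_nonneg (mul_nonneg hη hy.le) hY.le
      nlinarith
    linarith

/-- The same on the whole circle. -/
theorem exphi0 {E : Set Ci} (hE : MeasurableSet E) {y : ℝ} (hy : 0 < y)
    (hy2 : y ≤ 1 / 2) (h : 1 / 2 ≤ mu.real E) :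
    ∃ φ : Ci, y ≤ mu.real (E ∩ closedBall φ y) := by
  obtain ⟨φ, hφ⟩ := exists_integral_le (integrable_inter hE y)
  refine ⟨φ, le_trans ?_ hφ⟩
  have h1 := fub_all.2.2 univ E y MeasurableSet.univ hE
  simp only [Measure.restrict_univ, univ_inter] at h1
  rw [h1]
  have h2 : ∫ ψ in E, mu.real (closedBall ψ y) ∂mu = ∫ ψ in E, (2 * y) ∂mu :=
    integral_congr_ae (Filter.Eventually.of_forall fun ψ => fub_all.1 ψ y hy.le hy2)
  rw [h2, setIntegral_const, smul_eq_mul]
  nlinarith

end

end Pool.Agent.K9h98.HLp
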