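import Pool.Agent.K9h98.HLp.Stm

/-!
# Leaf FIN: from Laurent polynomials to `L²` functions
-/

set_option autoImplicit false

namespace Pool.Agent.K9h98.HLp

open MeasureTheory AddCircle Complex Set Filter Topology Metric
open Pool.Agent.W767.HL

noncomputable section

/-- a nonnegative function with a quadratically decaying distribution function is integrable -/
lemma fin_layer {X : Ci → ℝ} (hX0 : ∀ θ, 0 ≤ X θ) (hXm : AEMeasurable X mu) {D T : ℝ} (hT : 0 < T)
    (hD : ∀ t, T ≤ t → mu {θ | t ≤ X θ} ≤ ENNReal.ofReal (D * t ^ (-2 : ℝ))) :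
    Integrable X mu := by
  refine ⟨hXm.aestronglyMeasurable, ?_⟩
  rw [hasFiniteIntegral_iff_ofReal (Filter.Eventually.of_forall hX0),
    lintegral_eq_lintegral_meas_le mu (Filter.Eventually.of_forall hX0) hXm]
  have hsplit : Ioi (0 : ℝ) = Ioc 0 T ∪ Ioi T := (Ioc_union_Ioi_eq_Ioi hT.le).symm
  rw [hsplit]
  refine (lintegral_union_le _ _ _).trans_lt ?_
  rw [ENNReal.add_lt_top]
  constructor
  · calc ∫⁻ t in Ioc 0 T, mu {θ | t ≤ X θ} ≤ ∫⁻ _ in Ioc 0 T, 1 :=
          lintegral_mono fun t => prob_le_one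
      _ < ⊤ := by simp
  · have hi : IntegrableOn (fun t : ℝ => D * t ^ (-2 : ℝ)) (Ioi T) :=
      (integrableOn_Ioi_rpow_of_lt (by norm_num) hT).const_mul D
    calc ∫⁻ t in Ioi T, mu {θ | t ≤ X θ} ≤ ∫⁻ t in Ioi T, ENNReal.ofReal (D * t ^ (-2 : ℝ)) :=
          setLIntegral_mono' measurableSet_Ioi fun t ht => hD t (le_of_lt ht)
      _ < ⊤ := hi.lintegral_lt_top

lemma fin_coeff {g : Lp ℂ 2 mu} (hg : g ≠ 0) : ∃ n, fourierCoeff g n ≠ 0 := by
  by_contra hcon
  push Not at hcon
  apply hg
  have h := hasSum_fourier_series_L2 g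
  simp only [hcon, zero_smul] at h
  exact h.unique hasSum_zero

lemma fin_key {m : ℕ → ℕ} {a : ℕ} {c C : ℝ} (hc : 0 < c) (hC : 1 ≤ C)
    (hind : ∀ (G : ℤ →₀ ℂ) (M Γ τ : ℝ), HL m G → 0 < M → 2 ≤ Γ → nrm G ≤ Γ →
      M ≤ mu.real (Sm G τ) → 0 ≤ τ →
      ∀ n : ℤ, ‖G n‖ ≤ Real.exp (-(c * M ^ a * τ) +
        C * (1 / M) ^ a * (Real.log Γ + Real.log (1 / M) + n.natAbs + 1)))
    {g : Lp ℂ 2 mu}
    (hgap : ∀ j, 1 ≤ j → ∀ n : ℤ, -(m j : ℤ) < n → n < -(m (j - 1) : ℤ) → fourierCoeff g n = 0)
    {n0 : ℤ} (hn0 : fourierCoeff g n0 ≠ 0) :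
    ∃ D : ℝ, 0 ≤ D ∧ ∀ u : ℝ, 1 ≤ u →
      (mu.real {θ | ‖g θ‖ ≤ Real.exp (-u)} / 2) ^ (2 * a + 1) * (u - 1) ≤ D := by
  have hgi : Integrable (g : Ci → ℂ) mu := (Lp.memLp g).integrable (by norm_num)
  set A := ∫ θ, ‖g θ‖ ∂mu with hA
  have hA0 : 0 ≤ A := integral_nonneg fun _ => norm_nonneg _
  set Γ := A + 3 with hΓ
  set κ := ‖fourierCoeff g n0‖ with hκ
  have hκ0 : 0 < κ := norm_pos_iff.2 hn0
  have hlΓ : 0 ≤ Real.log Γ := Real.log_nonneg (by rw [hΓ]; linarith)
  set D0 := C * (Real.log Γ + n0.natAbs + 2) + |Real.log κ| with hD0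
  have hD0' : 0 ≤ D0 := by positivity
  refine ⟨D0 / c, by positivity, fun u hu => ?_⟩
  set E : Set Ci := {θ | ‖g θ‖ ≤ Real.exp (-u)} with hE
  set M := mu.real E / 2 with hM
  have hM0 : 0 ≤ M := by rw [hM]; positivity
  rcases hM0.eq_or_lt with h0 | hMpos
  · rw [← h0, zero_pow (by omega), zero_mul]
    positivity
  have hM1 : M ≤ 1 / 2 := by
    have : mu.real E ≤ 1 := measureReal_le_one
    rw [hM]; linarith
  -- choose a truncation
  have hlim := trunc_tendsto g
  have ev1 := hlim.eventually_le_const (show (0 : ℝ) < 1 by norm_num)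
  have ev2 := hlim.eventually_le_const (show (0 : ℝ) < M * Real.exp (-u) by positivity)
  obtain ⟨N, ⟨h1, h2⟩, h3⟩ := ((ev1.and ev2).and (eventually_ge_atTop n0.natAbs)).exists
  set G := tr (fourierCoeff g) (-(N : ℤ)) N with hG
  have hcG := continuous_ev_ze G
  have hGi : Integrable (fun θ => ev G (ze θ)) mu := integrable_of_cont hcG
  have hdi : Integrable (fun θ => ‖ev G (ze θ) - g θ‖) mu := (hGi.sub hgi).norm
  have hHL : HL m G := by
    intro j hj n hn1 hn2
    rw [hG, tr_apply]
    split_ifs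
    · exact hgap j hj n hn1 hn2
    · rfl
  have hGn : G n0 = fourierCoeff g n0 := by
    rw [hG, tr_apply, if_pos]
    constructor <;> omega
  have hnrm : nrm G ≤ Γ := by
    have h4 : nrm G ≤ A + ∫ θ, ‖ev G (ze θ) - g θ‖ ∂mu := by
      rw [hA, ← integral_add hgi.norm hdi]
      refine integral_mono hGi.norm (hgi.norm.add hdi) fun θ => ?_
      have := norm_add_le (g θ) (ev G (ze θ) - g θ)
      rwa [add_sub_cancel] at this
    rw [hΓ]
    linarith
  have hMs : M ≤ mu.real (Sm G (u - 1)) := by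
    set Bd : Set Ci := {θ | Real.exp (-u) ≤ ‖ev G (ze θ) - g θ‖} with hBd
    have h4 : mu.real Bd ≤ M := by
      have h5 := mul_meas_ge_le_integral_of_nonneg (μ := mu)
        (f := fun θ => ‖ev G (ze θ) - g θ‖) (Filter.Eventually.of_forall fun _ => norm_nonneg _)
        hdi (Real.exp (-u))
      have h6 : Real.exp (-u) * mu.real Bd ≤ Real.exp (-u) * M := by
        refine le_trans h5 (h2.trans (le_of_eq (mul_comm _ _)))
      exact le_of_mul_le_mul_left h6 (Real.exp_pos _)
    have h5 : E ⊆ Sm G (u - 1) ∪ Bd := by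
      intro θ hθ
      by_cases hb : θ ∈ Bd
      · exact Or.inr hb
      · left
        have h6 : ‖ev G (ze θ) - g θ‖ < Real.exp (-u) := not_le.1 hb
        have h7 : ‖g θ‖ ≤ Real.exp (-u) := hθ
        have h8 : ‖ev G (ze θ)‖ ≤ ‖g θ‖ + ‖ev G (ze θ) - g θ‖ := by
          have := norm_add_le (g θ) (ev G (ze θ) - g θ)
          rwa [add_sub_cancel] at this
        have h9 : Real.exp (-(u - 1)) = Real.exp 1 * Real.exp (-u) := by
          rw [← Real.exp_add]
          congr 1
          ring
        have h10 : (2 : ℝ) ≤ Real.exp 1 := by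
          have := Real.add_one_le_exp 1
          linarith
        have h11 := Real.exp_pos (-u)
        show ‖ev G (ze θ)‖ ≤ Real.exp (-(u - 1))
        rw [h9]
        nlinarith
    have h6 : mu.real E ≤ mu.real (Sm G (u - 1)) + mu.real Bd :=
      (measureReal_mono h5).trans (measureReal_union_le _ _)
    have h7 : mu.real E = 2 * M := by rw [hM]; ring
    linarith
  have h4 := hind G M Γ (u - 1) hHL hMpos (by rw [hΓ]; linarith) hnrm hMs (by linarith) n0
  rw [hGn, ← hκ] at h4
  have h5 : Real.log κ ≤ -(c * M ^ a * (u - 1)) +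
      C * (1 / M) ^ a * (Real.log Γ + Real.log (1 / M) + n0.natAbs + 1) := by
    have := Real.log_le_log hκ0 h4
    rwa [Real.log_exp] at this
  set X := 1 / M with hX
  have hXM : X * M = 1 := by rw [hX]; field_simp
  have hX1 : 1 ≤ X := by
    rw [hX, le_div_iff₀ hMpos]
    linarith
  have hlX : Real.log X ≤ X := by
    have := Real.log_le_sub_one_of_pos (show 0 < X by linarith)
    linarith
  have h6 : c * M ^ a * (u - 1) ≤ X ^ (a + 1) * D0 := by
    have hXa : 1 ≤ X ^ a := one_le_pow₀ hX1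
    have h7 : C * X ^ a * (Real.log Γ + Real.log X + n0.natAbs + 1) ≤
        C * X ^ a * (X * (Real.log Γ + n0.natAbs + 2)) := by
      refine mul_le_mul_of_nonneg_left ?_ (by positivity)
      have h8 : 0 ≤ (X - 1) * (Real.log Γ + n0.natAbs + 1) := by
        refine mul_nonneg (by linarith) (by positivity)
      nlinarith
    have h8 : |Real.log κ| ≤ X ^ (a + 1) * |Real.log κ| :=
      le_mul_of_one_le_left (abs_nonneg _) (one_le_pow₀ hX1)
    have h9 := neg_abs_le (Real.log κ)
    rw [hD0, mul_add]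
    have e : C * X ^ a * (X * (Real.log Γ + n0.natAbs + 2)) =
        X ^ (a + 1) * (C * (Real.log Γ + n0.natAbs + 2)) := by ring
    rw [← e]
    linarith
  rw [le_div_iff₀ hc]
  have h7 := mul_le_mul_of_nonneg_left h6 (pow_nonneg hMpos.le (a + 1))
  have e1 : M ^ (a + 1) * (X ^ (a + 1) * D0) = D0 := by
    rw [← mul_assoc, ← mul_pow, mul_comm M X, hXM, one_pow, one_mul]
  have e2 : M ^ (a + 1) * (c * M ^ a * (u - 1)) = M ^ (2 * a + 1) * (u - 1) * c := by
    ring
  rw [e1, e2] at h7
  exact h7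

theorem fin_all (m : ℕ → ℕ) (h : S_IND m) : S_FIN m := by
  obtain ⟨a, c, C, hc, hC, hind⟩ := h
  set s : ℕ := 2 * a + 1 with hs
  have hs0 : 0 < s := by omega
  have hs0' : (0 : ℝ) < s := by exact_mod_cast hs0
  refine ⟨1 / (2 * s : ℝ), by positivity, fun g hgap hg => ?_⟩
  obtain ⟨n0, hn0⟩ := fin_coeff hg
  obtain ⟨D, hD0, hD⟩ := fin_key hc hC hind hgap hn0
  have hgi : Integrable (g : Ci → ℂ) mu := (Lp.memLp g).integrable (by norm_num)
  have hgm : Measurable fun θ : Ci => ‖g θ‖ := (Lp.stronglyMeasurable g).norm.measurable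
  constructor
  · -- `g` does not vanish on a set of positive measure
    set Z : Set Ci := {θ | g θ = 0} with hZ
    have hz0 : mu.real Z = 0 := by
      by_contra hne
      have hpos : 0 < mu.real Z := lt_of_le_of_ne measureReal_nonneg (Ne.symm hne)
      have hq : 0 < (mu.real Z / 2) ^ s := by positivity
      set u := D / (mu.real Z / 2) ^ s + 2 with hu
      have hu1 : 1 ≤ u := by
        have : 0 ≤ D / (mu.real Z / 2) ^ s := by positivity
        rw [hu]; linarith
      have h1 := hD u hu1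
      have h2 : mu.real Z ≤ mu.real {θ | ‖g θ‖ ≤ Real.exp (-u)} := by
        refine measureReal_mono fun θ hθ => ?_
        have : g θ = 0 := hθ
        show ‖g θ‖ ≤ Real.exp (-u)
        rw [this, norm_zero]
        exact (Real.exp_pos _).le
      have h3 : (mu.real Z / 2) ^ s * (u - 1) ≤ D := by
        refine le_trans (mul_le_mul_of_nonneg_right (pow_le_pow_left₀ (by positivity) ?_ s)
          (by linarith)) h1
        linarith
      have h4 : (mu.real Z / 2) ^ s * (u - 1) = D + (mu.real Z / 2) ^ s := by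
        rw [hu]
        field_simp
        ring
      linarith
    have h1 : mu Z = 0 := by
      rw [measureReal_def, ENNReal.toReal_eq_zero_iff] at hz0
      rcases hz0 with h | h
      · exact h
      · exact absurd h (measure_ne_top _ _)
    rw [ae_iff]
    have : {θ | ¬ g θ ≠ 0} = Z := by
      ext θ
      simp [hZ]
    rw [this]
    exact h1
  · -- the two parts of the logarithm
    set p : ℝ := 1 / (2 * s : ℝ) with hp
    have hp0 : 0 < p := by positivity
    have hp1 : p ≤ 1 := by
      rw [hp, div_le_one (by positivity)]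
      have : (1 : ℝ) ≤ s := by exact_mod_cast hs0
      linarith
    set X : Ci → ℝ := fun θ => (max (-Real.log ‖g θ‖) 0) ^ p with hX
    have hX0 : ∀ θ, 0 ≤ X θ := fun θ => Real.rpow_nonneg (le_max_right _ _) _
    have hXm : Measurable X :=
      ((Real.measurable_log.comp hgm).neg.max measurable_const).pow_const p
    set D1 := max (2 * D) 1 with hD1
    have hXi : Integrable X mu := by
      refine fin_layer hX0 hXm.aemeasurable (D := 2 * D1) (T := 2) two_pos fun t ht => ?_
      have ht0 : 0 < t := by linarith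
      set u := t ^ (2 * s) with hu
      have hu2 : 2 ≤ u := by
        calc (2 : ℝ) ≤ t := ht
          _ = t ^ 1 := (pow_one t).symm
          _ ≤ t ^ (2 * s) := pow_le_pow_right₀ (by linarith) (by omega)
      have hsub : {θ | t ≤ X θ} ⊆ {θ | ‖g θ‖ ≤ Real.exp (-u)} := by
        intro θ hθ
        have h1 : t ≤ X θ := hθ
        have h2 : u ≤ max (-Real.log ‖g θ‖) 0 := by
          have h3 := pow_le_pow_left₀ ht0.le h1 (2 * s)
          have h4 : X θ ^ (2 * s) = max (-Real.log ‖g θ‖) 0 := by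
            rw [hX]
            simp only
            rw [← Real.rpow_natCast, ← Real.rpow_mul (le_max_right _ _), hp]
            push_cast
            rw [one_div_mul_cancel (by positivity), Real.rpow_one]
          rwa [h4] at h3
        have h3 : u ≤ -Real.log ‖g θ‖ := by
          rcases le_max_iff.1 h2 with h | h
          · exact h
          · linarith
        show ‖g θ‖ ≤ Real.exp (-u)
        rcases (norm_nonneg (g θ)).eq_or_lt with h5 | h5
        · rw [← h5]; exact (Real.exp_pos _).le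
        · rw [← Real.exp_log h5]
          exact Real.exp_le_exp.2 (by linarith)
      have h1 := hD u (by linarith)
      set W := mu.real {θ | ‖g θ‖ ≤ Real.exp (-u)} with hW
      have hW0 : 0 ≤ W := measureReal_nonneg
      have h2 : (W / 2 * t ^ 2) ^ s ≤ D1 ^ s := by
        have h3 : (W / 2) ^ s * u ≤ 2 * D := by
          have h4 : (W / 2) ^ s * (u / 2) ≤ (W / 2) ^ s * (u - 1) :=
            mul_le_mul_of_nonneg_left (by linarith) (by positivity)
          linarith
        calc (W / 2 * t ^ 2) ^ s = (W / 2) ^ s * u := by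
              rw [mul_pow, ← pow_mul]
          _ ≤ 2 * D := h3
          _ ≤ D1 := le_max_left _ _
          _ = D1 ^ 1 := (pow_one _).symm
          _ ≤ D1 ^ s := pow_le_pow_right₀ (le_max_right _ _) (by omega)
      have h3 : W / 2 * t ^ 2 ≤ D1 :=
        le_of_pow_le_pow_left₀ hs0.ne' (le_trans zero_le_one (le_max_right _ _)) h2
      have h4 : W ≤ 2 * D1 * t ^ (-2 : ℝ) := by
        have e : t ^ (-2 : ℝ) = (t ^ 2)⁻¹ := by
          rw [Real.rpow_neg ht0.le]
          norm_num
        rw [e, ← div_eq_mul_inv, le_div_iff₀ (by positivity)]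
        linarith
      calc mu {θ | t ≤ X θ} ≤ mu {θ | ‖g θ‖ ≤ Real.exp (-u)} := measure_mono hsub
        _ = ENNReal.ofReal W := (ofReal_measureReal (measure_ne_top _ _)).symm
        _ ≤ ENNReal.ofReal (2 * D1 * t ^ (-2 : ℝ)) := ENNReal.ofReal_le_ofReal h4
    have hdom : Integrable (fun θ => X θ + (1 + ‖g θ‖)) mu :=
      hXi.add ((integrable_const _).add hgi.norm)
    refine hdom.mono' ?_ (Filter.Eventually.of_forall fun θ => ?_)
    · exact ((continuous_abs.measurable.comp (Real.measurable_log.comp hgm)).pow_const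
        p).aestronglyMeasurable
    · rw [Real.norm_of_nonneg (Real.rpow_nonneg (abs_nonneg _) _)]
      rcases le_total (Real.log ‖g θ‖) 0 with hl | hl
      · have e : |Real.log ‖g θ‖| = max (-Real.log ‖g θ‖) 0 := by
          rw [abs_of_nonpos hl, max_eq_left (by linarith)]
        rw [e]
        have := norm_nonneg (g θ)
        show X θ ≤ _
        linarith
      · rw [abs_of_nonneg hl]
        have h1 : Real.log ‖g θ‖ ≤ ‖g θ‖ := by
          rcases (norm_nonneg (g θ)).eq_or_lt with h5 | h5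
          · rw [← h5]; simp
          · have := Real.log_le_sub_one_of_pos h5
            linarith
        have h2 : Real.log ‖g θ‖ ^ p ≤ (1 + ‖g θ‖) ^ p :=
          Real.rpow_le_rpow hl (by linarith) hp0.le
        have h3 : (1 + ‖g θ‖) ^ p ≤ (1 + ‖g θ‖) ^ (1 : ℝ) :=
          Real.rpow_le_rpow_of_exponent_le (by linarith [norm_nonneg (g θ)]) hp1
        rw [Real.rpow_one] at h3
        linarith [hX0 θ]

end

end Pool.Agent.K9h98.HLp
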