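import Pool.Agent.K9h98.HLp.Stm

/-!
# Measures of intersections with arcs (leaf FUB of MP_5bfbcb, Q2)
-/

set_option autoImplicit false

namespace Pool.Agent.K9h98.HLp

open MeasureTheory AddCircle Complex Set Filter Topology Metric
open Pool.Agent.W767.HL

noncomputable section

/-- Indicator of two points being at distance at most `y`. -/
def nearI (y : ℝ) (p : Ci × Ci) : ℝ := {q : Ci × Ci | dist q.2 q.1 ≤ y}.indicator (fun _ => (1 : ℝ)) p

lemma measurableSet_near (y : ℝ) : MeasurableSet {q : Ci × Ci | dist q.2 q.1 ≤ y} :=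
  (isClosed_le (continuous_snd.dist continuous_fst) continuous_const).measurableSet

lemma real_inter (E : Set Ci) (y : ℝ) (φ : Ci) :
    mu.real (E ∩ closedBall φ y) = ∫ ψ in E, nearI y (φ, ψ) ∂mu := by
  have h1 : (fun ψ => nearI y (φ, ψ)) = (closedBall φ y).indicator (fun _ => (1 : ℝ)) := by
    ext ψ
    unfold nearI
    by_cases h : dist ψ φ ≤ y
    · rw [indicator_of_mem (show (φ, ψ) ∈ {q : Ci × Ci | dist q.2 q.1 ≤ y} from h),
        indicator_of_mem (mem_closedBall.mpr h)]
    · rw [indicator_of_notMem (show (φ, ψ) ∉ {q : Ci × Ci | dist q.2 q.1 ≤ y} from h),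
        indicator_of_notMem (fun h' => h (mem_closedBall.mp h'))]
  rw [h1, integral_indicator measurableSet_closedBall, Measure.restrict_restrict
    measurableSet_closedBall, integral_const, smul_eq_mul, mul_one, inter_comm]
  simp [Measure.real]

lemma real_inter' (E : Set Ci) (y : ℝ) (φ : Ci) :
    mu.real (E ∩ closedBall φ y) = ∫ ψ in E, nearI y (ψ, φ) ∂mu := by
  rw [real_inter]
  refine integral_congr_ae (Filter.Eventually.of_forall fun ψ => ?_)
  simp only [nearI]
  by_cases h : dist ψ φ ≤ y
  · rw [indicator_of_mem (show (φ, ψ) ∈ {q : Ci × Ci | dist q.2 q.1 ≤ y} from h),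
      indicator_of_mem (show (ψ, φ) ∈ {q : Ci × Ci | dist q.2 q.1 ≤ y} from by
        rw [mem_ofPred_eq, dist_comm]; exact h)]
  · rw [indicator_of_notMem (show (φ, ψ) ∉ {q : Ci × Ci | dist q.2 q.1 ≤ y} from h),
      indicator_of_notMem (show (ψ, φ) ∉ {q : Ci × Ci | dist q.2 q.1 ≤ y} from by
        rw [mem_ofPred_eq, dist_comm]; exact h)]

theorem fub_all : S_FUB := by
  refine ⟨?_, ?_, ?_⟩
  · intro φ y hy hy2
    have h1 : (volume : Measure Ci) = haarAddCircle := by
      rw [volume_eq_smul_haarAddCircle]
      simp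
    have h2 := AddCircle.volume_closedBall (1 : ℝ) (x := φ) y
    rw [h1] at h2
    rw [Measure.real, h2, min_eq_right (by linarith), ENNReal.toReal_ofReal (by linarith)]
  · intro E y hE
    have h1 : MeasurableSet {q : Ci × Ci | q.2 ∈ E ∧ dist q.2 q.1 ≤ y} :=
      (measurable_snd hE).inter (measurableSet_near y)
    have h2 := measurable_measure_prodMk_left (ν := (mu : Measure Ci)) h1
    exact h2.ennreal_toReal
  · intro A E y _ _
    simp only [real_inter E y, real_inter' A y]
    have hi : Integrable (Function.uncurry fun φ ψ => nearI y (φ, ψ))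
        ((mu.restrict A).prod (mu.restrict E)) := by
      refine (integrable_const (1 : ℝ)).indicator (measurableSet_near y)
    exact integral_integral_swap hi

end

end Pool.Agent.K9h98.HLp
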