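import Pool.Agent.K9h98.HLp.Stm

/-!
# Leaf HARN: Harnack's inequality (helper99)
-/

set_option autoImplicit false

namespace Pool.Agent.K9h98.HLp

open MeasureTheory AddCircle Complex Set Filter Topology Metric
open Pool.Agent.W767.HL

noncomputable section

theorem harn_P {z w : ℂ} (hz : ‖z‖ < 1) (hw : ‖w‖ < 1) (θ : Ci) :
    P z θ ≤ (1 - ‖z‖ ^ 2) / (1 - ‖w‖ ^ 2) * (1 + ‖z - w‖ / (1 - ‖z‖)) ^ 2 * P w θ := by
  have h1 := dist_pos z θ
  have h2 := dist_pos w θ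
  have hz1 : 0 < 1 - ‖z‖ := by linarith
  have hw1 : 0 < 1 - ‖w‖ := by linarith
  have hz2 : 0 < 1 - ‖z‖ ^ 2 := by nlinarith [norm_nonneg z]
  have hw2 : 0 < 1 - ‖w‖ ^ 2 := by nlinarith [norm_nonneg w]
  have hzz : 0 < ‖ze θ - z‖ := by linarith
  have hww : 0 < ‖ze θ - w‖ := by linarith
  have h3 : ‖ze θ - w‖ ≤ ‖ze θ - z‖ * (1 + ‖z - w‖ / (1 - ‖z‖)) := by
    have h4 : ‖ze θ - w‖ ≤ ‖ze θ - z‖ + ‖z - w‖ := by
      have : ze θ - w = (ze θ - z) + (z - w) := by ring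
      rw [this]
      exact norm_add_le _ _
    have h5 : ‖z - w‖ ≤ ‖ze θ - z‖ * (‖z - w‖ / (1 - ‖z‖)) := by
      calc ‖z - w‖ = (1 - ‖z‖) * (‖z - w‖ / (1 - ‖z‖)) := by field_simp
        _ ≤ _ := mul_le_mul_of_nonneg_right h1 (by positivity)
    linarith
  unfold P
  have h6 := pow_le_pow_left₀ hww.le h3 2
  rw [mul_pow] at h6
  have e1 : (1 - ‖z‖ ^ 2) / (1 - ‖w‖ ^ 2) * (1 + ‖z - w‖ / (1 - ‖z‖)) ^ 2 *
      ((1 - ‖w‖ ^ 2) / ‖ze θ - w‖ ^ 2) =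
      (1 - ‖z‖ ^ 2) * ((1 + ‖z - w‖ / (1 - ‖z‖)) ^ 2 / ‖ze θ - w‖ ^ 2) := by
    field_simp
  rw [e1, div_eq_mul_inv]
  refine mul_le_mul_of_nonneg_left ?_ hz2.le
  rw [le_div_iff₀ (by positivity), inv_mul_le_iff₀ (by positivity)]
  exact h6

theorem harn_all : S_HARN := by
  intro G z w hz hw
  have hc : Continuous (hn G) := (continuous_ev_ze G).norm
  unfold vv
  rw [← integral_const_mul]
  refine integral_mono (integrable_of_cont ((continuous_P hz).mul hc))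
    ((integrable_of_cont ((continuous_P hw).mul hc)).const_mul _) fun θ => ?_
  have h := mul_le_mul_of_nonneg_right (harn_P hz hw θ) (norm_nonneg (ev G (ze θ)))
  refine h.trans (le_of_eq ?_)
  simp only [hn]
  ring

end

end Pool.Agent.K9h98.HLp
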