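import Pool.Agent.K9h98.HLp.Stm

/-!
# MP_5bfbcb, Q2, leaf IND (helper71)
-/

set_option autoImplicit false

namespace Pool.Agent.K9h98.HLp

open MeasureTheory AddCircle Complex Set Filter Topology Metric
open Pool.Agent.W767.HL

theorem ind_all (m : ℕ → ℕ) (h : S_STEP m) (hc : S_CHEB) : S_IND m := by
  obtain ⟨κ, ε, c, C, hκ, hε, hc0, hc1, hC, hst⟩ := h
  have hC' : (1 : ℝ) ≤ C := by exact_mod_cast hC
  -- the exponent
  obtain ⟨a, ha1, ha2, ha3⟩ : ∃ a : ℕ, 2 ≤ ε * a ∧ C ≤ 2 * a ∧
      (2 * ((C : ℝ) + 1)) / c ≤ (1 + κ) ^ a := by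
    have t1 : Tendsto (fun a : ℕ => (1 + κ) ^ a) atTop atTop :=
      tendsto_pow_atTop_atTop_of_one_lt (by linarith)
    have e1 := t1.eventually_ge_atTop ((2 * ((C : ℝ) + 1)) / c)
    have e2 := eventually_ge_atTop (⌈2 / ε⌉₊ : ℕ)
    have e3 := eventually_ge_atTop C
    obtain ⟨a, h1, h2, h3⟩ := (e1.and (e2.and e3)).exists
    refine ⟨a, ?_, by omega, h1⟩
    have h4 : 2 / ε ≤ a := (Nat.le_ceil _).trans (by exact_mod_cast h2)
    rwa [div_le_iff₀ hε, mul_comm] at h4
  have hκa : 2 * ((C : ℝ) + 1) ≤ (1 + κ) ^ a := by
    refine le_trans ?_ ha3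
    rw [le_div_iff₀ hc0]
    nlinarith
  have hκc : 1 ≤ (1 + κ) ^ a * c := by
    rw [div_le_iff₀ hc0] at ha3
    linarith
  set D : ℝ := C * c + 2 with hD
  have hD2 : 2 ≤ D := by rw [hD]; nlinarith
  refine ⟨a, c, D, hc0, by linarith, ?_⟩
  have key : ∀ k : ℕ, ∀ (G : ℤ →₀ ℂ) (M Γ τ : ℝ), HL m G → 0 < M → 2 ≤ Γ → nrm G ≤ Γ →
      M ≤ mu.real (Sm G τ) → 0 ≤ τ → 1 < M * (1 + κ) ^ k →
      ∀ n : ℤ, ‖G n‖ ≤ Real.exp (-(c * M ^ a * τ) +
        D * (1 / M) ^ a * (Real.log Γ + Real.log (1 / M) + n.natAbs + 1)) := by
    intro k
    induction k with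
    | zero =>
      intro G M Γ τ _ _ _ _ hMm _ hk n
      have : mu.real (Sm G τ) ≤ 1 := measureReal_le_one
      rw [pow_zero, mul_one] at hk
      linarith
    | succ k ih =>
      intro G M Γ τ hG hM hΓ hn hMm hτ hk n
      have hM1 : M ≤ 1 := hMm.trans measureReal_le_one
      have hlM : 0 ≤ Real.log (1 / M) := Real.log_nonneg (by rw [le_div_iff₀ hM]; linarith)
      have hlΓ : 0 ≤ Real.log Γ := Real.log_nonneg (by linarith)
      set X : ℝ := Real.log Γ + Real.log (1 / M) + n.natAbs + 1 with hX
      have hn0 : (0 : ℝ) ≤ n.natAbs := by positivity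
      have hX1 : 1 ≤ X := by rw [hX]; linarith
      have hq : 1 ≤ (1 / M) ^ a := one_le_pow₀ (by rw [le_div_iff₀ hM]; linarith)
      have hMa : M ^ a ≤ 1 := pow_le_one₀ hM.le hM1
      have hMa0 : 0 < M ^ a := by positivity
      have hqX : X ≤ (1 / M) ^ a * X := le_mul_of_one_le_left (by linarith) hq
      by_cases hA : Real.log Γ ≤ -(c * M ^ a * τ) + D * (1 / M) ^ a * X
      · calc ‖G n‖ ≤ nrm G := (hc G 1 one_pos).2.2 n
          _ ≤ Γ := hn
          _ = Real.exp (Real.log Γ) := (Real.exp_log (by linarith)).symm
          _ ≤ _ := Real.exp_le_exp.2 hA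
      · push Not at hA
        -- `τ` is large
        have hτ1 : C * (1 / M) ^ C * Real.log Γ ≤ τ := by
          have b1 : (D - 1) * ((1 / M) ^ a * X) ≤ c * M ^ a * τ := by
            have : Real.log Γ ≤ (1 / M) ^ a * X := by
              refine le_trans ?_ hqX
              rw [hX]
              linarith
            have e : (D - 1) * ((1 / M) ^ a * X) = D * (1 / M) ^ a * X - (1 / M) ^ a * X := by ring
            rw [e]
            linarith
          have b2 : (C : ℝ) * c ≤ D - 1 := by rw [hD]; linarith
          have b3 : (C : ℝ) * c * ((1 / M) ^ a * X) ≤ c * (M ^ a * τ) := by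
            calc (C : ℝ) * c * ((1 / M) ^ a * X) ≤ (D - 1) * ((1 / M) ^ a * X) :=
                  mul_le_mul_of_nonneg_right b2 (by positivity)
              _ ≤ c * M ^ a * τ := b1
              _ = _ := by ring
          have b4 : (C : ℝ) * ((1 / M) ^ a * X) ≤ M ^ a * τ := by
            have : c * ((C : ℝ) * ((1 / M) ^ a * X)) ≤ c * (M ^ a * τ) := by linarith
            exact le_of_mul_le_mul_left this hc0
          have b5 : (C : ℝ) * ((1 / M) ^ a * (1 / M) ^ a * X) ≤ τ := by
            have e : τ = (1 / M) ^ a * (M ^ a * τ) := by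
              rw [← mul_assoc, ← mul_pow, one_div_mul_cancel hM.ne', one_pow, one_mul]
            rw [e]
            calc (C : ℝ) * ((1 / M) ^ a * (1 / M) ^ a * X) =
                (1 / M) ^ a * ((C : ℝ) * ((1 / M) ^ a * X)) := by ring
              _ ≤ _ := mul_le_mul_of_nonneg_left b4 (by positivity)
          refine le_trans ?_ b5
          rw [mul_assoc]
          refine mul_le_mul_of_nonneg_left ?_ (by linarith)
          have b6 : (1 / M) ^ C ≤ (1 / M) ^ a * (1 / M) ^ a := by
            rw [← pow_add]
            exact pow_le_pow_right₀ (by rw [le_div_iff₀ hM]; linarith) (by omega)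
          have b7 : Real.log Γ ≤ X := by rw [hX]; linarith
          exact mul_le_mul b6 b7 hlΓ (by positivity)
        have hcτ : c * M ^ a * τ ≤ c * τ := by
          have : M ^ a * τ ≤ 1 * τ := mul_le_mul_of_nonneg_right hMa hτ
          nlinarith
        have hnX : (n.natAbs : ℝ) ≤ X := by rw [hX]; linarith
        have h2n : (2 : ℝ) ^ n.natAbs ≤ Real.exp n.natAbs := by
          have : (2 : ℝ) ≤ Real.exp 1 := by
            have := Real.add_one_le_exp (1 : ℝ)
            linarith
          calc (2 : ℝ) ^ n.natAbs ≤ Real.exp 1 ^ n.natAbs := pow_le_pow_left₀ (by norm_num) this _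
            _ = Real.exp n.natAbs := by rw [← Real.exp_nat_mul, mul_one]
        have hfin : ∀ y : ℝ, y ≤ D / 2 * ((1 / M) ^ a * X) →
            ‖G n‖ ≤ 2 ^ n.natAbs * Real.exp (-(c * M ^ a * τ) + y) →
            ‖G n‖ ≤ Real.exp (-(c * M ^ a * τ) + D * (1 / M) ^ a * X) := by
          intro y hy hGn
          refine hGn.trans ?_
          calc (2 : ℝ) ^ n.natAbs * Real.exp (-(c * M ^ a * τ) + y) ≤
              Real.exp n.natAbs * Real.exp (-(c * M ^ a * τ) + y) :=
                mul_le_mul_of_nonneg_right h2n (Real.exp_pos _).le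
            _ = Real.exp (n.natAbs + (-(c * M ^ a * τ) + y)) := (Real.exp_add _ _).symm
            _ ≤ _ := by
                refine Real.exp_le_exp.2 ?_
                have : (n.natAbs : ℝ) ≤ D / 2 * ((1 / M) ^ a * X) := by
                  refine hnX.trans (hqX.trans ?_)
                  exact le_mul_of_one_le_left (by positivity) (by linarith)
                linarith
        rcases hst G M Γ τ hG hM hM1 hΓ hn hMm hτ1 with h1 | ⟨ρ, η, G', hρ, hρ1, hη, hη1, hG', hdi,
          hnG', hmG'⟩
        · refine hfin 0 (by positivity) ?_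
          refine (h1 n).trans ?_
          refine mul_le_mul_of_nonneg_left (Real.exp_le_exp.2 ?_) (by positivity)
          linarith
        · rcases hdi n with h1 | h1
          · refine hfin 0 (by positivity) ?_
            calc ‖G n‖ ≤ Real.exp (-(c * τ)) := h1
              _ ≤ 1 * Real.exp (-(c * M ^ a * τ) + 0) := by
                  rw [one_mul]
                  refine Real.exp_le_exp.2 ?_
                  linarith
              _ ≤ _ := mul_le_mul_of_nonneg_right (one_le_pow₀ (by norm_num)) (Real.exp_pos _).le
          · -- the induction hypothesis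
            set M' : ℝ := (1 + κ) * η ^ (-ε) * M with hM'
            have hηε : 1 ≤ η ^ (-ε) := Real.one_le_rpow_of_pos_of_le_one_of_nonpos hη hη1 (by linarith)
            have hM'0 : 0 < M' := by positivity
            have hM'le : (1 + κ) * M ≤ M' := by
              rw [hM']
              have : (1 + κ) * M * 1 ≤ (1 + κ) * M * η ^ (-ε) :=
                mul_le_mul_of_nonneg_left hηε (by positivity)
              linarith
            have hM'M : M ≤ M' :=
              (le_mul_of_one_le_left hM.le (by linarith : (1 : ℝ) ≤ 1 + κ)).trans hM'le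
            have hΓM : 2 ≤ Γ / M := by
              rw [le_div_iff₀ hM]
              linarith
            have hΓ' : 2 ≤ (Γ / M) ^ C := by
              calc (2 : ℝ) ≤ Γ / M := hΓM
                _ = (Γ / M) ^ 1 := (pow_one _).symm
                _ ≤ (Γ / M) ^ C := pow_le_pow_right₀ (by linarith) hC
            have hk' : 1 < M' * (1 + κ) ^ k := by
              refine hk.trans_le ?_
              rw [pow_succ]
              have : (1 + κ) * M * (1 + κ) ^ k ≤ M' * (1 + κ) ^ k :=
                mul_le_mul_of_nonneg_right hM'le (by positivity)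
              linarith
            have i1 := ih G' M' ((Γ / M) ^ C) (c * η ^ 2 * τ) hG' hM'0 hΓ' hnG' hmG' (by positivity)
              hk' n
            -- the main term
            have j1 : M ^ a * τ ≤ M' ^ a * (c * η ^ 2 * τ) := by
              have e1 : (η ^ (-ε)) ^ a = η ^ (-(ε * a)) := by
                rw [← Real.rpow_natCast (η ^ (-ε)) a, ← Real.rpow_mul hη.le]
                congr 1
                ring
              have e2 : η ^ (-(2 : ℝ)) ≤ η ^ (-(ε * a)) :=
                Real.rpow_le_rpow_of_exponent_ge hη hη1 (by linarith)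
              have e3 : η ^ (-(2 : ℝ)) * η ^ 2 = 1 := by
                rw [← Real.rpow_natCast η 2, ← Real.rpow_add hη]
                norm_num
              have e4 : 1 ≤ (η ^ (-ε)) ^ a * η ^ 2 := by
                rw [e1, ← e3]
                exact mul_le_mul_of_nonneg_right e2 (by positivity)
              have e5 : M' ^ a * (c * η ^ 2 * τ) =
                  ((1 + κ) ^ a * c) * ((η ^ (-ε)) ^ a * η ^ 2) * (M ^ a * τ) := by
                rw [hM', mul_pow, mul_pow]
                ring
              rw [e5]
              have e6 : 1 ≤ ((1 + κ) ^ a * c) * ((η ^ (-ε)) ^ a * η ^ 2) :=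
                one_le_mul_of_one_le_of_one_le hκc e4
              exact le_mul_of_one_le_left (by positivity) e6
            -- the remainder
            have j2 : (1 / M') ^ a ≤ (1 / M) ^ a / (2 * ((C : ℝ) + 1)) := by
              have e1 : 1 / M' ≤ 1 / ((1 + κ) * M) := one_div_le_one_div_of_le (by positivity) hM'le
              calc (1 / M') ^ a ≤ (1 / ((1 + κ) * M)) ^ a := pow_le_pow_left₀ (by positivity) e1 a
                _ = (1 / M) ^ a / (1 + κ) ^ a := by
                    rw [one_div, one_div, mul_inv, mul_pow, inv_pow]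
                    field_simp
                _ ≤ _ := by
                    refine div_le_div_of_nonneg_left (by positivity) (by positivity) hκa
            have j3 : Real.log ((Γ / M) ^ C) + Real.log (1 / M') + n.natAbs + 1 ≤
                ((C : ℝ) + 1) * X := by
              have e1 : Real.log ((Γ / M) ^ C) = C * (Real.log Γ + Real.log (1 / M)) := by
                rw [Real.log_pow, div_eq_mul_one_div, Real.log_mul (by linarith) (by positivity)]
              have e2 : Real.log (1 / M') ≤ Real.log (1 / M) :=
                Real.log_le_log (by positivity) (one_div_le_one_div_of_le hM hM'M)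
              rw [e1]
              have e3 : (C : ℝ) * (Real.log Γ + Real.log (1 / M)) ≤ C * X := by
                refine mul_le_mul_of_nonneg_left ?_ (by linarith)
                rw [hX]
                linarith
              have e4 : Real.log (1 / M') + n.natAbs + 1 ≤ X := by
                rw [hX]
                linarith
              linarith
            have j4 : D * (1 / M') ^ a * (Real.log ((Γ / M) ^ C) + Real.log (1 / M') +
                n.natAbs + 1) ≤ D / 2 * ((1 / M) ^ a * X) := by
              calc D * (1 / M') ^ a * (Real.log ((Γ / M) ^ C) + Real.log (1 / M') +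
                  n.natAbs + 1) ≤ D * (1 / M') ^ a * (((C : ℝ) + 1) * X) :=
                    mul_le_mul_of_nonneg_left j3 (by positivity)
                _ ≤ D * ((1 / M) ^ a / (2 * ((C : ℝ) + 1))) * (((C : ℝ) + 1) * X) := by
                    refine mul_le_mul_of_nonneg_right ?_ (by positivity)
                    exact mul_le_mul_of_nonneg_left j2 (by linarith)
                _ = _ := by
                    field_simp
            refine hfin _ j4 ?_
            -- from `G'` to `G`
            have hρ0 : 0 < ρ := by linarith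
            have l1 : ‖G n‖ ≤ 2 ^ n.natAbs * ‖G' n‖ := by
              rw [h1, ← mul_assoc]
              refine le_mul_of_one_le_left (norm_nonneg _) ?_
              rcases Int.natAbs_eq n with hn' | hn'
              · have e : ρ ^ n = ρ ^ n.natAbs := by
                  conv_lhs => rw [hn']
                  exact zpow_natCast _ _
                rw [e, ← mul_pow]
                exact one_le_pow₀ (by linarith)
              · have e : ρ ^ n = (ρ ^ n.natAbs)⁻¹ := by
                  conv_lhs => rw [hn']
                  rw [zpow_neg, zpow_natCast]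
                rw [e]
                have e1 : 1 ≤ (ρ ^ n.natAbs)⁻¹ := by
                  rw [one_le_inv₀ (by positivity)]
                  exact pow_le_one₀ hρ0.le hρ1.le
                have e2 : (1 : ℝ) ≤ 2 ^ n.natAbs := one_le_pow₀ (by norm_num)
                exact one_le_mul_of_one_le_of_one_le e2 e1
            refine l1.trans (mul_le_mul_of_nonneg_left (i1.trans ?_) (by positivity))
            refine Real.exp_le_exp.2 ?_
            have : c * M ^ a * τ ≤ c * M' ^ a * (c * η ^ 2 * τ) := by
              calc c * M ^ a * τ = c * (M ^ a * τ) := by ring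
                _ ≤ c * (M' ^ a * (c * η ^ 2 * τ)) := mul_le_mul_of_nonneg_left j1 hc0.le
                _ = _ := by ring
            linarith
  intro G M Γ τ hG hM hΓ hn hMm hτ n
  obtain ⟨k, hk⟩ : ∃ k : ℕ, 1 < M * (1 + κ) ^ k := by
    obtain ⟨k, hk⟩ := pow_unbounded_of_one_lt (1 / M) (show 1 < 1 + κ by linarith)
    refine ⟨k, ?_⟩
    rw [div_lt_iff₀ hM] at hk
    linarith
  exact key k G M Γ τ hG hM hΓ hn hMm hτ hk n

end Pool.Agent.K9h98.HLp
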