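import Pool.Agent.K9h98.HLp.Stm

/-!
# Leaf NEAR: harmonic measure of a set with a part in the near arc (helper99)
-/

set_option autoImplicit false

namespace Pool.Agent.K9h98.HLp

open MeasureTheory AddCircle Complex Set Filter Topology Metric
open Pool.Agent.W767.HL

noncomputable section

theorem ze_add (a b : Ci) : ze (a + b) = ze a * ze b := by
  unfold ze
  rw [fourier_one, fourier_one, fourier_one, AddCircle.toCircle_add, Circle.coe_mul]

theorem ze_zero : ze 0 = 1 := by
  have := ze_coe 0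
  simpa using this

/-- `ze` is Lipschitz -/
theorem ze_lip (a b : Ci) : ‖ze a - ze b‖ ≤ 2 * Real.pi * dist a b := by
  have e1 : ze a = ze (a - b) * ze b := by rw [← ze_add, sub_add_cancel]
  have e2 : ze a - ze b = (ze (a - b) - 1) * ze b := by rw [sub_mul, ← e1, one_mul]
  rw [e2, norm_mul, norm_ze, mul_one, dist_eq_norm]
  generalize a - b = c
  obtain ⟨x, rfl⟩ := QuotientAddGroup.mk_surjective c
  change ‖ze (x : Ci) - 1‖ ≤ 2 * Real.pi * ‖(x : Ci)‖
  rw [UnitAddCircle.norm_eq]
  have h1 : ((x - round x : ℝ) : Ci) = (x : Ci) := by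
    have h0 : ((round x : ℝ) : Ci) = 0 := by
      rw [AddCircle.coe_eq_zero_iff]
      exact ⟨round x, by simp⟩
    rw [AddCircle.coe_sub, h0, sub_zero]
  rw [← h1, ze_coe]
  have h2 := Real.norm_exp_I_mul_ofReal_sub_one_le (x := 2 * Real.pi * (x - round x))
  have h3 : (2 * Real.pi * Complex.I * ((x - round x : ℝ) : ℂ) : ℂ) =
      Complex.I * ((2 * Real.pi * (x - round x) : ℝ) : ℂ) := by
    push_cast
    ring
  rw [h3]
  refine h2.trans (le_of_eq ?_)
  rw [Real.norm_eq_abs, abs_mul, abs_of_pos (by positivity : (0 : ℝ) < 2 * Real.pi)]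

theorem near_all : S_NEAR := by
  intro η y φ E z hη hy hy1 hE hm hz hzp
  have hz1 : ‖z‖ < 1 := by linarith
  have hP : ∀ ψ ∈ E ∩ closedBall φ y, 1 / (81 * y) ≤ P z ψ := by
    intro ψ hψ
    have h1 : ‖ze ψ - ze φ‖ ≤ 2 * Real.pi * y :=
      (ze_lip ψ φ).trans (mul_le_mul_of_nonneg_left hψ.2 (by positivity))
    have h2 : ‖ze φ - pt y φ‖ = y := by
      have : ze φ - pt y φ = ((y : ℝ) : ℂ) * ze φ := by
        unfold pt
        push_cast
        ring
      rw [this, norm_mul, norm_ze, mul_one, Complex.norm_real, Real.norm_of_nonneg hy.le]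
    have h3 : ‖ze ψ - z‖ ≤ 9 * y := by
      have e : ze ψ - z = (ze ψ - ze φ) + (ze φ - pt y φ) - (z - pt y φ) := by ring
      rw [e]
      have h4 := norm_sub_le ((ze ψ - ze φ) + (ze φ - pt y φ)) (z - pt y φ)
      have h5 := norm_add_le (ze ψ - ze φ) (ze φ - pt y φ)
      have h6 := Real.pi_lt_d2
      nlinarith
    have h7 : 0 < ‖ze ψ - z‖ := by
      have := dist_pos z ψ
      linarith
    unfold P
    rw [div_le_div_iff₀ (by positivity) (by positivity), one_mul]
    have h8 : ‖ze ψ - z‖ ^ 2 ≤ (9 * y) ^ 2 := pow_le_pow_left₀ h7.le h3 2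
    have h9 : y ≤ 1 - ‖z‖ ^ 2 := by nlinarith [norm_nonneg z]
    nlinarith
  have hmeas : MeasurableSet (E ∩ closedBall φ y) := hE.inter isClosed_closedBall.measurableSet
  have hi : Integrable (P z) mu := integrable_of_cont (continuous_P hz1)
  calc η / 81 = 1 / (81 * y) * (η * y) := by field_simp
    _ ≤ 1 / (81 * y) * mu.real (E ∩ closedBall φ y) :=
        mul_le_mul_of_nonneg_left hm (by positivity)
    _ = ∫ ψ in E ∩ closedBall φ y, 1 / (81 * y) ∂mu := by
        rw [setIntegral_const, smul_eq_mul, mul_comm]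
    _ ≤ ∫ ψ in E ∩ closedBall φ y, P z ψ ∂mu :=
        setIntegral_mono_on (integrable_const _).integrableOn hi.integrableOn hmeas hP
    _ ≤ ∫ ψ in E, P z ψ ∂mu :=
        setIntegral_mono_set hi.integrableOn (Eventually.of_forall fun ψ => (P_pos hz1 ψ).le)
          (Eventually.of_forall inter_subset_left)

end

end Pool.Agent.K9h98.HLp
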