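import Pool.Agent.K9h98.HLp.Stm

/-!
# From a Hadamard lacunary sequence to the data of `Lac` (leaf MAIN of MP_5bfbcb, Q2)
-/

set_option autoImplicit false

namespace Pool.Agent.K9h98.HLp

open MeasureTheory AddCircle Complex Set Filter Topology Metric
open Pool.Agent.W767.HL

noncomputable section

/-- The absolute values of the frequencies of a Hadamard lacunary sequence, from some index on,
give lacunary data, and every half-lacunary function is half-lacunary for these data. -/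
theorem exists_lac (n : ℕ → ℤ) (hneg : ∀ k, n k < 0) {q : ℝ} (hq : 1 < q)
    (hlac : ∀ᶠ k in atTop, q ≤ (n (k + 1) : ℝ) / (n k : ℝ)) :
    ∃ (L : ℕ) (m : ℕ → ℕ) (lam : ℝ), Lac L m lam ∧
      ∀ c : ℤ → ℂ, (∀ j : ℤ, j < 0 → (∀ k, n k ≠ j) → c j = 0) →
        ∀ j, 1 ≤ j → ∀ i : ℤ, -(m j : ℤ) < i → i < -(m (j - 1) : ℤ) → c i = 0 := by
  obtain ⟨K1, hK1⟩ := eventually_atTop.mp hlac
  -- absolute values of the frequencies
  set p : ℕ → ℕ := fun k => (n k).natAbs with hp
  have hpn : ∀ k, n k = -(p k : ℤ) := fun k => by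
    have := hneg k
    simp only [hp]
    omega
  have hp0 : ∀ k, 0 < p k := fun k => by
    have := hneg k
    simp only [hp]
    omega
  have hpq : ∀ k, K1 ≤ k → q * p k ≤ p (k + 1) := by
    intro k hk
    have h1 := hK1 k hk
    rw [hpn, hpn] at h1
    push_cast at h1
    rw [neg_div_neg_eq, le_div_iff₀ (by exact_mod_cast hp0 k)] at h1
    exact h1
  have hplt : ∀ k, K1 ≤ k → p k < p (k + 1) := by
    intro k hk
    have h1 := hpq k hk
    have h2 : (0 : ℝ) < p k := by exact_mod_cast hp0 k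
    have h3 : (p k : ℝ) < p (k + 1) := by nlinarith
    exact_mod_cast h3
  have hps : StrictMono fun i => p (K1 + i) :=
    strictMono_nat_of_lt_succ fun i => hplt (K1 + i) (by omega)
  -- a starting index which dominates all earlier frequencies
  obtain ⟨b, hb⟩ : ∃ b, ∀ i, i < K1 → p i < b := by
    refine ⟨(Finset.range K1).sup p + 1, fun i hi => ?_⟩
    exact Nat.lt_succ_of_le (Finset.le_sup (f := p) (Finset.mem_range.mpr hi))
  set k1 := K1 + b with hk1
  have hb1 : b ≤ p k1 := hps.le_apply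
  set m : ℕ → ℕ := fun j => p (k1 + j) with hm
  have hms : StrictMono m := strictMono_nat_of_lt_succ fun i => hplt (k1 + i) (by omega)
  have hm0 : ∀ j, 0 < m j := fun j => hp0 _
  have hmq : ∀ j, q * m j ≤ m (j + 1) := fun j => hpq (k1 + j) (by omega)
  have hbefore : ∀ i, i < k1 → p i < m 0 := by
    intro i hi
    by_cases h : i < K1
    · exact (hb i h).trans_le hb1
    · have := hps (show i - K1 < b by omega)
      simp only at this
      rwa [show K1 + (i - K1) = i by omega] at this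
  have hmL : ∀ l j, q ^ l * m j ≤ m (j + l) := by
    intro l
    induction l with
    | zero => intro j; simp
    | succ l ih =>
      intro j
      calc q ^ (l + 1) * m j = q * (q ^ l * m j) := by ring
        _ ≤ q * m (j + l) := mul_le_mul_of_nonneg_left (ih j) (by linarith)
        _ ≤ m (j + l + 1) := hmq _
  -- the parameter L
  have hq0 : 0 < q := by linarith
  have hη : 0 < 1 - 1 / q := by
    rw [sub_pos, div_lt_one hq0]
    exact hq
  obtain ⟨L, hL⟩ : ∃ L : ℕ, 1 / (1 - 1 / q) < q ^ L := pow_unbounded_of_one_lt _ hq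
  have hL' : 1 / (1 - 1 / q) ≤ q ^ (L + 1) :=
    hL.le.trans (pow_le_pow_right₀ hq.le (Nat.le_succ L))
  have hM : ∀ j, 1 ≤ j → (1 - 1 / q) * m j + m (j - 1) ≤ m j := by
    intro j hj
    have h1 := hmq (j - 1)
    rw [Nat.sub_add_cancel hj] at h1
    have h2 : (m (j - 1) : ℝ) ≤ 1 / q * m j := by
      rw [div_mul_eq_mul_div, one_mul, le_div_iff₀ hq0]
      linarith
    linarith
  have hgap : ∀ j, L + 1 ≤ j → m (j - (L + 1)) + m (j - 1) ≤ m j := by
    intro j hj
    have h1 := hmL (L + 1) (j - (L + 1))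
    rw [Nat.sub_add_cancel hj] at h1
    have h2 := hM j (by omega)
    have h3 : (m (j - (L + 1)) : ℝ) ≤ (1 - 1 / q) * m j := by
      rw [div_le_iff₀ hη] at hL'
      have h4 : (0 : ℝ) < m (j - (L + 1)) := by exact_mod_cast hm0 _
      nlinarith
    have h5 : (m (j - (L + 1)) : ℝ) + m (j - 1) ≤ m j := by linarith
    exact_mod_cast h5
  refine ⟨L + 1, m, 1 - 1 / q, ⟨Nat.succ_pos L, hms, hm0 0, hgap, hη, ?_, hM⟩, ?_⟩
  · have : 0 < 1 / q := by positivity
    linarith
  · intro c hc j hj i hi1 hi2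
    refine hc i (by omega) fun k hk => ?_
    rw [hpn k] at hk
    by_cases h : k < k1
    · have h1 := hbefore k h
      have h2 : m 0 ≤ m (j - 1) := hms.monotone (Nat.zero_le _)
      omega
    · have h1 : p k = m (k - k1) := by
        simp only [hm]
        rw [show k1 + (k - k1) = k by omega]
      rcases Nat.lt_or_ge (k - k1) j with h2 | h2
      · have := hms.monotone (show k - k1 ≤ j - 1 by omega)
        omega
      · have := hms.monotone h2
        omega

/-- The final statement of Q2 from the leaf FIN: the exponent depends only on the sequence of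
negative frequencies. -/
theorem q2_of_fin (hfin : ∀ (L : ℕ) (m : ℕ → ℕ) (lam : ℝ), Lac L m lam → S_FIN m)
    (n : ℕ → ℤ) (hneg : ∀ k, n k < 0)
    (hlac : 1 < liminf (fun k => (((n (k + 1) : ℝ) / (n k : ℝ) : ℝ) : EReal)) atTop) :
    ∃ p : ℝ, 0 < p ∧ ∀ (a : ℤ → ℂ)
      (g₁ g₂ : Lp ℂ 2 (AddCircle.haarAddCircle : Measure (AddCircle (1 : ℝ)))),
      HasSum (fun k : ℕ => a (n k) • fourierLp 2 (n k)) g₁ →
      HasSum (fun j : ℕ => a (j : ℤ) • fourierLp 2 (j : ℤ)) g₂ →
      g₁ + g₂ ≠ 0 →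
      (∀ᵐ θ ∂(AddCircle.haarAddCircle : Measure (AddCircle (1 : ℝ))),
        (g₁ + g₂ : Lp ℂ 2 AddCircle.haarAddCircle) θ ≠ 0) ∧
      Integrable (fun θ : AddCircle (1 : ℝ) =>
        |Real.log ‖(g₁ + g₂ : Lp ℂ 2 AddCircle.haarAddCircle) θ‖| ^ p) AddCircle.haarAddCircle ∧
      MemLp (fun θ : AddCircle (1 : ℝ) =>
        Real.log ‖(g₁ + g₂ : Lp ℂ 2 AddCircle.haarAddCircle) θ‖) (ENNReal.ofReal p)
        AddCircle.haarAddCircle := by
  obtain ⟨y, hy1, hy2⟩ := exists_between hlac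
  have hy3 : y ≠ ⊤ := (hy2.trans_le le_top).ne
  have hy4 : y ≠ ⊥ := (bot_lt_iff_ne_bot.mp ((EReal.bot_lt_coe 1).trans hy1))
  lift y to ℝ using ⟨hy3, hy4⟩
  have hy5 : (1 : ℝ) < y := by exact_mod_cast hy1
  have hev := eventually_lt_of_lt_liminf hy2
  have hev' : ∀ᶠ k in atTop, y ≤ (n (k + 1) : ℝ) / (n k : ℝ) := by
    filter_upwards [hev] with k hk
    exact (EReal.coe_lt_coe_iff.mp hk).le
  obtain ⟨L, m, lam, hLac, hcoef⟩ := exists_lac n hneg hy5 hev'
  obtain ⟨p, hp, h⟩ := hfin L m lam hLac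
  refine ⟨p, hp, ?_⟩
  intro a g₁ g₂ h₁ h₂ hg
  have hc : ∀ j : ℤ, j < 0 → (∀ k, n k ≠ j) → fourierCoeff (g₁ + g₂ : Lp ℂ 2 mu) j = 0 := by
    intro j hj hjn
    have e1 : fourierCoeff g₁ j = 0 := coeff_eq_zero h₁ hjn
    have e2 : fourierCoeff g₂ j = 0 := coeff_eq_zero (n := fun i : ℕ => (i : ℤ))
      (b := fun i => a i) h₂ fun k => by omega
    rw [← inner_fourier] at e1 e2 ⊢
    rw [map_add, e1, e2, add_zero]
  obtain ⟨h1, h2⟩ := h (g₁ + g₂) (hcoef _ hc) hg
  refine ⟨h1, h2, ?_⟩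
  have hmeas : AEStronglyMeasurable (fun θ : Ci =>
      Real.log ‖(g₁ + g₂ : Lp ℂ 2 mu) θ‖) mu :=
    (Real.measurable_log.comp_aemeasurable
      (Lp.aestronglyMeasurable (g₁ + g₂)).norm.aemeasurable).aestronglyMeasurable
  have h3 := (integrable_norm_rpow_iff hmeas (p := ENNReal.ofReal p)
    (by rw [ne_eq, ENNReal.ofReal_eq_zero, not_le]; exact hp) ENNReal.ofReal_ne_top).mp
  refine h3 ?_
  rw [ENNReal.toReal_ofReal hp.le]
  exact h2

end

end Pool.Agent.K9h98.HLp
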