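import Pool.Agent.K9h98.HLp.Stm

/-!
# Leaf SMALL: Jensen's inequality (helper99)
-/

set_option autoImplicit false

namespace Pool.Agent.K9h98.HLp

open MeasureTheory AddCircle Complex Set Filter Topology Metric
open Pool.Agent.W767.HL

noncomputable section

namespace SmallAux

theorem cont_hn (G : ℤ →₀ ℂ) : Continuous (hn G) := (continuous_ev_ze G).norm

theorem hn_nn (G : ℤ →₀ ℂ) (θ : Ci) : 0 ≤ hn G θ := norm_nonneg _

theorem vv_nn (G : ℤ →₀ ℂ) {z : ℂ} (hz : ‖z‖ < 1) : 0 ≤ vv G z :=
  integral_nonneg fun θ => mul_nonneg (P_pos hz θ).le (hn_nn G θ)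

/-- the tangent line of the logarithm -/
theorem log_tan {x a : ℝ} (hx : 0 < x) (ha : 0 < a) : Real.log x ≤ Real.log a + (x - a) / a := by
  have h := Real.log_le_sub_one_of_pos (div_pos hx ha)
  rw [Real.log_div hx.ne' ha.ne'] at h
  have : (x - a) / a = x / a - 1 := by field_simp
  linarith

theorem int_log (G : ℤ →₀ ℂ) {z : ℂ} (hz : ‖z‖ < 1) :
    ∫ θ, P z θ * Real.log (1 + hn G θ) ∂mu ≤ Real.log (1 + vv G z) := by
  have hv := vv_nn G hz
  have hlc : Continuous fun θ => Real.log (1 + hn G θ) :=
    (continuous_const.add (cont_hn G)).log fun θ => (by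
      have := hn_nn G θ
      linarith : (0 : ℝ) < 1 + hn G θ).ne'
  have i1 : Integrable (P z) mu := integrable_of_cont (continuous_P hz)
  have i2 : Integrable (fun θ => P z θ * hn G θ) mu :=
    integrable_of_cont ((continuous_P hz).mul (cont_hn G))
  calc ∫ θ, P z θ * Real.log (1 + hn G θ) ∂mu
      ≤ ∫ θ, (P z θ * (Real.log (1 + vv G z) - vv G z / (1 + vv G z)) +
        P z θ * hn G θ * (1 / (1 + vv G z))) ∂mu := by
        refine integral_mono (integrable_of_cont ((continuous_P hz).mul hlc))
          ((i1.mul_const _).add (i2.mul_const _)) fun θ => ?_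
        have h1 := log_tan (x := 1 + hn G θ) (a := 1 + vv G z)
          (by have := hn_nn G θ; positivity) (by positivity)
        have h2 := mul_le_mul_of_nonneg_left h1 (P_pos hz θ).le
        refine h2.trans (le_of_eq ?_)
        ring
    _ = Real.log (1 + vv G z) := by
        rw [integral_add (i1.mul_const _) (i2.mul_const _), integral_mul_const, integral_mul_const,
          integral_P hz]
        have : ∫ θ, P z θ * hn G θ ∂mu = vv G z := rfl
        rw [this]
        ring

theorem norm_inv_pow {x : ℝ} (h1 : 1 / 2 ≤ x) (h2 : x < 1) (N : ℕ) :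
    (x ^ N)⁻¹ ≤ Real.exp (2 * N * (1 - x)) := by
  have hx : 0 < x := by linarith
  have h3 : x⁻¹ ≤ Real.exp (2 * (1 - x)) := by
    have h4 := Real.add_one_le_exp (x⁻¹ - 1)
    have h5 := Real.log_le_sub_one_of_pos (inv_pos.2 hx)
    have h6 : x⁻¹ - 1 ≤ 2 * (1 - x) := by
      have h7 : x⁻¹ - 1 = (1 - x) * x⁻¹ := by field_simp
      rw [h7, mul_comm 2]
      refine mul_le_mul_of_nonneg_left ?_ (by linarith)
      rw [inv_le_comm₀ hx (by norm_num)]
      linarith
    calc x⁻¹ = Real.exp (Real.log x⁻¹) := (Real.exp_log (inv_pos.2 hx)).symm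
      _ ≤ _ := Real.exp_le_exp.2 (h5.trans h6)
  rw [← inv_pow]
  calc x⁻¹ ^ N ≤ Real.exp (2 * (1 - x)) ^ N := pow_le_pow_left₀ (by positivity) h3 N
    _ = _ := by
      rw [← Real.exp_nat_mul]
      congr 1
      ring

end SmallAux

open SmallAux in
theorem small_all : S_SMALL := by
  intro G N E s z hG hE hs hsm hz1 hz2
  have hz0 : z ≠ 0 := by
    intro h
    rw [h, norm_zero] at hz1
    norm_num at hz1
  set ω : ℝ := ∫ φ in E, P z φ ∂mu with hω
  set f : ℂ → ℂ := ev (sh (N : ℤ) G) with hf
  have hfd : Differentiable ℂ f := by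
    refine differentiable_ev fun n hn => ?_
    rw [sh_apply]
    exact hG _ (by omega)
  have hfe : ∀ θ, ‖f (ze θ)‖ = hn G θ := by
    intro θ
    rw [hf, ev_sh _ _ (ze_ne θ), norm_mul, norm_zpow, norm_ze, one_zpow, one_mul]
    rfl
  set v : Ci → ℝ := fun θ => Real.exp (-(2 * s)) + hn G θ ^ 2 with hv
  have hvc : Continuous v := continuous_const.add ((cont_hn G).pow 2)
  have hv0 : ∀ θ, 0 < v θ := fun θ => by
    rw [hv]
    have := Real.exp_pos (-(2 * s))
    positivity
  have hJ := jensen hfd hvc hv0 (fun θ => by
    rw [hfe]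
    have := Real.exp_pos (-(2 * s))
    simp only [hv]
    linarith) hz2
  have hvv := vv_nn G hz2
  -- the integral
  have hI : ∫ θ, P z θ * Real.log (v θ) ∂mu ≤
      Real.log 2 - 2 * s * ω + 2 * Real.log (1 + vv G z) := by
    have hlc : Continuous fun θ => Real.log (1 + hn G θ) :=
      (continuous_const.add (cont_hn G)).log fun θ => (by
        have := hn_nn G θ
        linarith : (0 : ℝ) < 1 + hn G θ).ne'
    have i1 : Integrable (P z) mu := integrable_of_cont (continuous_P hz2)
    have i2 : Integrable (fun θ => P z θ * Real.log (1 + hn G θ)) mu :=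
      integrable_of_cont ((continuous_P hz2).mul hlc)
    have i3 : Integrable (E.indicator (P z)) mu := i1.indicator hE
    have j1 : Integrable (fun θ => P z θ * Real.log 2 - E.indicator (P z) θ * (2 * s)) mu :=
      (i1.mul_const _).sub (i3.mul_const _)
    calc ∫ θ, P z θ * Real.log (v θ) ∂mu
        ≤ ∫ θ, ((P z θ * Real.log 2 - E.indicator (P z) θ * (2 * s)) +
          P z θ * Real.log (1 + hn G θ) * 2) ∂mu := by
          refine integral_mono (integrable_of_cont ((continuous_P hz2).mul
            (hvc.log fun θ => (hv0 θ).ne'))) (((i1.mul_const _).sub (i3.mul_const _)).add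
              (i2.mul_const _)) fun θ => ?_
          have hP := P_pos hz2 θ
          have hh := hn_nn G θ
          have hlog0 : 0 ≤ Real.log (1 + hn G θ) := Real.log_nonneg (by linarith)
          by_cases hθ : θ ∈ E
          · simp only [indicator_of_mem hθ]
            have h1 : hn G θ ^ 2 ≤ Real.exp (-(2 * s)) := by
              have := pow_le_pow_left₀ hh (hsm θ hθ) 2
              rw [← Real.exp_nat_mul] at this
              refine this.trans (le_of_eq ?_)
              congr 1
              push_cast
              ring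
            have h2 : Real.log (v θ) ≤ Real.log 2 - 2 * s := by
              have h3 : v θ ≤ 2 * Real.exp (-(2 * s)) := by
                simp only [hv]
                linarith
              calc Real.log (v θ) ≤ Real.log (2 * Real.exp (-(2 * s))) :=
                    Real.log_le_log (hv0 θ) h3
                _ = _ := by
                  rw [Real.log_mul (by norm_num) (Real.exp_ne_zero _), Real.log_exp]
                  ring
            nlinarith [mul_le_mul_of_nonneg_left h2 hP.le, mul_nonneg hP.le hlog0]
          · simp only [indicator_of_notMem hθ]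
            have h2 : Real.log (v θ) ≤ 2 * Real.log (1 + hn G θ) := by
              have h3 : v θ ≤ (1 + hn G θ) ^ 2 := by
                simp only [hv]
                have : Real.exp (-(2 * s)) ≤ 1 := Real.exp_le_one_iff.2 (by linarith)
                nlinarith
              calc Real.log (v θ) ≤ Real.log ((1 + hn G θ) ^ 2) := Real.log_le_log (hv0 θ) h3
                _ = _ := by
                  rw [Real.log_pow]
                  push_cast
                  ring
            have h4 : 0 ≤ Real.log 2 := Real.log_nonneg (by norm_num)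
            nlinarith [mul_le_mul_of_nonneg_left h2 hP.le, mul_nonneg hP.le h4]
      _ = Real.log 2 - 2 * s * ω + 2 * ∫ θ, P z θ * Real.log (1 + hn G θ) ∂mu := by
          rw [integral_add j1 (i2.mul_const _),
            integral_sub (i1.mul_const _) (i3.mul_const _), integral_mul_const, integral_mul_const,
            integral_mul_const, integral_P hz2, integral_indicator hE, ← hω]
          ring
      _ ≤ _ := by
          have := int_log G hz2
          linarith
  have hf1 : ‖f z‖ ≤ Real.exp (1 - s * ω) * (1 + vv G z) := by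
    have h1 : ‖f z‖ ^ 2 ≤ (Real.exp (1 - s * ω) * (1 + vv G z)) ^ 2 := by
      refine hJ.trans ((Real.exp_le_exp.2 hI).trans ?_)
      have h2 : (1 + vv G z) = Real.exp (Real.log (1 + vv G z)) :=
        (Real.exp_log (by positivity)).symm
      have h3 : (Real.exp (1 - s * ω) * (1 + vv G z)) ^ 2 =
          Real.exp (2 - 2 * s * ω + 2 * Real.log (1 + vv G z)) := by
        rw [h2, ← Real.exp_add, ← Real.exp_nat_mul, Real.log_exp]
        congr 1
        push_cast
        ring
      rw [h3]
      refine Real.exp_le_exp.2 ?_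
      have h4 : Real.log 2 ≤ 2 := by
        have := Real.log_le_sub_one_of_pos (x := 2) (by norm_num)
        linarith
      linarith
    exact le_of_sq_le_sq h1 (by positivity)
  have hG2 : ev G z = (z ^ N)⁻¹ * f z := by
    rw [hf, ev_sh _ _ hz0, zpow_natCast, ← mul_assoc, inv_mul_cancel₀ (pow_ne_zero _ hz0), one_mul]
  rw [hG2, norm_mul, norm_inv, norm_pow]
  have h5 := norm_inv_pow hz1 hz2 N
  calc (‖z‖ ^ N)⁻¹ * ‖f z‖ ≤ Real.exp (2 * N * (1 - ‖z‖)) *
        (Real.exp (1 - s * ω) * (1 + vv G z)) :=
        mul_le_mul h5 hf1 (norm_nonneg _) (Real.exp_pos _).le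
    _ = _ := by
        rw [← mul_assoc, ← Real.exp_add]
        congr 2
        ring

end

end Pool.Agent.K9h98.HLp
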