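import Pool.Agent.K9h98.HLp.StepB

/-!
# MP_5bfbcb, Q2: the step, third part: the constants
-/

set_option autoImplicit false

namespace Pool.Agent.K9h98.HLp

open MeasureTheory AddCircle Complex Set Filter Topology Metric
open Pool.Agent.W767.HL

noncomputable section

lemma basicV {Γ M : ℝ} (hΓ : 2 ≤ Γ) (hM : 0 < M) (hM1 : M ≤ 1) :
    1 / 2 ≤ Real.log Γ ∧ 1 ≤ 1 / M ∧ Real.log Γ ≤ 1 / M * Real.log Γ ∧
      1 ≤ 2 * (1 / M * Real.log Γ) ∧ 0 ≤ Real.log (1 / M) ∧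
      Real.log (1 / M) ≤ 2 * (1 / M * Real.log Γ) := by
  have hW : 1 / 2 ≤ Real.log Γ := by
    have h1 := Real.log_two_gt_d9
    have h2 : Real.log 2 ≤ Real.log Γ := Real.log_le_log (by norm_num) hΓ
    linarith
  have hX : 1 ≤ 1 / M := by rw [le_div_iff₀ hM]; linarith
  have hV1 : Real.log Γ ≤ 1 / M * Real.log Γ := by nlinarith
  have hV2 : 1 / M ≤ 2 * (1 / M * Real.log Γ) := by nlinarith
  have h5 : Real.log (1 / M) ≤ 1 / M := by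
    have := Real.log_le_sub_one_of_pos (show (0 : ℝ) < 1 / M by positivity)
    linarith
  exact ⟨hW, hX, hV1, by linarith, Real.log_nonneg hX, h5.trans hV2⟩

/-- `log (Γ / (a M))` is at most a constant times `(1 / M) log Γ` -/
lemma log_quot_le {Γ M a : ℝ} (hΓ : 2 ≤ Γ) (hM : 0 < M) (hM1 : M ≤ 1) (ha : 0 < a) (ha1 : a ≤ 1) :
    Real.log (Γ / (a * M)) ≤ 5 * (1 / a) * (1 / M * Real.log Γ) := by
  obtain ⟨hW, hX, hV1, hV3, hl0, hl⟩ := basicV hΓ hM hM1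
  have hA : 1 ≤ 1 / a := by rw [le_div_iff₀ ha]; linarith
  have h3 : Real.log (Γ / (a * M)) = Real.log Γ + Real.log (1 / a) + Real.log (1 / M) := by
    rw [← Real.log_mul (by positivity) (by positivity), ← Real.log_mul (by positivity) (by positivity)]
    congr 1
    field_simp
  have h4 : Real.log (1 / a) ≤ 1 / a := by
    have := Real.log_le_sub_one_of_pos (show (0 : ℝ) < 1 / a by positivity)
    linarith
  rw [h3]
  obtain ⟨V, hV⟩ : ∃ V : ℝ, V = 1 / M * Real.log Γ := ⟨_, rfl⟩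
  rw [← hV] at hV1 hV3 hl ⊢
  have h6 : 1 / a * 1 ≤ 1 / a * (2 * V) := mul_le_mul_of_nonneg_left hV3 (by linarith)
  have h7 : 1 * V ≤ 1 / a * V := mul_le_mul_of_nonneg_right hA (by linarith)
  linarith

lemma tau_big {M Γ τ : ℝ} {C C1 N k : ℕ} (hΓ : 2 ≤ Γ) (hM : 0 < M) (hM1 : M ≤ 1)
    (hC : C = C1 + (2 * N + 1) + k) (hτ : C * (1 / M) ^ C * Real.log Γ ≤ 2 * τ) :
    C1 / 2 * ((1 / M) ^ (2 * N) * (1 / M * Real.log Γ)) ≤ τ ∧
      C1 / 2 * (1 / M * Real.log Γ) ≤ τ := by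
  obtain ⟨hW, hX, hV1, hV3, hl0, hl⟩ := basicV hΓ hM hM1
  have hC1' : (C1 : ℝ) ≤ C := by exact_mod_cast (by omega : C1 ≤ C)
  have hXN : 1 ≤ (1 / M) ^ (2 * N) := one_le_pow₀ hX
  have hpow : (1 / M) ^ (2 * N) * (1 / M * Real.log Γ) ≤ (1 / M) ^ C * Real.log Γ := by
    have h3 : (1 / M) ^ (2 * N) * (1 / M * Real.log Γ) = (1 / M) ^ (2 * N + 1) * Real.log Γ := by
      rw [pow_succ]
      ring
    rw [h3]
    refine mul_le_mul_of_nonneg_right ?_ (by linarith)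
    exact pow_le_pow_right₀ hX (by omega)
  obtain ⟨V, hV⟩ : ∃ V : ℝ, V = 1 / M * Real.log Γ := ⟨_, rfl⟩
  rw [← hV] at hV1 hV3 hpow ⊢
  have hV0 : 0 ≤ V := by linarith
  have hC10 : (0 : ℝ) ≤ C1 := Nat.cast_nonneg _
  have hτN : C1 / 2 * ((1 / M) ^ (2 * N) * V) ≤ τ := by
    have h4 : (C : ℝ) * ((1 / M) ^ (2 * N) * V) ≤ 2 * τ := by
      refine le_trans ?_ hτ
      rw [mul_assoc]
      exact mul_le_mul_of_nonneg_left hpow (Nat.cast_nonneg _)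
    have h5 : (C1 : ℝ) * ((1 / M) ^ (2 * N) * V) ≤ C * ((1 / M) ^ (2 * N) * V) :=
      mul_le_mul_of_nonneg_right hC1' (by positivity)
    linarith
  refine ⟨hτN, le_trans ?_ hτN⟩
  refine mul_le_mul_of_nonneg_left ?_ (by positivity)
  calc V = 1 * V := (one_mul V).symm
    _ ≤ (1 / M) ^ (2 * N) * V := mul_le_mul_of_nonneg_right hXN hV0

lemma boundB {Γ M δ : ℝ} (Ct : ℕ) (hΓ : 2 ≤ Γ) (hM : 0 < M) (hM1 : M ≤ 1) (hδ : 0 < δ)
    (hδ8 : δ ≤ 1 / 128) :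
    1 ≤ Γ / (δ / 16 * M) ∧ 1 ≤ (Γ / (δ / 16 * M)) ^ Ct ∧
      Real.log (Γ / (δ / 16 * M)) ≤ 5 * (1 / (δ / 32)) * (1 / M * Real.log Γ) ∧
      Real.log ((Γ / (δ / 16 * M)) ^ Ct) ≤ 5 * Ct * (1 / (δ / 32)) * (1 / M * Real.log Γ) := by
  obtain ⟨hW, hX, hV1, hV3, hl0, hl⟩ := basicV hΓ hM hM1
  have hκ0 : 0 < δ / 16 * M := by positivity
  have hq2 : 1 ≤ Γ / (δ / 16 * M) := by
    rw [le_div_iff₀ hκ0]
    nlinarith
  have hA16 : 1 / (δ / 16) ≤ 1 / (δ / 32) :=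
    one_div_le_one_div_of_le (by positivity) (by linarith)
  have hq1 : Real.log (Γ / (δ / 16 * M)) ≤ 5 * (1 / (δ / 32)) * (1 / M * Real.log Γ) := by
    have h7 := log_quot_le hΓ hM hM1 (a := δ / 16) (by positivity) (by linarith)
    refine h7.trans ?_
    exact mul_le_mul_of_nonneg_right (by linarith) (by linarith)
  refine ⟨hq2, one_le_pow₀ hq2, hq1, ?_⟩
  rw [Real.log_pow]
  have h8 : (Ct : ℝ) * Real.log (Γ / (δ / 16 * M)) ≤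
      Ct * (5 * (1 / (δ / 32)) * (1 / M * Real.log Γ)) :=
    mul_le_mul_of_nonneg_left hq1 (Nat.cast_nonneg _)
  linarith

lemma boundB2 {Γ M δ B2 : ℝ} (hΓ : 2 ≤ Γ) (hM : 0 < M) (hM1 : M ≤ 1) (hδ : 0 < δ)
    (hδ8 : δ ≤ 1 / 128) (hB2 : B2 = (Γ + 1) / (δ / 32 * M)) :
    4 * (Γ + 1) ≤ B2 ∧ Real.log B2 ≤ 7 * (1 / (δ / 32)) * (1 / M * Real.log Γ) := by
  obtain ⟨hW, hX, hV1, hV3, hl0, hl⟩ := basicV hΓ hM hM1
  have hκ0 : 0 < δ / 32 * M := by positivity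
  have hB2a : 4 * (Γ + 1) ≤ B2 := by
    rw [hB2, le_div_iff₀ (by positivity)]
    have h8 : δ / 32 * M ≤ 1 / 4 := by nlinarith
    nlinarith
  refine ⟨hB2a, ?_⟩
  have h9 : B2 ≤ 2 * (Γ / (δ / 32 * M)) := by
    rw [hB2, ← mul_div_assoc]
    exact div_le_div_of_nonneg_right (by linarith) (by positivity)
  have h10 := log_quot_le hΓ hM hM1 (a := δ / 32) (by positivity) (by linarith)
  have h11 : Real.log B2 ≤ Real.log 2 + Real.log (Γ / (δ / 32 * M)) := by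
    rw [← Real.log_mul (by norm_num) (by positivity)]
    exact Real.log_le_log (by linarith) h9
  have h12 := Real.log_two_lt_d9
  have hA : 1 ≤ 1 / (δ / 32) := by rw [le_div_iff₀ (by positivity)]; linarith
  have h13 : 1 * (2 * (1 / M * Real.log Γ)) ≤ 1 / (δ / 32) * (2 * (1 / M * Real.log Γ)) :=
    mul_le_mul_of_nonneg_right hA (by linarith)
  linarith

lemma exps {Γ M δ lam τ A V : ℝ} {Ct C1 : ℕ} (hlam : 0 < lam) (hδ : 0 < δ) (hM : 0 < M)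
    (hA1 : 1 ≤ A) (hV3 : 1 ≤ 2 * V) (hΓ : 2 ≤ Γ) (hlogΓ : Real.log Γ ≤ V)
    (hτV : C1 / 2 * V ≤ τ) (hC1a : 80 * (Ct + 1) * A ≤ C1 * lam)
    (hlogB : Real.log ((Γ / (δ / 16 * M)) ^ Ct) ≤ 5 * Ct * A * V)
    (hlogq : Real.log (Γ / (δ / 16 * M)) ≤ 5 * A * V) :
    (Γ / (δ / 16 * M)) ^ Ct ≤ Real.exp (lam / 8 * τ) ∧
      Real.exp (-(lam / 4 * τ)) ≤ δ / 16 * M ∧ Real.exp (-(lam / 8 * τ)) ≤ 1 / 2 := by
  have hV0 : 0 < V := by linarith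
  have hκ0 : 0 < δ / 16 * M := by positivity
  have hq0 : 0 < Γ / (δ / 16 * M) := by positivity
  have hCt0 : (0 : ℝ) ≤ Ct := Nat.cast_nonneg _
  have hAV : 1 ≤ 2 * (A * V) := by
    have : 1 * (2 * V) ≤ A * (2 * V) := mul_le_mul_of_nonneg_right hA1 (by linarith)
    linarith
  have hCAV : 0 ≤ Ct * (A * V) := by positivity
  have h5 : 40 * (Ct * (A * V)) + 40 * (A * V) ≤ lam * τ := by
    have h6 : lam * (C1 / 2 * V) ≤ lam * τ := mul_le_mul_of_nonneg_left hτV hlam.le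
    have h7 : 80 * (Ct + 1) * A * V ≤ C1 * lam * V := mul_le_mul_of_nonneg_right hC1a hV0.le
    linarith
  refine ⟨?_, ?_, ?_⟩
  · rw [← Real.exp_log (show 0 < (Γ / (δ / 16 * M)) ^ Ct by positivity)]
    refine Real.exp_le_exp.mpr (hlogB.trans ?_)
    linarith
  · rw [← Real.exp_log hκ0]
    refine Real.exp_le_exp.mpr ?_
    have h21 : Real.log (Γ / (δ / 16 * M)) = Real.log Γ - Real.log (δ / 16 * M) :=
      Real.log_div (by linarith) hκ0.ne'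
    have h8 := Real.log_nonneg (show (1 : ℝ) ≤ Γ by linarith)
    linarith
  · have h26 : Real.exp (-(lam / 8 * τ)) ≤ Real.exp (-1) := Real.exp_le_exp.mpr (by linarith)
    have h27 := Real.exp_neg_one_lt_d9
    linarith

lemma large {c Cc T τ A V M B B2 : ℝ} {Ct C1 N : ℕ} (hc0 : 0 < c) (hCc1 : 1 ≤ Cc) (hA1 : 1 ≤ A)
    (hV3 : 1 ≤ 2 * V) (hT : T = 5 * Ct * A + 7 * A + 2 * N + 2) (hC1b : 4 * Cc * T ≤ C1 * c)
    (hX : 1 ≤ 1 / M) (hlogX0 : 0 ≤ Real.log (1 / M)) (hlogX : Real.log (1 / M) ≤ 2 * V)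
    (hB1 : 1 ≤ B) (hB21 : 1 ≤ B2) (hlogB : Real.log B ≤ 5 * Ct * A * V)
    (hlogB2 : Real.log B2 ≤ 7 * A * V) (hτN : C1 / 2 * ((1 / M) ^ (2 * N) * V) ≤ τ) :
    Cc * (Real.log (B * B2) + N * Real.log (1 / M) + 1) * (1 / M) ^ (2 * N) ≤ c / 2 * τ ∧
      Cc * (Real.log (B * B2) + 1) ≤ c / 2 * τ := by
  have hV0 : 0 < V := by linarith
  have hN0 : (0 : ℝ) ≤ N := Nat.cast_nonneg _
  have hXN : 1 ≤ (1 / M) ^ (2 * N) := one_le_pow₀ hX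
  have hsumlog : Real.log (B * B2) + N * Real.log (1 / M) + 1 ≤ T * V := by
    rw [Real.log_mul (by linarith) (by linarith), hT]
    have h14 : N * Real.log (1 / M) ≤ N * (2 * V) := mul_le_mul_of_nonneg_left hlogX hN0
    linarith
  have hBB0 : 0 ≤ Real.log (B * B2) := by
    rw [Real.log_mul (by linarith) (by linarith)]
    have := Real.log_nonneg hB1
    have := Real.log_nonneg hB21
    linarith
  have h17 : 0 ≤ (1 / M) ^ (2 * N) * V := by positivity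
  have hlarge : Cc * (Real.log (B * B2) + N * Real.log (1 / M) + 1) * (1 / M) ^ (2 * N) ≤
      c / 2 * τ := by
    have h15 : Cc * (Real.log (B * B2) + N * Real.log (1 / M) + 1) * (1 / M) ^ (2 * N) ≤
        Cc * (T * V) * (1 / M) ^ (2 * N) :=
      mul_le_mul_of_nonneg_right (mul_le_mul_of_nonneg_left hsumlog (by linarith)) (by positivity)
    have h16 : c / 2 * (C1 / 2 * ((1 / M) ^ (2 * N) * V)) ≤ c / 2 * τ :=
      mul_le_mul_of_nonneg_left hτN (by positivity)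
    have h18 : 4 * Cc * T * ((1 / M) ^ (2 * N) * V) ≤ C1 * c * ((1 / M) ^ (2 * N) * V) :=
      mul_le_mul_of_nonneg_right hC1b h17
    linarith
  refine ⟨hlarge, le_trans ?_ hlarge⟩
  have h18 : 0 ≤ (N : ℝ) * Real.log (1 / M) := by positivity
  have h19 : Cc * (Real.log (B * B2) + 1) ≤
      Cc * (Real.log (B * B2) + N * Real.log (1 / M) + 1) :=
    mul_le_mul_of_nonneg_left (by linarith) (by linarith)
  have h20 : 0 ≤ Cc * (Real.log (B * B2) + N * Real.log (1 / M) + 1) :=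
    mul_nonneg (by linarith) (by linarith)
  refine h19.trans ?_
  exact le_mul_of_one_le_right h20 hXN

lemma nrm_final {n0 n1 Cb B Γ M a : ℝ} {Ct k C : ℕ} (hCb1 : 1 ≤ Cb) (hΓ : 2 ≤ Γ) (hM : 0 < M)
    (hM1 : M ≤ 1) (ha : 0 < a) (h30 : n0 ≤ Cb * (n1 + B)) (h31 : n1 ≤ Γ + 1)
    (hB : B = (Γ / (a * M)) ^ Ct) (hk : Cb * (2 + (1 / a) ^ Ct) ≤ 2 ^ k) (hC : k + (Ct + 1) ≤ C) :
    n0 ≤ (Γ / M) ^ C := by
  have hZ2 : 2 ≤ Γ / M := by
    rw [le_div_iff₀ hM]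
    nlinarith
  obtain ⟨Z, hZ⟩ : ∃ Z : ℝ, Z = Γ / M := ⟨_, rfl⟩
  have hBZ : B = (1 / a) ^ Ct * Z ^ Ct := by
    rw [hB, hZ, ← mul_pow]
    congr 1
    field_simp
  have hΓZ : Γ ≤ Z := by
    rw [hZ, le_div_iff₀ hM]
    nlinarith
  rw [← hZ] at hZ2 ⊢
  have hZ1 : 1 ≤ Z := by linarith
  have h32 : Z ≤ Z ^ (Ct + 1) := le_self_pow₀ hZ1 (by omega)
  have h33 : Z ^ Ct ≤ Z ^ (Ct + 1) := pow_le_pow_right₀ hZ1 (by omega)
  have hPP : 0 < (1 / a) ^ Ct := by positivity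
  calc n0 ≤ Cb * (n1 + B) := h30
    _ ≤ Cb * (2 * Z ^ (Ct + 1) + (1 / a) ^ Ct * Z ^ (Ct + 1)) := by
        refine mul_le_mul_of_nonneg_left ?_ (by linarith)
        rw [hBZ]
        have h34 := mul_le_mul_of_nonneg_left h33 hPP.le
        linarith
    _ = Cb * (2 + (1 / a) ^ Ct) * Z ^ (Ct + 1) := by ring
    _ ≤ 2 ^ k * Z ^ (Ct + 1) := mul_le_mul_of_nonneg_right hk (by positivity)
    _ ≤ Z ^ k * Z ^ (Ct + 1) :=
        mul_le_mul_of_nonneg_right (pow_le_pow_left₀ (by norm_num) hZ2 k) (by positivity)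
    _ = Z ^ (k + (Ct + 1)) := (pow_add _ _ _).symm
    _ ≤ Z ^ C := pow_le_pow_right₀ hZ1 hC

theorem step_all {L : ℕ} {m : ℕ → ℕ} {lam : ℝ} (lac : Lac L m lam) (hTail : S_TAIL L m lam)
    (hDense : S_DENSE) (hFub : S_FUB) (hAvg : S_AVG) (hCheb : S_CHEB) (hCake : S_CAKE)
    (hBdd : S_BDD m lam) (hCore : S_CORE L m lam) : S_STEP m := by
  have hlam := lac.lam_pos
  have hlam1 := lac.lam_le
  have hL1 : (1 : ℝ) ≤ L := by exact_mod_cast lac.hL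
  obtain ⟨Ct, hCt1, hTail⟩ := hTail
  obtain ⟨Cb, hCb1, hBdd⟩ := hBdd
  obtain ⟨c, Cc, hc0, hCc1, hCore⟩ := hCore
  obtain ⟨δ0, hδ0⟩ : ∃ δ0 : ℝ, δ0 = 1 / (2 * ((L : ℝ) + 1)) := ⟨_, rfl⟩
  obtain ⟨δ, hδ⟩ : ∃ δ : ℝ, δ = δ0 ^ 2 / 8 := ⟨_, rfl⟩
  have hδ0p : 0 < δ0 := by rw [hδ0]; positivity
  have hδ04 : δ0 ≤ 1 / 4 := by
    rw [hδ0, div_le_div_iff₀ (by positivity) (by norm_num)]
    linarith
  have hδp : 0 < δ := by rw [hδ]; positivity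
  have hδ8 : δ ≤ 1 / 128 := by
    rw [hδ]
    have : δ0 ^ 2 ≤ (1 / 4) ^ 2 := pow_le_pow_left₀ hδ0p.le hδ04 2
    linarith
  obtain ⟨N, hN⟩ := exists_nat_ge (4 / δ)
  obtain ⟨A, hA⟩ : ∃ A : ℝ, A = 1 / (δ / 32) := ⟨_, rfl⟩
  have hA1 : 1 ≤ A := by
    rw [hA, le_div_iff₀ (by positivity)]
    linarith
  obtain ⟨T, hT⟩ : ∃ T : ℝ, T = 5 * Ct * A + 7 * A + 2 * N + 2 := ⟨_, rfl⟩
  have hT0 : 0 ≤ T := by rw [hT]; positivity
  obtain ⟨C1, hC1⟩ := exists_nat_ge (80 * (Ct + 1) * A / lam + 4 * Cc * T / c + 4 * m 0 + 4)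
  obtain ⟨k, hk⟩ := pow_unbounded_of_one_lt (Cb * (2 + (1 / (δ / 16)) ^ Ct)) (one_lt_two (α := ℝ))
  obtain ⟨C, hC⟩ : ∃ C : ℕ, C = C1 + (2 * N + 1) + (k + (Ct + 1)) := ⟨_, rfl⟩
  have hm0 : (0 : ℝ) ≤ m 0 := Nat.cast_nonneg _
  have e1 : 0 ≤ 80 * (Ct + 1) * A / lam := by positivity
  have e2 : 0 ≤ 4 * Cc * T / c := by positivity
  have hC1a : 80 * (Ct + 1) * A ≤ C1 * lam := by
    rw [← div_le_iff₀ hlam]
    linarith
  have hC1b : 4 * Cc * T ≤ C1 * c := by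
    rw [← div_le_iff₀ hc0]
    linarith
  have hC1c : 4 * (m 0 : ℝ) + 4 ≤ C1 := by linarith
  obtain ⟨c', hc'⟩ : ∃ c' : ℝ, c' = min (c / 4) (lam / 8) := ⟨_, rfl⟩
  have hc'0 : 0 < c' := by rw [hc']; exact lt_min (by positivity) (by positivity)
  have hc'1 : c' ≤ c / 4 := by rw [hc']; exact min_le_left _ _
  have hc'2 : c' ≤ lam / 8 := by rw [hc']; exact min_le_right _ _
  refine ⟨δ / 32, δ / 4, c', C, by positivity, by positivity, hc'0, by linarith, by omega, ?_⟩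
  intro G M Γ τ0 hG hM hM1 hΓ hnG hMG hτ0
  obtain ⟨τ, rfl⟩ : ∃ τ : ℝ, τ0 = 2 * τ := ⟨τ0 / 2, by ring⟩
  obtain ⟨hW, hX, hV1, hV3, hlogX0, hlogX⟩ := basicV hΓ hM hM1
  obtain ⟨hτN, hτV⟩ := tau_big hΓ hM hM1 hC hτ0
  obtain ⟨hq1, hB1, hlogq, hlogB⟩ := boundB Ct hΓ hM hM1 hδp hδ8
  obtain ⟨B2, hB2⟩ : ∃ B2 : ℝ, B2 = (Γ + 1) / (δ / 32 * M) := ⟨_, rfl⟩
  obtain ⟨hB2a, hlogB2⟩ := boundB2 hΓ hM hM1 hδp hδ8 hB2
  obtain ⟨V, hV⟩ : ∃ V : ℝ, V = 1 / M * Real.log Γ := ⟨_, rfl⟩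
  rw [← hV] at hV1 hV3 hlogX hτN hτV hlogq hlogB hlogB2
  rw [← hA] at hlogq hlogB hlogB2
  obtain ⟨hBexp, hκexp, h2exp⟩ := exps hlam hδp hM hA1 hV3 hΓ hV1 hτV hC1a hlogB hlogq
  have hB21 : 1 ≤ B2 := by linarith
  obtain ⟨hlarge, hlarge'⟩ := large hc0 hCc1 hA1 hV3 hT hC1b hX hlogX0 hlogX hB1 hB21 hlogB hlogB2 hτN
  have hC10 : (0 : ℝ) ≤ C1 := Nat.cast_nonneg _
  have hτ4 : (C1 : ℝ) / 4 ≤ τ := by
    have h6 : C1 / 4 * 1 ≤ (C1 : ℝ) / 4 * (2 * V) := mul_le_mul_of_nonneg_left hV3 (by positivity)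
    linarith
  have hτ1 : 1 ≤ τ := by linarith
  have hτm : (m 0 : ℝ) ≤ τ := by linarith
  obtain ⟨Y, h, K, E, d⟩ := exists_data lac hTail hDense hFub hAvg hCheb hδ0 hδ hG hM hM1 hΓ hnG hMG
    hτ1 hτm hBexp hκexp h2exp
  rcases d.cases with ⟨hY, hE⟩ | ⟨hY, hE⟩
  · left
    intro n
    exact terminal lac hc0 hFub hCheb hCore hG d hB1 hB2a hΓ (by linarith) hlarge' hY hE hc'0 hc'1
      hc'2 n
  · right
    obtain ⟨η, hη0, hη1, hη2⟩ := nonterminal lac hc0 hCc1 hFub hCake hAvg hCore hG d hB1 hB2 hB21 hδp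
      (by linarith) hM hM1 hΓ (by linarith) hN hlarge hY hE hc'0 hc'1
    have hh := d.h_pos
    have hh1 := d.h_le
    have hR0 : 0 < lam / 32 * h := by positivity
    have hR1 : lam / 32 * h ≤ 1 / 32 * (1 / 4) :=
      mul_le_mul (by linarith) hh1 hh.le (by norm_num)
    refine ⟨1 - lam / 32 * h, η, sc (1 - lam / 32 * h) (tp G (m K)), by linarith, by linarith, hη0,
      hη1, HL_sc (HL_tp hG _) _, ?_, ?_, hη2⟩
    · intro n
      rcases lt_or_ge n (-(m K : ℤ)) with h5 | h5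
      · left
        refine (d.tail n h5).trans (Real.exp_le_exp.mpr ?_)
        have h6 : c' * (2 * τ) ≤ lam / 8 * (2 * τ) := mul_le_mul_of_nonneg_right hc'2 (by linarith)
        linarith
      · right
        rw [sc_apply, tp_apply, if_pos h5, norm_mul, norm_zpow, Complex.norm_real,
          Real.norm_of_nonneg (by linarith)]
    · have h30 := nrm_sc_le hlam hlam1 hCb1 hBdd hAvg hG hh (by linarith) hB1 d.coef
      exact nrm_final hCb1 hΓ hM hM1 (a := δ / 16) (by positivity) h30 d.nrm_le rfl hk.le (by omega)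

end

end Pool.Agent.K9h98.HLp
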