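import Pool.Agent.K9h98.HLp.Basic

/-!
# MP_5bfbcb, Q2: the step, first part: the largest dense scale
-/

set_option autoImplicit false

namespace Pool.Agent.K9h98.HLp

open MeasureTheory AddCircle Complex Set Filter Topology Metric
open Pool.Agent.W767.HL

noncomputable section

/-- The data of a step. -/
structure Data (L : ℕ) (m : ℕ → ℕ) (lam : ℝ) (G : ℤ →₀ ℂ) (δ M Γ τ B : ℝ) (Y h : ℝ) (K : ℕ)
    (E : Set Ci) : Prop where
  Y_pos : 0 < Y
  Y_le : Y ≤ 1 / 2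
  h_eq : h = Y / (2 * ((L : ℝ) + 1))
  hK : h * m K ≤ τ
  coef : ∀ j, 1 ≤ j → j ≤ K → ‖G (-(m j : ℤ))‖ ≤ B * Real.exp (-(lam / 2) * (h * m j))
  meas : MeasurableSet E
  small : ∀ ψ ∈ E, hn (tp G (m K)) ψ ≤ Real.exp (-(lam / 8 * τ))
  mass : (1 - δ / 16) * M ≤ mu.real E
  cases : (Y = 1 / 2 ∧ 1 / 2 ≤ mu.real E) ∨ (2 * Y ≤ 1 / 2 ∧
    mu.real {θ | 1 - δ ≤ mu.real (E ∩ closedBall θ (2 * Y)) / (4 * Y)} < δ / 16 * M)
  tail : ∀ n : ℤ, n < -(m K : ℤ) → ‖G n‖ ≤ Real.exp (-(lam / 4 * τ))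
  nrm_le : nrm (tp G (m K)) ≤ Γ + 1

lemma Data.h_pos {L : ℕ} {m : ℕ → ℕ} {lam : ℝ} {G : ℤ →₀ ℂ} {δ M Γ τ B : ℝ} {Y h : ℝ} {K : ℕ}
    {E : Set Ci} (d : Data L m lam G δ M Γ τ B Y h K E) : 0 < h := by
  rw [d.h_eq]
  have := d.Y_pos
  positivity

lemma Data.h_le {L : ℕ} {m : ℕ → ℕ} {lam : ℝ} {G : ℤ →₀ ℂ} {δ M Γ τ B : ℝ} {Y h : ℝ} {K : ℕ}
    {E : Set Ci} (d : Data L m lam G δ M Γ τ B Y h K E) : h ≤ 1 / 4 := by
  rw [d.h_eq, div_le_iff₀ (by positivity)]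
  have h1 := d.Y_le
  have h2 : (0 : ℝ) ≤ L := Nat.cast_nonneg L
  linarith

theorem exists_data {L : ℕ} {m : ℕ → ℕ} {lam : ℝ} (lac : Lac L m lam) {Ct : ℕ}
    (hTail : ∀ (G : ℤ →₀ ℂ) (F : Set Ci) (τ B h : ℝ) (θ : Ci), HL m G → MeasurableSet F →
      1 ≤ τ → 0 < h → h ≤ 1 / 2 → 2 ≤ B → nrm G ≤ B → vv G (pt h θ) ≤ B →
      (∀ φ ∈ F, hn G φ ≤ Real.exp (-τ)) →
      1 - 1 / (2 * ((L : ℝ) + 1)) ≤ ∫ φ in F, P (pt h θ) φ ∂mu →
      (∀ j, 1 ≤ j → ‖G (-(m j : ℤ))‖ ≤ B ^ Ct * Real.exp (-(lam / 2) * min τ (h * m j))) ∧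
      ∀ j K, 1 ≤ j → j ≤ K → τ ≤ h * m j → B ^ Ct ≤ Real.exp (lam * τ) →
        ∑ i ∈ Finset.Icc j K, ‖G (-(m i : ℤ))‖ ^ 2 ≤ (B ^ Ct * Real.exp (-(lam / 2) * τ)) ^ 2)
    (hDense : S_DENSE) (hFub : S_FUB) (hAvg : S_AVG) (hCheb : S_CHEB)
    {G : ℤ →₀ ℂ} {M Γ τ δ0 δ : ℝ} (hδ0 : δ0 = 1 / (2 * ((L : ℝ) + 1))) (hδ : δ = δ0 ^ 2 / 8)
    (hG : HL m G) (hM0 : 0 < M) (hM1 : M ≤ 1) (hΓ : 2 ≤ Γ) (hn1 : nrm G ≤ Γ)
    (hM : M ≤ mu.real (Sm G (2 * τ))) (hτ1 : 1 ≤ τ) (hτ0 : (m 0 : ℝ) ≤ τ)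
    (hB : (Γ / (δ / 16 * M)) ^ Ct ≤ Real.exp (lam / 8 * τ))
    (hκ : Real.exp (-(lam / 4 * τ)) ≤ δ / 16 * M) (h2 : Real.exp (-(lam / 8 * τ)) ≤ 1 / 2) :
    ∃ (Y h : ℝ) (K : ℕ) (E : Set Ci), Data L m lam G δ M Γ τ ((Γ / (δ / 16 * M)) ^ Ct) Y h K E := by
  have hL1 : (1 : ℝ) ≤ L := by exact_mod_cast lac.hL
  have hδ0p : 0 < δ0 := by rw [hδ0]; positivity
  have hδ04 : δ0 ≤ 1 / 4 := by
    rw [hδ0, div_le_div_iff₀ (by positivity) (by norm_num)]
    linarith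
  have hδp : 0 < δ := by rw [hδ]; positivity
  have hδ8 : δ ≤ 1 / 128 := by rw [hδ]; nlinarith
  have hlam := lac.lam_pos
  have hlam1 := lac.lam_le
  obtain ⟨κ, hκd⟩ : ∃ κ : ℝ, κ = δ / 16 * M := ⟨_, rfl⟩
  rw [← hκd] at hB hκ ⊢
  have hκ0 : 0 < κ := by rw [hκd]; positivity
  have hκ1 : κ ≤ 1 / 2048 := by
    rw [hκd]
    nlinarith
  obtain ⟨B1, hB1⟩ : ∃ B1 : ℝ, B1 = Γ / κ := ⟨_, rfl⟩
  rw [← hB1] at hB ⊢
  have hB1Γ : Γ ≤ B1 := by
    rw [hB1, le_div_iff₀ hκ0]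
    nlinarith
  have hB12 : 2 ≤ B1 := hΓ.trans hB1Γ
  obtain ⟨hF1, hF2, hF3⟩ := hFub
  -- the set `F`
  obtain ⟨y0, hy0, hy1⟩ := unif G (τ := 2 * τ) (τ' := τ) (by linarith)
  set F := Sm G τ with hFdef
  have hFm : MeasurableSet F := measurableSet_Sm G τ
  set Yn : ℕ → ℝ := fun n => (1 / 2 : ℝ) ^ (n + 1) with hYn
  have hYn0 : ∀ n, 0 < Yn n := fun n => by simp only [hYn]; positivity
  have hYn1 : ∀ n, Yn n ≤ 1 / 2 := fun n => by
    simp only [hYn]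
    calc (1 / 2 : ℝ) ^ (n + 1) ≤ (1 / 2 : ℝ) ^ 1 :=
          pow_le_pow_of_le_one (by norm_num) (by norm_num) (by omega)
      _ = 1 / 2 := pow_one _
  set D : ℕ → Set Ci := fun n => {θ | (1 - δ) * (2 * Yn n) ≤ mu.real (F ∩ closedBall θ (Yn n))}
    with hD
  have hex : ∃ n, κ ≤ mu.real (D n) := by
    obtain ⟨n, hn⟩ := exists_pow_lt_of_lt_one hy0 (show (1 / 2 : ℝ) < 1 by norm_num)
    refine ⟨n, ?_⟩
    have hYy : Yn n ≤ y0 := by
      refine le_trans ?_ hn.le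
      simp only [hYn]
      exact pow_le_pow_of_le_one (by norm_num) (by norm_num) (by omega)
    have hsub : Sm G (2 * τ) ⊆ D n := by
      intro θ hθ
      have h3 : F ∩ closedBall θ (Yn n) = closedBall θ (Yn n) :=
        inter_eq_right.mpr ((closedBall_subset_closedBall hYy).trans (hy1 θ hθ))
      show (1 - δ) * (2 * Yn n) ≤ mu.real (F ∩ closedBall θ (Yn n))
      rw [h3, hF1 θ _ (hYn0 n).le (hYn1 n)]
      nlinarith [hYn0 n]
    have h4 : mu.real (Sm G (2 * τ)) ≤ mu.real (D n) := measureReal_mono hsub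
    rw [hκd]
    nlinarith
  classical
  obtain ⟨n, hnD, hnmin⟩ : ∃ n, κ ≤ mu.real (D n) ∧ ∀ k < n, ¬ κ ≤ mu.real (D k) :=
    ⟨Nat.find hex, Nat.find_spec hex, fun k hk => Nat.find_min hex hk⟩
  set Y := Yn n with hY
  have hY0 : 0 < Y := hYn0 n
  have hY1 : Y ≤ 1 / 2 := hYn1 n
  obtain ⟨h, hh⟩ : ∃ h : ℝ, h = δ0 * Y := ⟨_, rfl⟩
  have hh0 : 0 < h := by rw [hh]; positivity
  have hh1 : h ≤ 1 / 2 := by rw [hh]; nlinarith
  have hDm : MeasurableSet (D n) := measurableSet_le measurable_const (hF2 F Y hFm)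
  have hDpos : 0 < mu.real (D n) := hκ0.trans_le hnD
  obtain ⟨θs, hθs, hvs⟩ := (hAvg G h hh0 (by linarith)).1 (D n) hDm hDpos
  have hvs1 : vv G (pt h θs) ≤ B1 := by
    refine hvs.trans ?_
    rw [hB1]
    exact div_le_div₀ (by linarith) hn1 hκ0 hnD
  have hdens : 1 - 1 / (2 * ((L : ℝ) + 1)) ≤ ∫ φ in F, P (pt h θs) φ ∂mu := by
    have h5 := hDense δ0 Y θs F hδ0p (by linarith) hY0 hY1 hFm (by
      rw [← hδ]
      exact hθs)
    rw [← hδ0, hh]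
    exact h5
  obtain ⟨t1, t2⟩ := hTail G F τ B1 h θs hG hFm hτ1 hh0 hh1 hB12 (hn1.trans hB1Γ) hvs1
    (fun φ hφ => hφ) hdens
  -- the index `K`
  have hexK : ∃ k : ℕ, τ < h * m (k + 1) := by
    obtain ⟨k, hk⟩ := exists_nat_gt (τ / h)
    refine ⟨k, ?_⟩
    rw [div_lt_iff₀ hh0] at hk
    have h6 : (k : ℝ) ≤ m (k + 1) := by
      have h7 : k + 1 ≤ m (k + 1) := lac.mono.le_apply
      exact_mod_cast (Nat.le_succ k).trans h7
    nlinarith
  obtain ⟨K, hKD, hKmin⟩ : ∃ k, τ < h * m (k + 1) ∧ ∀ j < k, ¬ τ < h * m (j + 1) :=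
    ⟨Nat.find hexK, Nat.find_spec hexK, fun k hk => Nat.find_min hexK hk⟩
  have hKτ : h * m K ≤ τ := by
    rcases Nat.eq_zero_or_pos K with h0 | h0
    · rw [h0]
      have : (0 : ℝ) ≤ m 0 := Nat.cast_nonneg _
      nlinarith
    · have h8 := hKmin (K - 1) (by omega)
      rw [Nat.sub_add_cancel h0] at h8
      exact not_lt.mp h8
  set U := tp G (m K) with hU
  -- the tail
  have hexp1 : Real.exp (lam / 8 * τ) ≤ Real.exp (lam * τ) := by
    rw [Real.exp_le_exp]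
    nlinarith
  obtain ⟨K', hK', hsum⟩ := tail_sum lac.mono hG K
  have hsum2 := hsum.trans (t2 (K + 1) K' (by omega) hK' hKD.le (hB.trans hexp1))
  obtain ⟨s2, hs2⟩ : ∃ s2 : ℝ, s2 = B1 ^ Ct * Real.exp (-(lam / 2) * τ) := ⟨_, rfl⟩
  rw [← hs2] at hsum2
  have hs20 : 0 ≤ s2 := by rw [hs2]; positivity
  have hs2le : s2 ≤ Real.exp (-(3 * lam / 8 * τ)) := by
    rw [hs2]
    calc B1 ^ Ct * Real.exp (-(lam / 2) * τ)
        ≤ Real.exp (lam / 8 * τ) * Real.exp (-(lam / 2) * τ) :=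
          mul_le_mul_of_nonneg_right hB (Real.exp_pos _).le
      _ = Real.exp (-(3 * lam / 8 * τ)) := by
          rw [← Real.exp_add]
          congr 1
          ring
  have hs21 : s2 ≤ 1 := hs2le.trans (by
    rw [Real.exp_le_one_iff]
    have : 0 ≤ 3 * lam / 8 * τ := by positivity
    linarith)
  -- the set `E`
  set R := G - U with hR
  set E := F ∩ {θ | hn R θ ≤ Real.exp (-(lam / 4 * τ))} with hE
  have hRm : MeasurableSet {θ | hn R θ ≤ Real.exp (-(lam / 4 * τ))} :=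
    (isClosed_le (continuous_hn R) continuous_const).measurableSet
  have hEm : MeasurableSet E := hFm.inter hRm
  have hmass : mu.real F - κ ≤ mu.real E := by
    have c1 := (hCheb R (Real.exp (-(lam / 4 * τ))) (Real.exp_pos _)).1
    have c2 : mu.real {θ | Real.exp (-(lam / 4 * τ)) < hn R θ} ≤ κ := by
      refine c1.trans ?_
      refine le_trans (div_le_div_of_nonneg_right hsum2 (by positivity)) ?_
      rw [div_le_iff₀ (by positivity)]
      calc s2 ^ 2 ≤ Real.exp (-(3 * lam / 8 * τ)) ^ 2 := pow_le_pow_left₀ hs20 hs2le 2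
        _ = Real.exp (-(lam / 4 * τ)) * Real.exp (-(lam / 4 * τ)) ^ 2 := by
            rw [← Real.exp_nat_mul, ← Real.exp_nat_mul, ← Real.exp_add]
            congr 1
            push_cast
            ring
        _ ≤ κ * Real.exp (-(lam / 4 * τ)) ^ 2 :=
            mul_le_mul_of_nonneg_right hκ (by positivity)
    have c3 : F ⊆ E ∪ {θ | Real.exp (-(lam / 4 * τ)) < hn R θ} := by
      intro θ hθ
      by_cases hc : hn R θ ≤ Real.exp (-(lam / 4 * τ))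
      · exact Or.inl ⟨hθ, hc⟩
      · exact Or.inr (not_le.mp hc)
    have c4 : mu.real F ≤ mu.real E + mu.real {θ | Real.exp (-(lam / 4 * τ)) < hn R θ} :=
      (measureReal_mono c3).trans (measureReal_union_le _ _)
    linarith
  have hFM : M ≤ mu.real F := by
    refine hM.trans (measureReal_mono fun θ hθ => ?_)
    have h9 : hn G θ ≤ Real.exp (-(2 * τ)) := hθ
    exact h9.trans (Real.exp_le_exp.mpr (by linarith))
  refine ⟨Y, h, K, E, hY0, hY1, ?_, hKτ, ?_, hEm, ?_, ?_, ?_, ?_, ?_⟩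
  · rw [hh, hδ0]
    ring
  · intro j hj1 hjK
    have h10 : h * m j ≤ τ := by
      refine le_trans (mul_le_mul_of_nonneg_left ?_ hh0.le) hKτ
      exact_mod_cast lac.mono.monotone hjK
    have h11 := t1 j hj1
    rwa [min_eq_right h10] at h11
  · intro ψ hψ
    have h12 : hn G ψ ≤ Real.exp (-τ) := hψ.1
    have h13 : hn R ψ ≤ Real.exp (-(lam / 4 * τ)) := hψ.2
    have h14 : Real.exp (-τ) ≤ Real.exp (-(lam / 4 * τ)) := Real.exp_le_exp.mpr (by nlinarith)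
    have h15 : Real.exp (-(lam / 4 * τ)) = Real.exp (-(lam / 8 * τ)) * Real.exp (-(lam / 8 * τ)) := by
      rw [← Real.exp_add]
      congr 1
      ring
    have h16 := hn_sub_le G U ψ
    have h17 := Real.exp_pos (-(lam / 8 * τ))
    nlinarith
  · have : (1 - δ / 16) * M = M - κ := by rw [hκd]; ring
    rw [this]
    linarith
  · rcases Nat.eq_zero_or_pos n with h0 | h0
    · left
      have hYh : Y = 1 / 2 := by
        rw [hY, h0]
        simp only [hYn]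
        norm_num
      refine ⟨hYh, ?_⟩
      have h18 : (1 - δ) * (2 * Y) ≤ mu.real (F ∩ closedBall θs Y) := hθs
      have h19 : mu.real (F ∩ closedBall θs Y) ≤ mu.real F := measureReal_mono inter_subset_left
      rw [hYh] at h18 h19
      linarith
    · right
      have h20 : Yn (n - 1) = 2 * Y := by
        have h21 : n = (n - 1) + 1 := by omega
        rw [hY]
        simp only [hYn]
        conv_rhs => rw [h21]
        rw [pow_succ (1 / 2 : ℝ) ((n - 1) + 1)]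
        ring
      refine ⟨by rw [← h20]; exact hYn1 (n - 1), ?_⟩
      have h22 : mu.real (D (n - 1)) < κ := not_le.mp (hnmin (n - 1) (by omega))
      rw [← hκd]
      refine lt_of_le_of_lt (measureReal_mono fun θ hθ => ?_) h22
      have h23 : 1 - δ ≤ mu.real (E ∩ closedBall θ (2 * Y)) / (4 * Y) := hθ
      rw [le_div_iff₀ (by positivity)] at h23
      show (1 - δ) * (2 * Yn (n - 1)) ≤ mu.real (F ∩ closedBall θ (Yn (n - 1)))
      rw [h20]
      have h24 : mu.real (E ∩ closedBall θ (2 * Y)) ≤ mu.real (F ∩ closedBall θ (2 * Y)) :=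
        measureReal_mono (inter_subset_inter_left _ inter_subset_left)
      linarith
  · intro k hk
    have h25 : R k = G k := by
      rw [hR, hU, Finsupp.sub_apply, tp_apply, if_neg (by omega), sub_zero]
    have h26 : ‖R k‖ ^ 2 ≤ R.sum fun _ c => ‖c‖ ^ 2 := by
      by_cases hk0 : R k = 0
      · rw [hk0, norm_zero, zero_pow two_ne_zero]
        exact Finset.sum_nonneg fun _ _ => by positivity
      · exact Finset.single_le_sum (f := fun k => ‖R k‖ ^ 2) (fun _ _ => by positivity)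
          (Finsupp.mem_support_iff.mpr hk0)
    rw [← h25]
    have h27 : ‖R k‖ ≤ s2 := le_of_sq_le_sq (h26.trans hsum2) hs20
    refine h27.trans (hs2le.trans (Real.exp_le_exp.mpr ?_))
    nlinarith
  · have h28 := (hCheb R 1 one_pos).2.1
    have h29 : nrm R ≤ s2 := le_of_sq_le_sq (h28.trans hsum2) hs20
    have h30 := nrm_sub_le G U
    linarith

end

end Pool.Agent.K9h98.HLp
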