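import Pool.Agent.K9h98.HLp.StepA

/-!
# MP_5bfbcb, Q2: the step, second part: from the data to the next polynomial
-/

set_option autoImplicit false

namespace Pool.Agent.K9h98.HLp

open MeasureTheory AddCircle Complex Set Filter Topology Metric
open Pool.Agent.W767.HL

noncomputable section

/-- an arc with a part of `E` contains a small arc with a part of `E` -/
lemma find_phi (hFub : S_FUB) {E : Set Ci} (hE : MeasurableSet E) {Y y η : ℝ} {θ : Ci} (hy : 0 < y)
    (hyY : y ≤ Y) (hY : 2 * Y ≤ 1 / 2) (hη : 0 < η)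
    (hθ : η * (4 * Y) ≤ mu.real (E ∩ closedBall θ (2 * Y))) :
    ∃ φ, dist φ θ ≤ 3 * Y ∧ η * y ≤ mu.real (E ∩ closedBall φ y) := by
  obtain ⟨hF1, hF2, hF3⟩ := hFub
  have hY0 : 0 < Y := hy.trans_le hyY
  by_contra hcon
  push Not at hcon
  set E' := E ∩ closedBall θ (2 * Y) with hE'
  have hE'm : MeasurableSet E' := hE.inter isClosed_closedBall.measurableSet
  have hA : MeasurableSet (closedBall θ (3 * Y)) := isClosed_closedBall.measurableSet
  have h1 := hF3 (closedBall θ (3 * Y)) E' y hA hE'm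
  have h2 : ∫ ψ in E', mu.real (closedBall θ (3 * Y) ∩ closedBall ψ y) ∂mu = 2 * y * mu.real E' := by
    have h3 : ∫ ψ in E', mu.real (closedBall θ (3 * Y) ∩ closedBall ψ y) ∂mu = ∫ ψ in E', 2 * y ∂mu := by
      refine setIntegral_congr_fun hE'm fun ψ hψ => ?_
      have h4 : closedBall ψ y ⊆ closedBall θ (3 * Y) := by
        intro x hx
        have h5 := mem_closedBall.mp hx
        have h6 := mem_closedBall.mp hψ.2
        have h7 := dist_triangle x ψ θ
        exact mem_closedBall.mpr (by linarith)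
      show mu.real (closedBall θ (3 * Y) ∩ closedBall ψ y) = 2 * y
      rw [inter_eq_right.mpr h4]
      exact hF1 ψ y hy.le (by linarith)
    rw [h3, setIntegral_const, smul_eq_mul, mul_comm]
  rw [h2] at h1
  have hball : mu.real (closedBall θ (3 * Y)) ≤ 6 * Y := by
    rcases le_total (3 * Y) (1 / 2) with h8 | h8
    · rw [hF1 θ _ (by linarith) h8]
      linarith
    · have : mu.real (closedBall θ (3 * Y)) ≤ 1 := measureReal_le_one
      linarith
  have h9 : ∫ φ in closedBall θ (3 * Y), mu.real (E' ∩ closedBall φ y) ∂mu ≤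
      ∫ φ in closedBall θ (3 * Y), η * y ∂mu := by
    refine setIntegral_mono_on ?_ (integrable_const _) hA fun φ hφ => ?_
    · refine (Integrable.mono' (integrable_const (1 : ℝ)) (hF2 E' y hE'm).aestronglyMeasurable
        (Filter.Eventually.of_forall fun φ => ?_)).integrableOn
      rw [Real.norm_of_nonneg measureReal_nonneg]
      exact measureReal_le_one
    · have h10 := hcon φ (mem_closedBall.mp hφ)
      refine le_trans (measureReal_mono ?_) h10.le
      exact inter_subset_inter_left _ inter_subset_left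
  rw [h1, setIntegral_const, smul_eq_mul] at h9
  have h11 : mu.real (closedBall θ (3 * Y)) * (η * y) ≤ 6 * Y * (η * y) :=
    mul_le_mul_of_nonneg_right hball (by positivity)
  have h12 : 2 * y * (η * (4 * Y)) ≤ 2 * y * mu.real E' :=
    mul_le_mul_of_nonneg_left hθ (by positivity)
  have h13 : 0 < Y * (η * y) := by positivity
  nlinarith

/-- the whole circle -/
lemma find_phi0 (hFub : S_FUB) {E : Set Ci} (hE : MeasurableSet E) {y : ℝ} (hy : 0 < y)
    (hy1 : y ≤ 1 / 2) (hm : 1 / 2 ≤ mu.real E) : ∃ φ, y ≤ mu.real (E ∩ closedBall φ y) := by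
  obtain ⟨hF1, hF2, hF3⟩ := hFub
  by_contra hcon
  push Not at hcon
  have h1 := hF3 univ E y MeasurableSet.univ hE
  have h2 : ∫ ψ in E, mu.real (univ ∩ closedBall ψ y) ∂mu = 2 * y * mu.real E := by
    have h3 : ∫ ψ in E, mu.real (univ ∩ closedBall ψ y) ∂mu = ∫ ψ in E, 2 * y ∂mu := by
      refine setIntegral_congr_fun hE fun ψ _ => ?_
      show mu.real (univ ∩ closedBall ψ y) = 2 * y
      rw [univ_inter]
      exact hF1 ψ y hy.le hy1
    rw [h3, setIntegral_const, smul_eq_mul, mul_comm]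
  rw [h2, setIntegral_univ] at h1
  have hi : Integrable (fun φ : Ci => mu.real (E ∩ closedBall φ y)) mu := by
    refine Integrable.mono' (integrable_const (1 : ℝ)) (hF2 E y hE).aestronglyMeasurable
      (Filter.Eventually.of_forall fun φ => ?_)
    rw [Real.norm_of_nonneg measureReal_nonneg]
    exact measureReal_le_one
  have h4 : ∫ φ, (y - mu.real (E ∩ closedBall φ y)) ∂mu = y - 2 * y * mu.real E := by
    rw [integral_sub (integrable_const _) hi, h1, integral_const, probReal_univ, one_smul]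
  have h5 : 0 < ∫ φ, (y - mu.real (E ∩ closedBall φ y)) ∂mu := by
    have hi2 : Integrable (fun φ : Ci => y - mu.real (E ∩ closedBall φ y)) mu :=
      (integrable_const y).sub hi
    rw [integral_pos_iff_support_of_nonneg (fun φ => by
      have := hcon φ
      show 0 ≤ y - mu.real (E ∩ closedBall φ y)
      linarith) hi2]
    have h6 : Function.support (fun φ : Ci => y - mu.real (E ∩ closedBall φ y)) = univ := by
      ext φ
      simp only [Function.mem_support, mem_univ, iff_true]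
      have := hcon φ
      linarith
    rw [h6]
    simp
  rw [h4] at h5
  nlinarith

lemma nrm_sc_le {m : ℕ → ℕ} {lam Cb : ℝ} (hlam : 0 < lam) (hlam1 : lam ≤ 1) (hCb : 1 ≤ Cb)
    (hBdd : ∀ (G : ℤ →₀ ℂ) (h B : ℝ) (K : ℕ), HL m G → 0 < h → h ≤ 1 / 2 → 1 ≤ B →
      (∀ j, 1 ≤ j → j ≤ K → ‖G (-(m j : ℤ))‖ ≤ B * Real.exp (-(lam / 2) * (h * m j))) →
      ∀ z : ℂ, 1 - lam / 8 * h ≤ ‖z‖ → ‖z‖ < 1 →
        ‖ev (tp G (m K)) z‖ ≤ Cb * (vv (tp G (m K)) z + B))
    (hAvg : S_AVG) {G : ℤ →₀ ℂ} {h B : ℝ} {K : ℕ} (hG : HL m G) (hh : 0 < h) (hh1 : h ≤ 1 / 2)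
    (hB : 1 ≤ B)
    (hco : ∀ j, 1 ≤ j → j ≤ K → ‖G (-(m j : ℤ))‖ ≤ B * Real.exp (-(lam / 2) * (h * m j))) :
    nrm (sc (1 - lam / 32 * h) (tp G (m K))) ≤ Cb * (nrm (tp G (m K)) + B) := by
  have hR0 : 0 < lam / 32 * h := by positivity
  have hR1 : lam / 32 * h ≤ 1 := by nlinarith
  obtain ⟨-, -, hc, hi⟩ := hAvg (tp G (m K)) (lam / 32 * h) hR0 hR1
  have h1 : ∀ θ, hn (sc (1 - lam / 32 * h) (tp G (m K))) θ ≤
      Cb * (vv (tp G (m K)) (pt (lam / 32 * h) θ) + B) := by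
    intro θ
    rw [hn_sc]
    refine hBdd G h B K hG hh hh1 hB hco _ ?_ ?_
    · rw [norm_pt hR1]
      nlinarith
    · rw [norm_pt hR1]
      linarith
  have hvi : Integrable (fun θ => vv (tp G (m K)) (pt (lam / 32 * h) θ)) mu := integrable_of_cont hc
  calc nrm (sc (1 - lam / 32 * h) (tp G (m K)))
      ≤ ∫ θ, Cb * (vv (tp G (m K)) (pt (lam / 32 * h) θ) + B) ∂mu :=
        integral_mono (integrable_hn _) ((hvi.add (integrable_const B)).const_mul Cb) h1
    _ = Cb * (nrm (tp G (m K)) + B) := by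
        rw [integral_const_mul, integral_add hvi (integrable_const B), hi, integral_const,
          probReal_univ, one_smul]

lemma vv_half_le (G : ℤ →₀ ℂ) (θ : Ci) : vv G (pt (1 / 2) θ) ≤ 4 * nrm G := by
  have hw : ‖pt (1 / 2) θ‖ < 1 := by rw [norm_pt (by norm_num)]; norm_num
  unfold vv nrm
  rw [← integral_const_mul]
  refine integral_mono (by simpa using integrable_P_mul hw (integrable_hn G))
    ((integrable_hn G).const_mul 4) fun φ => ?_
  simp only
  refine mul_le_mul_of_nonneg_right ?_ (hn_nonneg G φ)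
  refine (P_le hw φ).trans ?_
  rw [norm_pt (by norm_num)]
  norm_num

/-- The terminal case. -/
lemma terminal {L : ℕ} {m : ℕ → ℕ} {lam : ℝ} (lac : Lac L m lam) {c C : ℝ} (hc : 0 < c)
    (hFub : S_FUB) (hCheb : S_CHEB)
    (hCore : ∀ (G : ℤ →₀ ℂ) (Y h y τ B η : ℝ) (K : ℕ) (E : Set Ci) (θ φ : Ci), HL m G → 0 < Y →
      Y ≤ 1 / 2 → h = Y / (2 * ((L : ℝ) + 1)) → 0 < η → η ≤ 1 → y = lam / 5184 * η * h → 1 ≤ B →
      0 ≤ τ → h * m K ≤ τ →
      (∀ j, 1 ≤ j → j ≤ K → ‖G (-(m j : ℤ))‖ ≤ B * Real.exp (-(lam / 2) * (h * m j))) →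
      MeasurableSet E → (∀ ψ ∈ E, hn (tp G (m K)) ψ ≤ Real.exp (-(lam / 8 * τ))) →
      dist φ θ ≤ 3 * Y → η * y ≤ mu.real (E ∩ closedBall φ y) → vv (tp G (m K)) (pt Y θ) ≤ B →
      ‖ev (tp G (m K)) (pt (lam / 32 * h) θ)‖ ≤
        Real.exp (-(c * η ^ 2 * τ) + C * (Real.log B + Real.log (1 / η) + 1)))
    {G : ℤ →₀ ℂ} {δ M Γ τ B B2 Y h : ℝ} {K : ℕ} {E : Set Ci} (hG : HL m G)
    (d : Data L m lam G δ M Γ τ B Y h K E) (hB : 1 ≤ B) (hB2 : 4 * (Γ + 1) ≤ B2) (hΓ : 2 ≤ Γ)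
    (hτ : 0 ≤ τ) (hlarge : C * (Real.log (B * B2) + 1) ≤ c / 2 * τ) (hY : Y = 1 / 2)
    (hE : 1 / 2 ≤ mu.real E) {c' : ℝ} (hc'0 : 0 < c') (hc' : c' ≤ c / 4) (hc'2 : c' ≤ lam / 8) (n : ℤ) :
    ‖G n‖ ≤ 2 ^ n.natAbs * Real.exp (-(c' * (2 * τ))) := by
  have hlam := lac.lam_pos
  have hlam1 := lac.lam_le
  have hh := d.h_pos
  have hh1 := d.h_le
  have hB2' : 1 ≤ B2 := by linarith
  have hBB : 1 ≤ B * B2 := by nlinarith
  have hy : 0 < lam / 5184 * 1 * h := by positivity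
  obtain ⟨φ, hφ⟩ := find_phi0 hFub d.meas hy (by nlinarith) hE
  set U := tp G (m K) with hU
  set ρ := 1 - lam / 32 * h with hρ
  have hρ0 : 1 / 2 ≤ ρ := by nlinarith
  have hρ1 : ρ < 1 := by
    have : 0 < lam / 32 * h := by positivity
    linarith
  have key : ∀ θ, hn (sc ρ U) θ ≤ Real.exp (-(c' * (2 * τ))) := by
    intro θ
    rw [hρ, hn_sc]
    have h1 := hCore G Y h (lam / 5184 * 1 * h) τ (B * B2) 1 K E θ φ hG d.Y_pos d.Y_le d.h_eq one_pos
      le_rfl rfl hBB hτ d.hK (fun j hj1 hj2 => (d.coef j hj1 hj2).trans (by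
        refine mul_le_mul_of_nonneg_right ?_ (Real.exp_pos _).le
        nlinarith)) d.meas d.small (by
        rw [hY]
        have h2 : dist φ θ ≤ 1 / 2 := by
          rw [dist_eq_norm]
          have := AddCircle.norm_le_half_period (1 : ℝ) (x := φ - θ) one_ne_zero
          simpa using this
        linarith) (by rw [one_mul]; exact hφ) (by
        rw [hY]
        have h3 := vv_half_le U θ
        have h4 := d.nrm_le
        nlinarith)
    refine h1.trans (Real.exp_le_exp.mpr ?_)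
    rw [div_one, Real.log_one, add_zero, one_pow, mul_one]
    nlinarith
  have hnrm : nrm (sc ρ U) ≤ Real.exp (-(c' * (2 * τ))) := by
    have : nrm (sc ρ U) ≤ ∫ _θ, Real.exp (-(c' * (2 * τ))) ∂mu :=
      integral_mono (integrable_hn _) (integrable_const _) key
    rwa [integral_const, probReal_univ, one_smul] at this
  have h2n : (1 : ℝ) ≤ 2 ^ n.natAbs := one_le_pow₀ (by norm_num)
  rcases lt_or_ge n (-(m K : ℤ)) with h5 | h5
  · refine (d.tail n h5).trans ?_
    have h6 : Real.exp (-(lam / 4 * τ)) ≤ Real.exp (-(c' * (2 * τ))) :=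
      Real.exp_le_exp.mpr (by nlinarith)
    have h7 := Real.exp_pos (-(c' * (2 * τ)))
    nlinarith
  · have h8 : ‖sc ρ U n‖ ≤ Real.exp (-(c' * (2 * τ))) := ((hCheb (sc ρ U) 1 one_pos).2.2 n).trans hnrm
    rw [sc_apply, hU, tp_apply, if_pos h5, norm_mul, norm_zpow, Complex.norm_real,
      Real.norm_of_nonneg (by linarith)] at h8
    have hρp : 0 < ρ := by linarith
    have h9 : (1 : ℝ) ≤ 2 ^ n.natAbs * ρ ^ n := by
      rcases le_total 0 n with h10 | h10
      · lift n to ℕ using h10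
        rw [zpow_natCast, Int.natAbs_natCast, ← mul_pow]
        exact one_le_pow₀ (by linarith)
      · have h11 : (1 : ℝ) ≤ ρ ^ n := by
          have h12 : ρ ^ n = (ρ⁻¹) ^ n.natAbs := by
            have h12' : n = -(n.natAbs : ℤ) := by omega
            conv_lhs => rw [h12']
            rw [zpow_neg, zpow_natCast, inv_pow]
          rw [h12]
          exact one_le_pow₀ ((one_le_inv₀ hρp).mpr hρ1.le)
        nlinarith
    have h13 : 0 ≤ ‖G n‖ := norm_nonneg _
    calc ‖G n‖ = 1 * ‖G n‖ := (one_mul _).symm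
      _ ≤ (2 ^ n.natAbs * ρ ^ n) * ‖G n‖ := mul_le_mul_of_nonneg_right h9 h13
      _ = 2 ^ n.natAbs * (ρ ^ n * ‖G n‖) := by ring
      _ ≤ 2 ^ n.natAbs * Real.exp (-(c' * (2 * τ))) := mul_le_mul_of_nonneg_left h8 (by positivity)

/-- The other case. -/
lemma nonterminal {L : ℕ} {m : ℕ → ℕ} {lam : ℝ} (lac : Lac L m lam) {c C : ℝ} (hc : 0 < c)
    (hC : 1 ≤ C) (hFub : S_FUB) (hCake : S_CAKE) (hAvg : S_AVG)
    (hCore : ∀ (G : ℤ →₀ ℂ) (Y h y τ B η : ℝ) (K : ℕ) (E : Set Ci) (θ φ : Ci), HL m G → 0 < Y →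
      Y ≤ 1 / 2 → h = Y / (2 * ((L : ℝ) + 1)) → 0 < η → η ≤ 1 → y = lam / 5184 * η * h → 1 ≤ B →
      0 ≤ τ → h * m K ≤ τ →
      (∀ j, 1 ≤ j → j ≤ K → ‖G (-(m j : ℤ))‖ ≤ B * Real.exp (-(lam / 2) * (h * m j))) →
      MeasurableSet E → (∀ ψ ∈ E, hn (tp G (m K)) ψ ≤ Real.exp (-(lam / 8 * τ))) →
      dist φ θ ≤ 3 * Y → η * y ≤ mu.real (E ∩ closedBall φ y) → vv (tp G (m K)) (pt Y θ) ≤ B →
      ‖ev (tp G (m K)) (pt (lam / 32 * h) θ)‖ ≤
        Real.exp (-(c * η ^ 2 * τ) + C * (Real.log B + Real.log (1 / η) + 1)))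
    {G : ℤ →₀ ℂ} {δ M Γ τ B B2 Y h : ℝ} {K : ℕ} {E : Set Ci} (hG : HL m G)
    (d : Data L m lam G δ M Γ τ B Y h K E) (hB : 1 ≤ B) (hB2 : B2 = (Γ + 1) / (δ / 32 * M))
    (hB21 : 1 ≤ B2) (hδ : 0 < δ) (hδ8 : δ ≤ 1 / 8) (hM : 0 < M) (hM1 : M ≤ 1) (hΓ : 2 ≤ Γ)
    (hτ : 0 ≤ τ) {N : ℕ} (hN : 4 / δ ≤ N)
    (hlarge : C * (Real.log (B * B2) + N * Real.log (1 / M) + 1) * (1 / M) ^ (2 * N) ≤ c / 2 * τ)
    (hY : 2 * Y ≤ 1 / 2)
    (hcs : mu.real {θ | 1 - δ ≤ mu.real (E ∩ closedBall θ (2 * Y)) / (4 * Y)} < δ / 16 * M)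
    {c' : ℝ} (hc'0 : 0 < c') (hc' : c' ≤ c / 4) :
    ∃ η : ℝ, 0 < η ∧ η ≤ 1 ∧ (1 + δ / 32) * η ^ (-(δ / 4)) * M ≤
      mu.real (Sm (sc (1 - lam / 32 * h) (tp G (m K))) (c' * η ^ 2 * (2 * τ))) := by
  have hlam := lac.lam_pos
  have hlam1 := lac.lam_le
  have hh := d.h_pos
  have hh1 := d.h_le
  have hY0 := d.Y_pos
  have hE := d.meas
  have hFub' := hFub
  obtain ⟨hF1, hF2, hF3⟩ := hFub
  set U := tp G (m K) with hU
  -- the density
  set dd : Ci → ℝ := fun θ => mu.real (E ∩ closedBall θ (2 * Y)) / (4 * Y) with hdd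
  have hdm : Measurable dd := (hF2 E (2 * Y) hE).div_const _
  have hd0 : ∀ θ, 0 ≤ dd θ := fun θ => by
    simp only [hdd]
    have : 0 ≤ mu.real (E ∩ closedBall θ (2 * Y)) := measureReal_nonneg
    positivity
  have hd1 : ∀ θ, dd θ ≤ 1 := fun θ => by
    simp only [hdd]
    rw [div_le_one (by positivity)]
    have h1 : mu.real (E ∩ closedBall θ (2 * Y)) ≤ mu.real (closedBall θ (2 * Y)) :=
      measureReal_mono inter_subset_right
    rw [hF1 θ (2 * Y) (by linarith) hY] at h1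
    linarith
  have hdi : ∫ θ, dd θ ∂mu = mu.real E := by
    simp only [hdd]
    rw [integral_div, ← setIntegral_univ, hF3 univ E (2 * Y) MeasurableSet.univ hE]
    have h3 : ∫ ψ in E, mu.real (univ ∩ closedBall ψ (2 * Y)) ∂mu = ∫ ψ in E, 4 * Y ∂mu := by
      refine setIntegral_congr_fun hE fun ψ _ => ?_
      show mu.real (univ ∩ closedBall ψ (2 * Y)) = 4 * Y
      rw [univ_inter, hF1 ψ (2 * Y) (by linarith) hY]
      ring
    rw [h3, setIntegral_const, smul_eq_mul]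
    field_simp
  obtain ⟨η, hη0, hη1, hηM⟩ := hCake δ M dd hδ hδ8 hM hdm hd0 hd1 (by rw [hdi]; exact d.mass) hcs
  refine ⟨η, hη0, hη1, ?_⟩
  -- bounds for `η`
  obtain ⟨H, hH⟩ : ∃ H : ℝ, H = η ^ (-(δ / 4)) := ⟨_, rfl⟩
  rw [← hH] at hηM ⊢
  have hH1 : 1 ≤ H := by
    rw [hH]
    exact Real.one_le_rpow_of_pos_of_le_one_of_nonpos hη0 hη1 (by linarith)
  have hHM : H * M ≤ 1 := by
    have h4 : mu.real {θ | η ≤ dd θ} ≤ 1 := measureReal_le_one
    have h5 : 0 < H * M := by positivity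
    nlinarith
  have hHM' : H ≤ 1 / M := by rwa [le_div_iff₀ hM]
  have hinv : 1 / η ≤ (1 / M) ^ N := by
    have h6 : 1 / η = H ^ (4 / δ) := by
      rw [hH, ← Real.rpow_mul hη0.le]
      have : -(δ / 4) * (4 / δ) = -1 := by field_simp
      rw [this, Real.rpow_neg_one, one_div]
    rw [h6, ← Real.rpow_natCast]
    calc H ^ (4 / δ) ≤ H ^ (N : ℝ) := Real.rpow_le_rpow_of_exponent_le hH1 hN
      _ ≤ (1 / M) ^ (N : ℝ) := Real.rpow_le_rpow (by linarith) hHM' (Nat.cast_nonneg N)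
  have h1M : 1 ≤ 1 / M := by rw [le_div_iff₀ hM]; linarith
  have h1η : 1 ≤ 1 / η := by rw [le_div_iff₀ hη0]; linarith
  have hlogη : Real.log (1 / η) ≤ N * Real.log (1 / M) := by
    rw [← Real.log_pow]
    exact Real.log_le_log (by positivity) hinv
  have hBB : 1 ≤ B * B2 := by nlinarith
  have hlogB : 0 ≤ Real.log (B * B2) := Real.log_nonneg hBB
  have hlogM : 0 ≤ Real.log (1 / M) := Real.log_nonneg h1M
  have hlogη0 : 0 ≤ Real.log (1 / η) := Real.log_nonneg h1η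
  have hlarge2 : C * (Real.log (B * B2) + Real.log (1 / η) + 1) ≤ c / 2 * η ^ 2 * τ := by
    have h7 : C * (Real.log (B * B2) + Real.log (1 / η) + 1) ≤
        C * (Real.log (B * B2) + N * Real.log (1 / M) + 1) :=
      mul_le_mul_of_nonneg_left (by linarith) (by linarith)
    have h8 : (1 / η) ^ 2 ≤ (1 / M) ^ (2 * N) := by
      rw [mul_comm 2 N, pow_mul]
      exact pow_le_pow_left₀ (by positivity) hinv 2
    have h9 : 0 ≤ C * (Real.log (B * B2) + N * Real.log (1 / M) + 1) := by positivity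
    have h10 : C * (Real.log (B * B2) + N * Real.log (1 / M) + 1) * (1 / η) ^ 2 ≤ c / 2 * τ :=
      (mul_le_mul_of_nonneg_left h8 h9).trans hlarge
    have h11 : C * (Real.log (B * B2) + N * Real.log (1 / M) + 1) ≤ c / 2 * τ * η ^ 2 := by
      have h10' : (1 / η) ^ 2 = 1 / η ^ 2 := by rw [one_div_pow]
      rw [h10', mul_one_div, div_le_iff₀ (by positivity)] at h10
      exact h10
    linarith
  -- the bad set
  obtain ⟨-, hMk, hcv, -⟩ := hAvg U Y hY0 (by linarith [d.Y_le])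
  have hbad : mu.real {θ | B2 < vv U (pt Y θ)} ≤ δ / 32 * M := by
    refine (hMk B2 (by linarith)).trans ?_
    rw [div_le_iff₀ (by linarith), hB2]
    have h12 := d.nrm_le
    have h13 : δ / 32 * M * ((Γ + 1) / (δ / 32 * M)) = Γ + 1 := by
      have : δ / 32 * M ≠ 0 := by positivity
      field_simp
    rw [h13]
    exact h12
  -- the inclusion
  have hsub : {θ | η ≤ dd θ} ⊆ Sm (sc (1 - lam / 32 * h) U) (c' * η ^ 2 * (2 * τ)) ∪
      {θ | B2 < vv U (pt Y θ)} := by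
    intro θ hθ
    by_cases hb : B2 < vv U (pt Y θ)
    · exact Or.inr hb
    left
    have hθ1 : η * (4 * Y) ≤ mu.real (E ∩ closedBall θ (2 * Y)) := by
      have h14 : η ≤ mu.real (E ∩ closedBall θ (2 * Y)) / (4 * Y) := hθ
      rwa [le_div_iff₀ (by positivity)] at h14
    have hy : 0 < lam / 5184 * η * h := by positivity
    have hhY : h ≤ Y := by
      rw [d.h_eq, div_le_iff₀ (by positivity)]
      have : (0 : ℝ) ≤ L := Nat.cast_nonneg L
      nlinarith
    have hyY : lam / 5184 * η * h ≤ Y := by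
      have h15 : lam / 5184 * η ≤ 1 := by nlinarith
      nlinarith
    obtain ⟨φ, hφ1, hφ2⟩ := find_phi hFub' hE hy hyY hY hη0 hθ1
    have h1 := hCore G Y h (lam / 5184 * η * h) τ (B * B2) η K E θ φ hG d.Y_pos d.Y_le d.h_eq hη0
      hη1 rfl hBB hτ d.hK (fun j hj1 hj2 => (d.coef j hj1 hj2).trans (by
        refine mul_le_mul_of_nonneg_right ?_ (Real.exp_pos _).le
        nlinarith)) d.meas d.small hφ1 hφ2 (by
        have := not_lt.mp hb
        nlinarith)
    show hn (sc (1 - lam / 32 * h) U) θ ≤ Real.exp (-(c' * η ^ 2 * (2 * τ)))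
    rw [hn_sc]
    refine h1.trans (Real.exp_le_exp.mpr ?_)
    have h16 : 0 ≤ η ^ 2 * τ := by positivity
    nlinarith
  have h17 : mu.real {θ | η ≤ dd θ} ≤
      mu.real (Sm (sc (1 - lam / 32 * h) U) (c' * η ^ 2 * (2 * τ))) +
        mu.real {θ | B2 < vv U (pt Y θ)} :=
    (measureReal_mono hsub).trans (measureReal_union_le _ _)
  have h18 : δ / 32 * M ≤ δ / 32 * (H * M) := by
    have h19 : M ≤ H * M := by nlinarith
    exact mul_le_mul_of_nonneg_left h19 (by positivity)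
  have h20 : (1 + δ / 32) * H * M + δ / 32 * (H * M) = (1 + δ / 16) * H * M := by ring
  linarith

end

end Pool.Agent.K9h98.HLp
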