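import Pool.Agent.W767.HL.Main

/-!
# MP_5bfbcb, Q2: `log |g|` belongs to some `L^p` for every half-lacunary series `g ≠ 0`.
Definitions and statements of the leaves.

Everything is done for finite Laurent polynomials `G : ℤ →₀ ℂ` (`ev G z = ∑ G n z ^ n`).
-/

set_option autoImplicit false

namespace Pool.Agent.K9h98.HLp

open MeasureTheory AddCircle Complex Set Filter Topology Metric
open Pool.Agent.W767.HL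

noncomputable section

/-- the lacunary data: the sequence `m`, the number `L` of auxiliary coordinates and the ratio `lam` -/
structure Lac (L : ℕ) (m : ℕ → ℕ) (lam : ℝ) : Prop where
  hL : 0 < L
  mono : StrictMono m
  pos : 0 < m 0
  gap : ∀ j, L ≤ j → m (j - L) + m (j - 1) ≤ m j
  lam_pos : 0 < lam
  lam_le : lam ≤ 1
  ratio : ∀ j, 1 ≤ j → lam * m j + m (j - 1) ≤ m j

/-- half-lacunary Laurent polynomials -/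
def HL (m : ℕ → ℕ) (G : ℤ →₀ ℂ) : Prop :=
  ∀ j, 1 ≤ j → ∀ n : ℤ, -(m j : ℤ) < n → n < -(m (j - 1) : ℤ) → G n = 0

/-- the modulus on the circle -/
def hn (G : ℤ →₀ ℂ) (θ : Ci) : ℝ := ‖ev G (ze θ)‖

/-- the norm in `L¹` of the circle -/
def nrm (G : ℤ →₀ ℂ) : ℝ := ∫ θ, hn G θ ∂mu

/-- the Poisson integral of the modulus -/
def vv (G : ℤ →₀ ℂ) (z : ℂ) : ℝ := ∫ θ, P z θ * hn G θ ∂mu

/-- the point of the disc at height `h` over `θ` -/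
def pt (h : ℝ) (θ : Ci) : ℂ := ((1 - h : ℝ) : ℂ) * ze θ

/-- the set where `G` is small -/
def Sm (G : ℤ →₀ ℂ) (τ : ℝ) : Set Ci := {θ | hn G θ ≤ Real.exp (-τ)}

/-- truncation: the frequencies `≥ -N` -/
def tp (G : ℤ →₀ ℂ) (N : ℕ) : ℤ →₀ ℂ := G.filter fun n => -(N : ℤ) ≤ n

/-- restriction to a smaller circle: `ev (sc ρ G) z = ev G (ρ z)` -/
def sc (ρ : ℝ) (G : ℤ →₀ ℂ) : ℤ →₀ ℂ :=
  Finsupp.onFinset G.support (fun n => (ρ : ℂ) ^ n * G n) fun n h => by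
    rw [Finsupp.mem_support_iff]
    exact right_ne_zero_of_mul h

/-- Leaf TAIL: decay of the coefficients `G (-m j)` if `G` is small on a set `F` which fills the
circle, seen from the point `pt h θ`, up to `1 / (2 (L + 1))`. -/
def S_TAIL (L : ℕ) (m : ℕ → ℕ) (lam : ℝ) : Prop :=
  ∃ C : ℕ, 1 ≤ C ∧ ∀ (G : ℤ →₀ ℂ) (F : Set Ci) (τ B h : ℝ) (θ : Ci), HL m G → MeasurableSet F →
    1 ≤ τ → 0 < h → h ≤ 1 / 2 → 2 ≤ B → nrm G ≤ B → vv G (pt h θ) ≤ B →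
    (∀ φ ∈ F, hn G φ ≤ Real.exp (-τ)) →
    1 - 1 / (2 * ((L : ℝ) + 1)) ≤ ∫ φ in F, P (pt h θ) φ ∂mu →
    (∀ j, 1 ≤ j → ‖G (-(m j : ℤ))‖ ≤ B ^ C * Real.exp (-(lam / 2) * min τ (h * m j))) ∧
    ∀ j K, 1 ≤ j → j ≤ K → τ ≤ h * m j → B ^ C ≤ Real.exp (lam * τ) →
      ∑ i ∈ Finset.Icc j K, ‖G (-(m i : ℤ))‖ ^ 2 ≤ (B ^ C * Real.exp (-(lam / 2) * τ)) ^ 2

/-- Leaf DENSE: if `E` is dense in an arc then it fills the circle, seen from a point over the arc. -/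
def S_DENSE : Prop :=
  ∀ (δ Y : ℝ) (θ : Ci) (E : Set Ci), 0 < δ → δ ≤ 1 / 2 → 0 < Y → Y ≤ 1 / 2 → MeasurableSet E →
    (1 - δ ^ 2 / 8) * (2 * Y) ≤ mu.real (E ∩ closedBall θ Y) →
    1 - δ ≤ ∫ φ in E, P (pt (δ * Y) θ) φ ∂mu

/-- Leaf NEAR: harmonic measure of a set with a part in the near arc. -/
def S_NEAR : Prop :=
  ∀ (η y : ℝ) (φ : Ci) (E : Set Ci) (z : ℂ), 0 < η → 0 < y → y ≤ 1 / 2 → MeasurableSet E →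
    η * y ≤ mu.real (E ∩ closedBall φ y) → ‖z‖ ≤ 1 - y → ‖z - pt y φ‖ ≤ y →
    η / 81 ≤ ∫ ψ in E, P z ψ ∂mu

/-- Leaf HARN: Harnack's inequality. -/
def S_HARN : Prop :=
  ∀ (G : ℤ →₀ ℂ) (z w : ℂ), ‖z‖ < 1 → ‖w‖ < 1 →
    vv G z ≤ (1 - ‖z‖ ^ 2) / (1 - ‖w‖ ^ 2) * (1 + ‖z - w‖ / (1 - ‖z‖)) ^ 2 * vv G w

/-- Leaf FUB: the measures of the intersections with arcs. -/
def S_FUB : Prop :=
  (∀ (φ : Ci) (y : ℝ), 0 ≤ y → y ≤ 1 / 2 → mu.real (closedBall φ y) = 2 * y) ∧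
  (∀ (E : Set Ci) (y : ℝ), MeasurableSet E → Measurable fun φ : Ci => mu.real (E ∩ closedBall φ y)) ∧
  (∀ (A E : Set Ci) (y : ℝ), MeasurableSet A → MeasurableSet E →
    ∫ φ in A, mu.real (E ∩ closedBall φ y) ∂mu = ∫ ψ in E, mu.real (A ∩ closedBall ψ y) ∂mu)

/-- Leaf CAKE: a function with few large values has a level set which is larger than expected. -/
def S_CAKE : Prop :=
  ∀ (δ M : ℝ) (d : Ci → ℝ), 0 < δ → δ ≤ 1 / 8 → 0 < M → Measurable d → (∀ θ, 0 ≤ d θ) →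
    (∀ θ, d θ ≤ 1) → (1 - δ / 16) * M ≤ ∫ θ, d θ ∂mu → mu.real {θ | 1 - δ ≤ d θ} < δ / 16 * M →
    ∃ η : ℝ, 0 < η ∧ η ≤ 1 ∧ (1 + δ / 16) * η ^ (-(δ / 4)) * M ≤ mu.real {θ | η ≤ d θ}

/-- Leaf AVG: averages of Poisson integrals. -/
def S_AVG : Prop :=
  ∀ (G : ℤ →₀ ℂ) (h : ℝ), 0 < h → h ≤ 1 →
    (∀ A : Set Ci, MeasurableSet A → 0 < mu.real A → ∃ θ ∈ A, vv G (pt h θ) ≤ nrm G / mu.real A) ∧
    (∀ b : ℝ, 0 < b → mu.real {θ | b < vv G (pt h θ)} ≤ nrm G / b) ∧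
    (Continuous fun θ => vv G (pt h θ)) ∧ ∫ θ, vv G (pt h θ) ∂mu = nrm G

/-- Leaf BDD: boundedness in an annulus. -/
def S_BDD (m : ℕ → ℕ) (lam : ℝ) : Prop :=
  ∃ C : ℝ, 1 ≤ C ∧ ∀ (G : ℤ →₀ ℂ) (h B : ℝ) (K : ℕ), HL m G → 0 < h → h ≤ 1 / 2 → 1 ≤ B →
    (∀ j, 1 ≤ j → j ≤ K → ‖G (-(m j : ℤ))‖ ≤ B * Real.exp (-(lam / 2) * (h * m j))) →
    ∀ z : ℂ, 1 - lam / 8 * h ≤ ‖z‖ → ‖z‖ < 1 →
      ‖ev (tp G (m K)) z‖ ≤ C * (vv (tp G (m K)) z + B)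

/-- Leaf SMALL: Jensen's inequality. -/
def S_SMALL : Prop :=
  ∀ (G : ℤ →₀ ℂ) (N : ℕ) (E : Set Ci) (s : ℝ) (z : ℂ), (∀ n : ℤ, n < -(N : ℤ) → G n = 0) →
    MeasurableSet E → 0 ≤ s → (∀ φ ∈ E, hn G φ ≤ Real.exp (-s)) → 1 / 2 ≤ ‖z‖ → ‖z‖ < 1 →
    ‖ev G z‖ ≤ Real.exp (1 + 2 * N * (1 - ‖z‖) - (∫ φ in E, P z φ ∂mu) * s) * (1 + vv G z)

/-- Leaf TC: two constants theorem on a disc. -/
def S_TC : Prop :=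
  ∀ (f : ℂ → ℂ) (p z : ℂ) (R b e α : ℝ) (A : Set Ci), 0 < R →
    DifferentiableOn ℂ f (closedBall p R) → 0 < e → e ≤ b → (∀ w ∈ sphere p R, ‖f w‖ ≤ b) →
    MeasurableSet A → (∀ x ∈ A, ‖f (p + R * ze x)‖ ≤ e) → 0 ≤ α → α ≤ mu.real A →
    (‖z - p‖ ≤ R / 2 → ‖f z‖ ≤ Real.exp (Real.log b - α / 3 * (Real.log b - Real.log e))) ∧
    ‖f p‖ ≤ Real.exp (Real.log b - α * (Real.log b - Real.log e))

/-- Leaf CHAIN: a chain of discs. -/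
def S_CHAIN : Prop :=
  ∀ (n : ℕ) (f : ℂ → ℂ) (p : ℕ → ℂ) (r b e : ℝ), 0 < r → 0 < e → e ≤ b →
    (∀ i ≤ n, DifferentiableOn ℂ f (closedBall (p i) (4 * r))) →
    (∀ i ≤ n, ∀ w ∈ closedBall (p i) (4 * r), ‖f w‖ ≤ b) →
    (∀ i < n, ‖p (i + 1) - p i‖ ≤ r) → (∀ w ∈ closedBall (p 0) r, ‖f w‖ ≤ e) →
    ∀ w ∈ closedBall (p n) r,
      ‖f w‖ ≤ Real.exp (Real.log b - (1 / 7 : ℝ) ^ n * (Real.log b - Real.log e))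

/-- Leaf CHEB: Parseval and Chebyshev. -/
def S_CHEB : Prop :=
  ∀ (G : ℤ →₀ ℂ) (s : ℝ), 0 < s →
    mu.real {θ | s < hn G θ} ≤ (G.sum fun _ c => ‖c‖ ^ 2) / s ^ 2 ∧
    nrm G ^ 2 ≤ (G.sum fun _ c => ‖c‖ ^ 2) ∧ ∀ n, ‖G n‖ ≤ nrm G

/-- Leaf CORE: from smallness on a part of the circle to smallness at the height `lam h / 32`. -/
def S_CORE (L : ℕ) (m : ℕ → ℕ) (lam : ℝ) : Prop :=
  ∃ (c C : ℝ), 0 < c ∧ 1 ≤ C ∧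
    ∀ (G : ℤ →₀ ℂ) (Y h y τ B η : ℝ) (K : ℕ) (E : Set Ci) (θ φ : Ci), HL m G → 0 < Y → Y ≤ 1 / 2 →
      h = Y / (2 * ((L : ℝ) + 1)) → 0 < η → η ≤ 1 → y = lam / 5184 * η * h → 1 ≤ B → 0 ≤ τ →
      h * m K ≤ τ →
      (∀ j, 1 ≤ j → j ≤ K → ‖G (-(m j : ℤ))‖ ≤ B * Real.exp (-(lam / 2) * (h * m j))) →
      MeasurableSet E → (∀ ψ ∈ E, hn (tp G (m K)) ψ ≤ Real.exp (-(lam / 8 * τ))) →
      dist φ θ ≤ 3 * Y → η * y ≤ mu.real (E ∩ closedBall φ y) → vv (tp G (m K)) (pt Y θ) ≤ B →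
      ‖ev (tp G (m K)) (pt (lam / 32 * h) θ)‖ ≤
        Real.exp (-(c * η ^ 2 * τ) + C * (Real.log B + Real.log (1 / η) + 1))

/-- Leaf STEP: one step of the induction. -/
def S_STEP (m : ℕ → ℕ) : Prop :=
  ∃ (κ ε c : ℝ) (C : ℕ), 0 < κ ∧ 0 < ε ∧ 0 < c ∧ c ≤ 1 ∧ 1 ≤ C ∧
    ∀ (G : ℤ →₀ ℂ) (M Γ τ : ℝ), HL m G → 0 < M → M ≤ 1 → 2 ≤ Γ → nrm G ≤ Γ →
      M ≤ mu.real (Sm G τ) → C * (1 / M) ^ C * Real.log Γ ≤ τ →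
      (∀ n, ‖G n‖ ≤ 2 ^ n.natAbs * Real.exp (-(c * τ))) ∨
      ∃ (ρ η : ℝ) (G' : ℤ →₀ ℂ), 1 / 2 ≤ ρ ∧ ρ < 1 ∧ 0 < η ∧ η ≤ 1 ∧ HL m G' ∧
        (∀ n, ‖G n‖ ≤ Real.exp (-(c * τ)) ∨ ‖G' n‖ = ρ ^ n * ‖G n‖) ∧
        nrm G' ≤ (Γ / M) ^ C ∧
        (1 + κ) * η ^ (-ε) * M ≤ mu.real (Sm G' (c * η ^ 2 * τ))

/-- Leaf IND: the main estimate for Laurent polynomials, from `S_STEP`. -/
def S_IND (m : ℕ → ℕ) : Prop :=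
  ∃ (a : ℕ) (c C : ℝ), 0 < c ∧ 1 ≤ C ∧
    ∀ (G : ℤ →₀ ℂ) (M Γ τ : ℝ), HL m G → 0 < M → 2 ≤ Γ → nrm G ≤ Γ → M ≤ mu.real (Sm G τ) → 0 ≤ τ →
      ∀ n : ℤ, ‖G n‖ ≤ Real.exp (-(c * M ^ a * τ) +
        C * (1 / M) ^ a * (Real.log Γ + Real.log (1 / M) + n.natAbs + 1))

/-- Leaf FIN: from the estimate for Laurent polynomials to `L²` functions. -/
def S_FIN (m : ℕ → ℕ) : Prop :=
  ∃ p : ℝ, 0 < p ∧ ∀ g : Lp ℂ 2 mu,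
    (∀ j, 1 ≤ j → ∀ n : ℤ, -(m j : ℤ) < n → n < -(m (j - 1) : ℤ) → fourierCoeff g n = 0) → g ≠ 0 →
    (∀ᵐ θ ∂mu, g θ ≠ 0) ∧ Integrable (fun θ => |Real.log ‖g θ‖| ^ p) mu

end

end Pool.Agent.K9h98.HLp
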