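import Pool.Agent.K9h98.HLp.Stm

/-!
# Leaf TC: two constants theorem on a disc
-/

set_option autoImplicit false

namespace Pool.Agent.K9h98.HLp

open MeasureTheory AddCircle Complex Set Filter Topology Metric
open Pool.Agent.W767.HL

noncomputable section

/-- Poisson formula for functions continuous on the closed disc and holomorphic inside. -/
lemma tc_poisson {f : ℂ → ℂ} (hf : DiffContOnCl ℂ f (ball 0 1)) {w : ℂ} (hw : ‖w‖ < 1) :
    ∫ θ, (P w θ : ℂ) * f (ze θ) ∂mu = f w := by
  have h := hf.circleAverage_poissonKernel_smul (w := w) (c := 0) (R := 1) (by simpa using hw)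
  rw [← integral_ze] at h
  rw [← h]
  refine integral_congr_ae (Filter.Eventually.of_forall fun θ => ?_)
  simp only [Pi.smul_apply', poissonKernel_def, sub_zero, norm_ze, P, real_smul]
  push_cast
  ring

lemma tc_cont {f : ℂ → ℂ} (hf : DiffContOnCl ℂ f (ball 0 1)) : Continuous fun θ => f (ze θ) := by
  have h1 : ContinuousOn f (closedBall 0 1) := by
    have := hf.continuousOn
    rwa [closure_ball (0 : ℂ) one_ne_zero] at this
  refine h1.comp_continuous continuous_ze fun θ => ?_
  rw [mem_closedBall_zero_iff, norm_ze]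

lemma tc_norm_poisson_le {f : ℂ → ℂ} (hf : DiffContOnCl ℂ f (ball 0 1)) {w : ℂ} (hw : ‖w‖ < 1) :
    ‖f w‖ ≤ ∫ θ, P w θ * ‖f (ze θ)‖ ∂mu := by
  rw [← tc_poisson hf hw]
  refine (norm_integral_le_integral_norm _).trans_eq ?_
  refine integral_congr_ae (Filter.Eventually.of_forall fun θ => ?_)
  simp only [norm_mul, Complex.norm_real, Real.norm_of_nonneg (P_pos hw θ).le]

/-- Jensen's inequality with the Poisson kernel. -/
lemma tc_jensen {f : ℂ → ℂ} (hf : DiffContOnCl ℂ f (ball 0 1)) {v : Ci → ℝ} (hv : Continuous v)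
    (hv0 : ∀ θ, 0 < v θ) (hfv : ∀ θ, ‖f (ze θ)‖ ^ 2 ≤ v θ) {w : ℂ} (hw : ‖w‖ < 1) :
    ‖f w‖ ^ 2 ≤ Real.exp (∫ θ, P w θ * Real.log (v θ) ∂mu) := by
  set I := ∫ θ, P w θ * Real.log (v θ) ∂mu with hI
  have hlog : Continuous fun θ => Real.log (v θ) := hv.log fun θ => (hv0 θ).ne'
  have key : ∀ ε : ℝ, 0 < ε → ‖f w‖ ^ 2 ≤ Real.exp (I + 4 * ε) := by
    intro ε hε
    let u : C(Ci, ℂ) := ⟨fun θ => ((Real.log (v θ) / 2 : ℝ) : ℂ),
      Complex.continuous_ofReal.comp (hlog.div_const 2)⟩
    have hu : u ∈ (Submodule.span ℂ (Set.range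
        (fun n : ℤ => (fourier n : C(Ci, ℂ))))).topologicalClosure := by
      rw [span_fourier_closure_eq_top]
      trivial
    rw [← SetLike.mem_coe, Submodule.topologicalClosure_coe, Metric.mem_closure_iff] at hu
    obtain ⟨q, hq, hqu⟩ := hu ε hε
    obtain ⟨H₁, H₂, h1, h2, h12⟩ := trig_split hq
    set H : ℂ → ℂ := fun z => H₁ z + H₂ z with hH
    have hHd : Differentiable ℂ H := h1.add h2
    have hre : ∀ θ, |(H (ze θ)).re - Real.log (v θ) / 2| ≤ ε := by
      intro θ
      have h3 : (H (ze θ)).re = (q θ).re := by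
        rw [h12, hH]
        simp
      have h4 : ‖u θ - q θ‖ ≤ ε := by
        have := ContinuousMap.dist_apply_le_dist (f := u) (g := q) θ
        rw [dist_eq_norm] at this
        linarith
      have h5 := (Complex.abs_re_le_norm (u θ - q θ)).trans h4
      rw [h3, abs_sub_comm]
      simpa [u] using h5
    set F : ℂ → ℂ := fun z => f z * Complex.exp (-H z) with hF
    have hFd : DiffContOnCl ℂ F (ball 0 1) := by
      have hE : Differentiable ℂ fun z => Complex.exp (-H z) := hHd.neg.cexp
      exact ⟨hf.differentiableOn.mul hE.differentiableOn,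
        hf.continuousOn.mul hE.continuous.continuousOn⟩
    have hFle : ∀ θ, ‖F (ze θ)‖ ≤ Real.exp ε := by
      intro θ
      rw [hF]
      simp only [norm_mul, Complex.norm_exp, neg_re]
      have h6 : ‖f (ze θ)‖ ≤ Real.exp (Real.log (v θ) / 2) := by
        have h7 : Real.exp (Real.log (v θ) / 2) ^ 2 = v θ := by
          rw [← Real.exp_nat_mul]
          push_cast
          rw [mul_div_cancel₀ _ (two_ne_zero), Real.exp_log (hv0 θ)]
        refine le_of_sq_le_sq ?_ (Real.exp_pos _).le
        rw [h7]
        exact hfv θ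
      calc ‖f (ze θ)‖ * Real.exp (-(H (ze θ)).re)
          ≤ Real.exp (Real.log (v θ) / 2) * Real.exp (-(H (ze θ)).re) :=
            mul_le_mul_of_nonneg_right h6 (Real.exp_pos _).le
        _ = Real.exp (Real.log (v θ) / 2 - (H (ze θ)).re) := by rw [← Real.exp_add, sub_eq_add_neg]
        _ ≤ Real.exp ε := by
            rw [Real.exp_le_exp]
            have := (abs_le.mp (hre θ)).1
            linarith
    have hFw : ‖F w‖ ≤ Real.exp ε := by
      refine (tc_norm_poisson_le hFd hw).trans ?_
      have hc : Continuous fun θ => F (ze θ) := tc_cont hFd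
      calc ∫ θ, P w θ * ‖F (ze θ)‖ ∂mu ≤ ∫ θ, P w θ * Real.exp ε ∂mu := by
            refine integral_mono (integrable_of_cont ((continuous_P hw).mul hc.norm))
              (integrable_of_cont ((continuous_P hw).mul continuous_const)) fun θ => ?_
            exact mul_le_mul_of_nonneg_left (hFle θ) (P_pos hw θ).le
        _ = Real.exp ε := by rw [integral_mul_const, integral_P hw, one_mul]
    have hHw : (H w).re ≤ I / 2 + ε := by
      rw [← poisson_re hHd hw]
      calc ∫ θ, P w θ * (H (ze θ)).re ∂mu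
          ≤ ∫ θ, (P w θ * Real.log (v θ)) * (1 / 2) + P w θ * ε ∂mu := by
            refine integral_mono (integrable_of_cont ((continuous_P hw).mul
              (Complex.continuous_re.comp (hHd.continuous.comp continuous_ze))))
              (integrable_of_cont ((((continuous_P hw).mul hlog).mul continuous_const).add
                ((continuous_P hw).mul continuous_const))) fun θ => ?_
            have h8 := (abs_le.mp (hre θ)).2
            have h9 := P_pos hw θ
            simp only
            nlinarith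
        _ = I / 2 + ε := by
            have i1 : Integrable (fun θ => P w θ * Real.log (v θ) * (1 / 2)) mu :=
              integrable_of_cont (((continuous_P hw).mul hlog).mul continuous_const)
            have i2 : Integrable (fun θ => P w θ * ε) mu :=
              integrable_of_cont ((continuous_P hw).mul continuous_const)
            rw [integral_add i1 i2, integral_mul_const, integral_mul_const, integral_P hw, one_mul]
            ring
    have hfF : f w = F w * Complex.exp (H w) := by
      rw [hF]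
      simp only
      rw [mul_assoc, ← Complex.exp_add, neg_add_cancel, Complex.exp_zero, mul_one]
    have h10 : ‖f w‖ ≤ Real.exp (I / 2 + 2 * ε) := by
      rw [hfF, norm_mul, Complex.norm_exp]
      calc ‖F w‖ * Real.exp (H w).re ≤ Real.exp ε * Real.exp (I / 2 + ε) :=
            mul_le_mul hFw (Real.exp_le_exp.mpr hHw) (Real.exp_pos _).le (Real.exp_pos _).le
        _ = Real.exp (I / 2 + 2 * ε) := by
            rw [← Real.exp_add]
            congr 1
            ring
    calc ‖f w‖ ^ 2 ≤ Real.exp (I / 2 + 2 * ε) ^ 2 := pow_le_pow_left₀ (norm_nonneg _) h10 2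
      _ = Real.exp (I + 4 * ε) := by
          rw [← Real.exp_nat_mul]
          congr 1
          push_cast
          ring
  refine ge_of_tendsto (x := nhdsWithin 0 (Set.Ioi (0 : ℝ))) (f := fun ε => Real.exp (I + 4 * ε))
    ?_ (Filter.eventually_of_mem self_mem_nhdsWithin key)
  have : Continuous fun ε : ℝ => Real.exp (I + 4 * ε) := by fun_prop
  have h := this.tendsto 0
  simp only [mul_zero, add_zero] at h
  exact h.mono_left nhdsWithin_le_nhds

/-- The two constants theorem on the unit disc, with the harmonic measure. -/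
lemma tc_unit {g : ℂ → ℂ} (hg : DiffContOnCl ℂ g (ball 0 1)) {b e ω : ℝ} (he : 0 < e) (heb : e ≤ b)
    (hb : ∀ θ, ‖g (ze θ)‖ ≤ b) {A : Set Ci} (hA : MeasurableSet A) (hAe : ∀ x ∈ A, ‖g (ze x)‖ ≤ e)
    {w : ℂ} (hw : ‖w‖ < 1) (hω : ω ≤ ∫ θ in A, P w θ ∂mu) :
    ‖g w‖ ≤ Real.exp (Real.log b - ω * (Real.log b - Real.log e)) := by
  have hb0 : 0 < b := he.trans_le heb
  have hcg : Continuous fun θ => g (ze θ) := tc_cont hg
  set T := ∫ θ in A, P w θ ∂mu with hT
  have key : ∀ a : ℝ, 0 < a → ‖g w‖ ^ 2 ≤
      Real.exp (Real.log (a + b ^ 2) - T * (Real.log (a + b ^ 2) - Real.log (a + e ^ 2))) := by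
    intro a ha
    have hv : Continuous fun θ => a + ‖g (ze θ)‖ ^ 2 := continuous_const.add (hcg.norm.pow 2)
    have hv0 : ∀ θ, 0 < a + ‖g (ze θ)‖ ^ 2 := fun θ => by positivity
    refine (tc_jensen hg hv hv0 (fun θ => by linarith) hw).trans ?_
    rw [Real.exp_le_exp]
    set D := Real.log (a + b ^ 2) - Real.log (a + e ^ 2) with hD
    have hpt : ∀ θ, P w θ * Real.log (a + ‖g (ze θ)‖ ^ 2) ≤
        P w θ * Real.log (a + b ^ 2) - A.indicator (fun θ => P w θ) θ * D := by
      intro θ
      have hP := P_pos hw θ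
      by_cases hθ : θ ∈ A
      · rw [indicator_of_mem hθ]
        have h1 : Real.log (a + ‖g (ze θ)‖ ^ 2) ≤ Real.log (a + e ^ 2) := by
          refine Real.log_le_log (hv0 θ) ?_
          have := pow_le_pow_left₀ (norm_nonneg _) (hAe θ hθ) 2
          linarith
        rw [hD]
        nlinarith
      · rw [indicator_of_notMem hθ, zero_mul, sub_zero]
        refine mul_le_mul_of_nonneg_left ?_ hP.le
        refine Real.log_le_log (hv0 θ) ?_
        have := pow_le_pow_left₀ (norm_nonneg _) (hb θ) 2
        linarith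
    have hi0 : Integrable (fun θ => P w θ) mu := integrable_of_cont (continuous_P hw)
    have hi1 : Integrable (fun θ => P w θ * Real.log (a + b ^ 2)) mu := hi0.mul_const _
    have hi2 : Integrable (fun θ => A.indicator (fun θ => P w θ) θ * D) mu :=
      (hi0.indicator hA).mul_const _
    have hi3 : Integrable (fun θ => P w θ * Real.log (a + ‖g (ze θ)‖ ^ 2)) mu :=
      integrable_of_cont ((continuous_P hw).mul (hv.log fun θ => (hv0 θ).ne'))
    calc ∫ θ, P w θ * Real.log (a + ‖g (ze θ)‖ ^ 2) ∂mu
        ≤ ∫ θ, (P w θ * Real.log (a + b ^ 2) - A.indicator (fun θ => P w θ) θ * D) ∂mu :=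
          integral_mono hi3 (hi1.sub hi2) hpt
      _ = Real.log (a + b ^ 2) - T * D := by
          rw [integral_sub hi1 hi2, integral_mul_const, integral_mul_const, integral_P hw, one_mul,
            integral_indicator hA]
  have hlim : ‖g w‖ ^ 2 ≤
      Real.exp (Real.log (b ^ 2) - T * (Real.log (b ^ 2) - Real.log (e ^ 2))) := by
    refine ge_of_tendsto (x := nhdsWithin 0 (Set.Ioi (0 : ℝ)))
      (f := fun a => Real.exp (Real.log (a + b ^ 2) -
        T * (Real.log (a + b ^ 2) - Real.log (a + e ^ 2)))) ?_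
      (Filter.eventually_of_mem self_mem_nhdsWithin key)
    have c1 : ContinuousAt (fun a : ℝ => Real.log (a + b ^ 2)) 0 :=
      (continuousAt_id.add continuousAt_const).log (by simp; positivity)
    have c2 : ContinuousAt (fun a : ℝ => Real.log (a + e ^ 2)) 0 :=
      (continuousAt_id.add continuousAt_const).log (by simp; positivity)
    have c3 : ContinuousAt (fun a : ℝ => Real.exp (Real.log (a + b ^ 2) -
        T * (Real.log (a + b ^ 2) - Real.log (a + e ^ 2)))) 0 :=
      (c1.sub (continuousAt_const.mul (c1.sub c2))).rexp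
    have h := c3.tendsto
    simp only [zero_add] at h
    exact h.mono_left nhdsWithin_le_nhds
  rw [Real.log_pow, Real.log_pow] at hlim
  push_cast at hlim
  have hle : Real.log e ≤ Real.log b := Real.log_le_log he heb
  refine le_of_sq_le_sq ?_ (Real.exp_pos _).le
  refine hlim.trans ?_
  rw [← Real.exp_nat_mul, Real.exp_le_exp]
  push_cast
  nlinarith [mul_le_mul_of_nonneg_right hω (sub_nonneg.mpr hle)]

lemma tc_P_zero (θ : Ci) : P 0 θ = 1 := by
  unfold P
  rw [norm_zero, sub_zero, norm_ze]
  norm_num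

lemma tc_P_ge {w : ℂ} (hw : ‖w‖ ≤ 1 / 2) (θ : Ci) : 1 / 3 ≤ P w θ := by
  have h0 := norm_nonneg w
  have h1 : ‖ze θ - w‖ ≤ 1 + ‖w‖ := by
    have := norm_sub_le (ze θ) w
    rwa [norm_ze] at this
  have h2 : 1 - ‖w‖ ≤ ‖ze θ - w‖ := dist_pos w θ
  have h3 : 0 < ‖ze θ - w‖ := by linarith
  unfold P
  rw [div_le_div_iff₀ (by norm_num) (by positivity)]
  have h4 : ‖ze θ - w‖ ^ 2 ≤ (1 + ‖w‖) ^ 2 := pow_le_pow_left₀ h3.le h1 2
  nlinarith

theorem tc_all : S_TC := by
  intro f p z R b e α A hR hf he heb hb hA hAe hα hαA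
  set g : ℂ → ℂ := fun w => f (p + R * w) with hg
  have hR' : (R : ℂ) ≠ 0 := by exact_mod_cast hR.ne'
  have hmap : ∀ w ∈ closedBall (0 : ℂ) 1, p + R * w ∈ closedBall p R := by
    intro w hw
    rw [mem_closedBall, dist_eq_norm, add_sub_cancel_left, norm_mul, Complex.norm_real,
      Real.norm_of_nonneg hR.le]
    rw [mem_closedBall_zero_iff] at hw
    nlinarith
  have hgd : DiffContOnCl ℂ g (ball 0 1) := by
    apply DifferentiableOn.diffContOnCl
    rw [closure_ball (0 : ℂ) one_ne_zero]
    exact hf.comp (by fun_prop) hmap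
  have hgb : ∀ θ, ‖g (ze θ)‖ ≤ b := by
    intro θ
    refine hb _ ?_
    rw [mem_sphere, dist_eq_norm, add_sub_cancel_left, norm_mul, Complex.norm_real,
      Real.norm_of_nonneg hR.le, norm_ze, mul_one]
  have hle : Real.log e ≤ Real.log b := Real.log_le_log he heb
  constructor
  · intro hz
    set w : ℂ := (z - p) / R with hw
    have hw1 : ‖w‖ ≤ 1 / 2 := by
      rw [hw, norm_div, Complex.norm_real, Real.norm_of_nonneg hR.le, div_le_iff₀ hR]
      linarith
    have hw2 : ‖w‖ < 1 := by linarith
    have hgw : g w = f z := by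
      simp only [hg, hw]
      rw [mul_div_cancel₀ _ hR', add_sub_cancel]
    rw [← hgw]
    refine tc_unit hgd he heb hgb hA hAe hw2 ?_
    have hi0 : Integrable (fun θ => P w θ) mu := integrable_of_cont (continuous_P hw2)
    calc α / 3 ≤ mu.real A * (1 / 3) := by linarith
      _ = ∫ θ in A, (1 / 3 : ℝ) ∂mu := by
          rw [setIntegral_const, smul_eq_mul]
      _ ≤ ∫ θ in A, P w θ ∂mu :=
          setIntegral_mono (integrable_const _).integrableOn hi0.integrableOn fun θ => tc_P_ge hw1 θ
  · have hg0 : g 0 = f p := by simp [hg]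
    rw [← hg0]
    refine tc_unit hgd he heb hgb hA hAe (w := 0) (by simp) ?_
    simp only [tc_P_zero, setIntegral_const, smul_eq_mul, mul_one]
    exact hαA

end

end Pool.Agent.K9h98.HLp
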