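import Pool.Agent.K9h98.HLp.Coef

/-!
# Leaf TAIL
-/

set_option autoImplicit false

namespace Pool.Agent.K9h98.HLp

open MeasureTheory AddCircle Complex Set Filter Topology Metric
open Pool.Agent.W767.HL

noncomputable section

namespace Tail

lemma inv_iter2 {L : ℕ} {m : ℕ → ℕ} {G : ℤ →₀ ℂ} {s : ℝ} {M K j0 : ℕ} (hL : 0 < L) (hs : 0 < s)
    (hm : StrictMono m) (hgap : ∀ j, L ≤ j → m (j - L) + m (j - 1) ≤ m j)
    (hM : ∀ j, j0 < j → M + m (j - 1) ≤ m j)
    (hG : ∀ n : ℤ, n < -(m K : ℤ) → G n = 0)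
    (hG2 : ∀ j, 1 ≤ j → ∀ n : ℤ, -(m j : ℤ) < n → n < -(m (j - 1) : ℤ) → G n = 0) :
    ∀ d : ℕ, j0 + d ≤ K → ∃ (eF : ℤ →₀ ℂ) (e : ℕ → (ℤ →₀ ℂ)) (t : ℕ → ℝ) (C : ℝ),
      Inv L m G s M (K - d) eF e t C ∧
      C ^ 2 * ∑ i ∈ Finset.Icc (K - d + 1) K, ‖G (-(m i : ℤ))‖ ^ 2
        ≤ ∑ i ∈ Finset.range L, t i ^ 2 := by
  intro d
  induction d with
  | zero =>
      intro _
      refine ⟨_, _, _, _, inv_start hs hG, ?_⟩
      rw [Finset.Icc_eq_empty (by omega), Finset.sum_empty, mul_zero]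
      exact Finset.sum_nonneg fun i _ => sq_nonneg _
  | succ d ih =>
      intro hd
      obtain ⟨eF, e, t, C, h, hS⟩ := ih (by omega)
      obtain ⟨eF', e', t', C', h', hne, hi⟩ := inv_step hL hs hm (hgap _) (hM _ (by omega))
        (by omega) (hG2 _ (by omega)) h
      have hKd : K - (d + 1) = K - d - 1 := by omega
      rw [hKd]
      refine ⟨eF', e', t', C', h', ?_⟩
      set j := K - d with hj
      have hj1 : 1 ≤ j := by omega
      set i := j % L with hidef
      have hiL : i < L := Nat.mod_lt _ hL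
      have htpos : ∀ k < L, 0 < t k := fun k hk => hs.trans_le (h.t_ge k hk)
      have htpos' : ∀ k < L, 0 < t' k := fun k hk => hs.trans_le (h'.t_ge k hk)
      have htle : ∀ k < L, t k ≤ t' k := by
        intro k hk
        by_cases hki : k = i
        · rw [hki]
          refine le_of_sq_le_sq ?_ (htpos' i hiL).le
          rw [hi]
          have : 0 ≤ C ^ 2 * ‖G (-(m j : ℤ))‖ ^ 2 := by positivity
          linarith
        · exact (hne k hk hki).ge
      have hprod : ∏ k ∈ Finset.range L, t k ≤ ∏ k ∈ Finset.range L, t' k :=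
        Finset.prod_le_prod (fun k hk => (htpos k (Finset.mem_range.mp hk)).le)
          fun k hk => htle k (Finset.mem_range.mp hk)
      have hprod0 : 0 < ∏ k ∈ Finset.range L, t k :=
        Finset.prod_pos fun k hk => htpos k (Finset.mem_range.mp hk)
      have hCC : C' ≤ C := by
        have h1 : C' * ∏ k ∈ Finset.range L, t k ≤ C * ∏ k ∈ Finset.range L, t k := by
          rw [h.C_eq, ← h'.C_eq]
          exact mul_le_mul_of_nonneg_left hprod h'.C_pos.le
        exact le_of_mul_le_mul_right h1 hprod0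
      have hCC2 : C' ^ 2 ≤ C ^ 2 := pow_le_pow_left₀ h'.C_pos.le hCC 2
      have hsplit : ∑ k ∈ Finset.Icc (j - 1 + 1) K, ‖G (-(m k : ℤ))‖ ^ 2
          = ‖G (-(m j : ℤ))‖ ^ 2 + ∑ k ∈ Finset.Icc (j + 1) K, ‖G (-(m k : ℤ))‖ ^ 2 := by
        rw [Nat.sub_add_cancel hj1]
        rw [← Finset.add_sum_Ioc_eq_sum_Icc (by omega : j ≤ K)]
        congr 1
        refine Finset.sum_congr (Finset.ext fun x => ?_) fun _ _ => rfl
        rw [Finset.mem_Ioc, Finset.mem_Icc]
        omega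
      have hsum : ∑ k ∈ Finset.range L, t' k ^ 2
          = ∑ k ∈ Finset.range L, t k ^ 2 + C ^ 2 * ‖G (-(m j : ℤ))‖ ^ 2 := by
        rw [← Finset.add_sum_erase _ _ (Finset.mem_range.mpr hiL),
          ← Finset.add_sum_erase (Finset.range L) (fun k => t k ^ 2) (Finset.mem_range.mpr hiL)]
        rw [hi]
        have : ∑ x ∈ (Finset.range L).erase i, t' x ^ 2
            = ∑ x ∈ (Finset.range L).erase i, t x ^ 2 := by
          refine Finset.sum_congr rfl fun x hx => ?_
          rw [hne x (Finset.mem_range.mp (Finset.mem_of_mem_erase hx)) (Finset.ne_of_mem_erase hx)]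
        rw [this]
        ring
      have hS0 : 0 ≤ ∑ k ∈ Finset.Icc (j + 1) K, ‖G (-(m k : ℤ))‖ ^ 2 :=
        Finset.sum_nonneg fun _ _ => sq_nonneg _
      rw [hsplit, hsum, mul_add]
      have h1 : C' ^ 2 * ‖G (-(m j : ℤ))‖ ^ 2 ≤ C ^ 2 * ‖G (-(m j : ℤ))‖ ^ 2 :=
        mul_le_mul_of_nonneg_right hCC2 (sq_nonneg _)
      have h2 : C' ^ 2 * ∑ k ∈ Finset.Icc (j + 1) K, ‖G (-(m k : ℤ))‖ ^ 2
          ≤ C ^ 2 * ∑ k ∈ Finset.Icc (j + 1) K, ‖G (-(m k : ℤ))‖ ^ 2 :=
        mul_le_mul_of_nonneg_right hCC2 hS0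
      linarith

/-- The outcome of the reduction, with a bound for the square sum of the removed coefficients. -/
theorem alg2 {L : ℕ} {m : ℕ → ℕ} {G : ℤ →₀ ℂ} {s : ℝ} {M K j0 : ℕ} (hL : 0 < L) (hs : 0 < s)
    (hm : StrictMono m) (hgap : ∀ j, L ≤ j → m (j - L) + m (j - 1) ≤ m j) (hK : j0 < K)
    (hM : ∀ j, j0 < j → M + m (j - 1) ≤ m j)
    (hG : ∀ n : ℤ, n < -(m K : ℤ) → G n = 0)
    (hG2 : ∀ j, 1 ≤ j → ∀ n : ℤ, -(m j : ℤ) < n → n < -(m (j - 1) : ℤ) → G n = 0) :
    ∃ (f : ℤ →₀ ℂ) (t : ℝ), s ≤ t ∧ (∀ n : ℤ, n < 0 → f n = 0) ∧ f 0 = t ∧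
      (∀ n : ℤ, 0 < n → n < M → f n = 0) ∧
      (∀ z : ℂ, ‖z‖ = 1 → ‖ev f z‖ ^ 2 ≤ L * s ^ 2 + ‖ev G z‖ ^ 2) ∧
      s ^ (2 * L) * ∑ i ∈ Finset.Icc (j0 + 1) K, ‖G (-(m i : ℤ))‖ ^ 2 ≤ L * t ^ (2 * L + 2) := by
  obtain ⟨eF', e', t', C', h', hS⟩ := inv_iter2 (M := M) (K := K) (j0 := j0) hL hs hm hgap hM hG hG2
    (K - j0) (by omega)
  have hKj : K - (K - j0) = j0 := by omega
  rw [hKj] at h' hS
  obtain ⟨k, hkL, hkmax⟩ := Finset.exists_max_image (Finset.range L) t'
    ⟨0, Finset.mem_range.mpr hL⟩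
  have hkL' : k < L := Finset.mem_range.mp hkL
  have htk : s ≤ t' k := h'.t_ge k hkL'
  have htk0 : 0 < t' k := hs.trans_le htk
  refine ⟨e' k, t' k, htk, h'.e_neg k hkL', h'.e_zero k hkL', h'.e_M k hkL', ?_, ?_⟩
  · intro z hz
    have h1 := h'.norm_eq z hz
    have h2 := Finset.single_le_sum (f := fun i => ‖ev (e' i) z‖ ^ 2)
      (fun i _ => sq_nonneg _) hkL
    have h3 := sq_nonneg ‖ev eF' z‖
    linarith
  · set S := ∑ i ∈ Finset.Icc (j0 + 1) K, ‖G (-(m i : ℤ))‖ ^ 2 with hSdef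
    have hS0 : 0 ≤ S := Finset.sum_nonneg fun _ _ => sq_nonneg _
    have htpos' : ∀ x < L, 0 < t' x := fun x hx => hs.trans_le (h'.t_ge x hx)
    have hprod : ∏ x ∈ Finset.range L, t' x ≤ t' k ^ L := by
      calc ∏ x ∈ Finset.range L, t' x ≤ ∏ x ∈ Finset.range L, t' k :=
            Finset.prod_le_prod (fun x hx => (htpos' x (Finset.mem_range.mp hx)).le)
              fun x hx => hkmax x hx
        _ = t' k ^ L := by rw [Finset.prod_const, Finset.card_range]
    have h1 : s ^ L ≤ C' * t' k ^ L := by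
      rw [← h'.C_eq]
      exact mul_le_mul_of_nonneg_left hprod h'.C_pos.le
    have h2 : s ^ (2 * L) ≤ C' ^ 2 * t' k ^ (2 * L) := by
      have := pow_le_pow_left₀ (by positivity) h1 2
      calc s ^ (2 * L) = (s ^ L) ^ 2 := by rw [← pow_mul, mul_comm]
        _ ≤ (C' * t' k ^ L) ^ 2 := this
        _ = C' ^ 2 * t' k ^ (2 * L) := by rw [mul_pow, ← pow_mul, mul_comm L 2]
    have h3 : ∑ x ∈ Finset.range L, t' x ^ 2 ≤ L * t' k ^ 2 := by
      calc ∑ x ∈ Finset.range L, t' x ^ 2 ≤ ∑ x ∈ Finset.range L, t' k ^ 2 :=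
            Finset.sum_le_sum fun x hx =>
              pow_le_pow_left₀ (htpos' x (Finset.mem_range.mp hx)).le (hkmax x hx) 2
        _ = L * t' k ^ 2 := by rw [Finset.sum_const, Finset.card_range, nsmul_eq_mul]
    calc s ^ (2 * L) * S ≤ C' ^ 2 * t' k ^ (2 * L) * S := mul_le_mul_of_nonneg_right h2 hS0
      _ = t' k ^ (2 * L) * (C' ^ 2 * S) := by ring
      _ ≤ t' k ^ (2 * L) * (L * t' k ^ 2) :=
          mul_le_mul_of_nonneg_left (hS.trans h3) (by positivity)
      _ = L * t' k ^ (2 * L + 2) := by rw [pow_add]; ring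

/-- The main inequality, for a sum of squares of coefficients. -/
lemma trunc_ineq2 {L : ℕ} (hL : 0 < L) {m : ℕ → ℕ} (hm : StrictMono m)
    (hgap : ∀ j, L ≤ j → m (j - L) + m (j - 1) ≤ m j) {M K j0 : ℕ} (hK : j0 < K)
    (hM : ∀ j, j0 < j → M + m (j - 1) ≤ m j) {G : ℤ →₀ ℂ}
    (hG : ∀ n : ℤ, n < -(m K : ℤ) → G n = 0)
    (hG2 : ∀ j, 1 ≤ j → ∀ n : ℤ, -(m j : ℤ) < n → n < -(m (j - 1) : ℤ) → G n = 0)
    {w : ℂ} (hw : ‖w‖ < 1) (hw0 : w ≠ 0) {B : ℝ}
    (hB : ∫ θ, P w θ * ‖ev G (ze θ)‖ ∂mu ≤ B) (hB0 : ∫ θ, P 0 θ * ‖ev G (ze θ)‖ ∂mu ≤ B)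
    {s : ℝ} (hs : 0 < s) (hs1 : s ≤ 1) (hsM : ‖w‖ ^ M * (2 * (L + B)) ≤ s / 2)
    {S : ℝ} (hS : 0 < S)
    (hSe : S ^ 2 = ∑ i ∈ Finset.Icc (j0 + 1) K, ‖G (-(m i : ℤ))‖ ^ 2) :
    2 * ((L * Real.log s + Real.log S - Real.log L / 2) / (L + 1) - Real.log 2)
      ≤ La w (L * s ^ 2) (fun θ => ev G (ze θ)) := by
  obtain ⟨f, t, hst, hneg, hf0, hfM, hle, hgrow⟩ := alg2 hL hs hm hgap hK hM hG hG2
  rw [← hSe] at hgrow
  have ht : 0 < t := hs.trans_le hst
  have hL1 : (1 : ℝ) ≤ L := by exact_mod_cast hL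
  have hbd : ∀ θ, ‖ev f (ze θ)‖ ≤ L + ‖ev G (ze θ)‖ := by
    intro θ
    have h1 := hle _ (norm_ze θ)
    refine le_of_sq_le_sq (h1.trans ?_) (by positivity)
    have h2 : s ^ 2 ≤ 1 := pow_le_one₀ hs.le hs1
    nlinarith [norm_nonneg (ev G (ze θ)), mul_nonneg (Nat.cast_nonneg (α := ℝ) L)
      (norm_nonneg (ev G (ze θ)))]
  have hcG := continuous_ev_ze G
  have hbi : Integrable (fun θ => (L : ℝ) + ‖ev G (ze θ)‖) mu :=
    integrable_of_cont (continuous_const.add hcG.norm)
  have hint : ∀ v : ℂ, ‖v‖ < 1 → ∫ θ, P v θ * ((L : ℝ) + ‖ev G (ze θ)‖) ∂mu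
      = L + ∫ θ, P v θ * ‖ev G (ze θ)‖ ∂mu := by
    intro v hv
    have i1 : Integrable (fun θ => P v θ * (L : ℝ)) mu :=
      integrable_of_cont ((continuous_P hv).mul continuous_const)
    have i2 : Integrable (fun θ => P v θ * ‖ev G (ze θ)‖) mu :=
      integrable_of_cont ((continuous_P hv).mul hcG.norm)
    simp only [mul_add]
    rw [integral_add i1 i2, integral_mul_const, integral_P hv, one_mul]
  have htle : t ≤ L + B := by
    have h1 := norm_poisson_le (differentiable_ev hneg) (w := 0) (by simp)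
    have h2 : ev f 0 = t := by
      rw [ev_eq_sum, Finsupp.sum]
      rw [← hf0]
      by_cases h0 : (0 : ℤ) ∈ f.support
      · rw [Finset.sum_eq_single 0]
        · simp
        · intro n _ hn
          rw [zero_zpow n hn, mul_zero]
        · exact fun h => absurd h0 h
      · rw [Finset.sum_eq_zero]
        · exact (Finsupp.notMem_support_iff.mp h0).symm
        · intro n hn
          have : n ≠ 0 := fun h => h0 (h ▸ hn)
          rw [zero_zpow n this, mul_zero]
    rw [h2, Complex.norm_real, Real.norm_of_nonneg ht.le] at h1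
    refine h1.trans ?_
    have h3 : ∫ θ, P 0 θ * ‖ev f (ze θ)‖ ∂mu ≤ ∫ θ, P 0 θ * ((L : ℝ) + ‖ev G (ze θ)‖) ∂mu := by
      refine integral_mono (integrable_of_cont ((continuous_P (by simp)).mul
        (continuous_ev_ze f).norm)) (integrable_of_cont ((continuous_P (by simp)).mul
        (continuous_const.add hcG.norm))) fun θ => ?_
      exact mul_le_mul_of_nonneg_left (hbd θ) (P_pos (by simp) θ).le
    rw [hint 0 (by simp)] at h3
    linarith
  have hclose : ‖ev f w - t‖ ≤ s / 2 := by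
    refine (gap_bound hneg hf0 hfM ht.le hw hw0 hbi hbd).trans ?_
    rw [hint w hw]
    refine le_trans (mul_le_mul_of_nonneg_left ?_ (by positivity)) hsM
    linarith
  have hlow : t / 2 ≤ ‖ev f w‖ := by
    have h1 := norm_sub_norm_le (t : ℂ) (t - ev f w)
    rw [sub_sub_cancel, Complex.norm_real, Real.norm_of_nonneg ht.le, norm_sub_rev] at h1
    linarith
  have hj := jensen (differentiable_ev hneg) (v := fun θ => L * s ^ 2 + ‖ev G (ze θ)‖ ^ 2)
    (continuous_const.add (hcG.norm.pow 2)) (fun θ => by positivity)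
    (fun θ => hle _ (norm_ze θ)) hw
  have h2 : (t / 2) ^ 2 ≤ Real.exp (La w (L * s ^ 2) (fun θ => ev G (ze θ))) :=
    (pow_le_pow_left₀ (by positivity) hlow 2).trans hj
  have h3 : 2 * Real.log (t / 2) ≤ La w (L * s ^ 2) (fun θ => ev G (ze θ)) := by
    have := Real.log_le_log (by positivity) h2
    rw [Real.log_exp, Real.log_pow] at this
    exact_mod_cast this
  have h4 : L * Real.log s + Real.log S ≤ Real.log L / 2 + (L + 1) * Real.log t := by
    have := Real.log_le_log (by positivity) hgrow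
    rw [Real.log_mul (by positivity) (by positivity), Real.log_mul (by positivity) (by positivity),
      Real.log_pow, Real.log_pow, Real.log_pow] at this
    push_cast at this
    linarith
  have h5 : (L * Real.log s + Real.log S - Real.log L / 2) / (L + 1) ≤ Real.log t := by
    rw [div_le_iff₀ (by positivity)]
    linarith
  rw [Real.log_div ht.ne' two_ne_zero] at h3
  linarith

/-- The upper bound for the logarithmic integral. -/
lemma La_upper {L : ℕ} (hL : 0 < L) {w : ℂ} (hw : ‖w‖ < 1) {G : ℤ →₀ ℂ} {F : Set Ci}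
    (hF : MeasurableSet F) {s B : ℝ} (hs : 0 < s) (hs1 : s ≤ 1) (hB1 : 0 ≤ B)
    (hB : vv G w ≤ B) (hFs : ∀ φ ∈ F, hn G φ ≤ s) :
    La w (L * s ^ 2) (fun θ => ev G (ze θ)) ≤
      (∫ φ in F, P w φ ∂mu) * (Real.log (L + 1) + 2 * Real.log s) + 2 * Real.log (L + B) := by
  have hL1 : (1 : ℝ) ≤ L := by exact_mod_cast hL
  have hcG := continuous_ev_ze G
  have hLs : (0 : ℝ) < L * s ^ 2 := by positivity
  unfold La
  have hi : Integrable (fun θ => P w θ * Real.log (L * s ^ 2 + ‖ev G (ze θ)‖ ^ 2)) mu :=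
    integrable_P_log hw hLs (integrable_of_cont hcG)
  have hP : Integrable (P w) mu := integrable_of_cont (continuous_P hw)
  have hPG : Integrable (fun θ => P w θ * hn G θ) mu :=
    integrable_of_cont ((continuous_P hw).mul hcG.norm)
  have hPc : Integrable (fun θ => P w θ * (2 * Real.log (L + B))) mu := hP.mul_const _
  have hPd : Integrable (fun θ => P w θ * (2 * Real.log (L + hn G θ))) mu := by
    refine integrable_of_cont ((continuous_P hw).mul (continuous_const.mul
      ((continuous_const.add hcG.norm).log fun θ => ?_)))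
    have := norm_nonneg (ev G (ze θ))
    have h0 : (0 : ℝ) < L + ‖ev G (ze θ)‖ := by linarith
    exact h0.ne'
  rw [← integral_add_compl hF hi]
  refine add_le_add ?_ ?_
  · rw [← integral_mul_const]
    refine setIntegral_mono_on hi.integrableOn (hP.mul_const _).integrableOn hF fun θ hθ => ?_
    refine mul_le_mul_of_nonneg_left ?_ (P_pos hw θ).le
    have h1 : Real.log ((L + 1) * s ^ 2) = Real.log (L + 1) + 2 * Real.log s := by
      rw [Real.log_mul (by positivity) (by positivity), Real.log_pow]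
      push_cast
      ring
    rw [← h1]
    refine Real.log_le_log (by positivity) ?_
    have := pow_le_pow_left₀ (norm_nonneg _) (hFs θ hθ) 2
    linarith
  · have hLB : 0 < L + B := by linarith
    calc ∫ θ in Fᶜ, P w θ * Real.log (L * s ^ 2 + ‖ev G (ze θ)‖ ^ 2) ∂mu
        ≤ ∫ θ in Fᶜ, P w θ * (2 * Real.log (L + hn G θ)) ∂mu := by
          refine integral_mono hi.integrableOn hPd.integrableOn fun θ => ?_
          refine mul_le_mul_of_nonneg_left ?_ (P_pos hw θ).le
          have h2 : (2 : ℝ) * Real.log (L + hn G θ) = Real.log ((L + hn G θ) ^ 2) := by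
            rw [Real.log_pow]
            push_cast
            ring
          rw [h2]
          have h3 : s ^ 2 ≤ 1 := pow_le_one₀ hs.le hs1
          have h4 : 0 ≤ hn G θ := norm_nonneg _
          refine Real.log_le_log (by positivity) ?_
          change L * s ^ 2 + hn G θ ^ 2 ≤ (L + hn G θ) ^ 2
          nlinarith [mul_nonneg (Nat.cast_nonneg (α := ℝ) L) h4]
      _ ≤ ∫ θ, P w θ * (2 * Real.log (L + hn G θ)) ∂mu := by
          refine setIntegral_le_integral hPd (Filter.Eventually.of_forall fun θ => ?_)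
          have h4 : 0 ≤ hn G θ := norm_nonneg _
          exact mul_nonneg (P_pos hw θ).le
            (mul_nonneg two_pos.le (Real.log_nonneg (by linarith)))
      _ ≤ ∫ θ, (P w θ * (2 * Real.log (L + B)) + (2 / (L + B)) * (P w θ * hn G θ)
            - (2 * B / (L + B)) * P w θ) ∂mu := by
          refine integral_mono hPd ((hPc.add (hPG.const_mul _)).sub (hP.const_mul _)) fun θ => ?_
          have h4 : 0 ≤ hn G θ := norm_nonneg _
          have h5 : Real.log (L + hn G θ) ≤ Real.log (L + B) + (hn G θ - B) / (L + B) := by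
            have h6 := Real.log_le_sub_one_of_pos (show 0 < (L + hn G θ) / (L + B) by positivity)
            rw [Real.log_div (by positivity) hLB.ne'] at h6
            have h7 : (L + hn G θ) / (L + B) - 1 = (hn G θ - B) / (L + B) := by
              field_simp
              ring
            linarith
          have h8 := mul_le_mul_of_nonneg_left h5 (P_pos hw θ).le
          simp only
          have h9 : P w θ * (2 * Real.log (L + B)) + 2 / (L + B) * (P w θ * hn G θ)
              - 2 * B / (L + B) * P w θ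
              = 2 * (P w θ * (Real.log (L + B) + (hn G θ - B) / (L + B))) := by
            field_simp
            ring
          rw [h9]
          linarith
      _ ≤ 2 * Real.log (L + B) := by
          have e1 : ∫ θ, (P w θ * (2 * Real.log (L + B)) + (2 / (L + B)) * (P w θ * hn G θ)
              - (2 * B / (L + B)) * P w θ) ∂mu
              = ∫ θ, (P w θ * (2 * Real.log (L + B)) + (2 / (L + B)) * (P w θ * hn G θ)) ∂mu
                - ∫ θ, (2 * B / (L + B)) * P w θ ∂mu :=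
            integral_sub (hPc.add (hPG.const_mul _)) (hP.const_mul _)
          have e2 : ∫ θ, (P w θ * (2 * Real.log (L + B)) + (2 / (L + B)) * (P w θ * hn G θ)) ∂mu
              = ∫ θ, P w θ * (2 * Real.log (L + B)) ∂mu
                + ∫ θ, (2 / (L + B)) * (P w θ * hn G θ) ∂mu :=
            integral_add hPc (hPG.const_mul _)
          rw [e1, e2, integral_mul_const, integral_const_mul, integral_const_mul, integral_P hw]
          have h10 : (∫ θ, P w θ * hn G θ ∂mu) ≤ B := hB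
          have h11 : 2 / (L + B) * (∫ θ, P w θ * hn G θ ∂mu) ≤ 2 / (L + B) * B :=
            mul_le_mul_of_nonneg_left h10 (by positivity)
          have h12 : 2 / (L + B) * B = 2 * B / (L + B) * 1 := by ring
          linarith

/-- the quantity `log (4 e^(1/2) (L + B))` -/
def DD (L : ℕ) (B : ℝ) : ℝ := Real.log (4 * (L + B)) + 1 / 2

/-- a constant depending on `L` -/
def cL (L : ℕ) : ℝ :=
  Real.log L / 2 + (L + 1) * Real.log 2 + (L + 1) / 2 * Real.log (L + 1)

lemma cL_nonneg {L : ℕ} (hL : 0 < L) : 0 ≤ cL L := by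
  have hL1 : (1 : ℝ) ≤ L := by exact_mod_cast hL
  have h1 : 0 ≤ Real.log (L : ℝ) := Real.log_nonneg hL1
  have h2 : 0 ≤ Real.log 2 := Real.log_nonneg (by norm_num)
  have h3 : 0 ≤ Real.log ((L : ℝ) + 1) := Real.log_nonneg (by linarith)
  unfold cL
  positivity

/-- The bound for the square sum, in terms of the parameter `s`. -/
lemma log_bound {L : ℕ} (hL : 0 < L) {m : ℕ → ℕ} (hm : StrictMono m)
    (hgap : ∀ j, L ≤ j → m (j - L) + m (j - 1) ≤ m j) {lam : ℝ} (hlam : 0 < lam)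
    (hratio : ∀ j, 1 ≤ j → lam * m j + m (j - 1) ≤ m j) {G : ℤ →₀ ℂ} (hG2 : HL m G)
    {F : Set Ci} (hF : MeasurableSet F) {τ B h : ℝ} {θ : Ci} (hh : 0 < h) (hh2 : h ≤ 1 / 2)
    (hB : 2 ≤ B) (hnB : nrm G ≤ B) (hvB : vv G (pt h θ) ≤ B)
    (hFτ : ∀ φ ∈ F, hn G φ ≤ Real.exp (-τ))
    (hFP : 1 - 1 / (2 * ((L : ℝ) + 1)) ≤ ∫ φ in F, P (pt h θ) φ ∂mu)
    {j K : ℕ} (hj : 1 ≤ j) (hjK : j ≤ K) (hG : ∀ n : ℤ, n < -(m K : ℤ) → G n = 0)
    {s : ℝ} (hs : 0 < s) (hs1 : s ≤ 1) (hsτ : Real.exp (-τ) ≤ s)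
    (hs0 : Real.exp (DD L B - lam * (h * m j)) ≤ s)
    {S : ℝ} (hS : 0 < S)
    (hSe : S ^ 2 = ∑ i ∈ Finset.Icc j K, ‖G (-(m i : ℤ))‖ ^ 2) :
    Real.log S ≤ cL L + (L + 1) * Real.log (L + B) + Real.log s / 2 := by
  obtain ⟨j0, rfl⟩ : ∃ j0, j = j0 + 1 := ⟨j - 1, by omega⟩
  have hL1 : (1 : ℝ) ≤ L := by exact_mod_cast hL
  have hwn : ‖pt h θ‖ = 1 - h := norm_pt (by linarith) θ
  have hw : ‖pt h θ‖ < 1 := by rw [hwn]; linarith
  have hw0 : pt h θ ≠ 0 := by
    intro h0
    rw [h0, norm_zero] at hwn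
    linarith
  set M := ⌊lam * m (j0 + 1)⌋₊ with hMdef
  have hMle : (M : ℝ) ≤ lam * m (j0 + 1) := Nat.floor_le (by positivity)
  have hMge : lam * m (j0 + 1) < M + 1 := Nat.lt_floor_add_one _
  have hM' : ∀ j, j0 < j → M + m (j - 1) ≤ m j := by
    intro j hj
    have h1 := hratio j (by omega)
    have h2 : (m (j0 + 1) : ℝ) ≤ m j := by exact_mod_cast hm.monotone (show j0 + 1 ≤ j by omega)
    have h3 : (M : ℝ) + m (j - 1) ≤ m j := by
      have := mul_le_mul_of_nonneg_left h2 hlam.le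
      linarith
    exact_mod_cast h3
  have hpow : ‖pt h θ‖ ^ M ≤ Real.exp (1 / 2 - lam * (h * m (j0 + 1))) := by
    rw [hwn]
    have h1 : 1 - h ≤ Real.exp (-h) := by
      have := Real.add_one_le_exp (-h)
      linarith
    calc (1 - h) ^ M ≤ Real.exp (-h) ^ M := pow_le_pow_left₀ (by linarith) h1 M
      _ = Real.exp (M * -h) := by rw [← Real.exp_nat_mul]
      _ ≤ Real.exp (1 / 2 - lam * (h * m (j0 + 1))) := by
          refine Real.exp_le_exp.mpr ?_
          have : h * (lam * m (j0 + 1)) ≤ h * (M + 1) := mul_le_mul_of_nonneg_left hMge.le hh.le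
          nlinarith
  have hLB : 0 < L + B := by linarith
  have hsM : ‖pt h θ‖ ^ M * (2 * (L + B)) ≤ s / 2 := by
    have h1 : Real.exp (DD L B - lam * (h * m (j0 + 1)))
        = 4 * (L + B) * Real.exp (1 / 2 - lam * (h * m (j0 + 1))) := by
      unfold DD
      rw [show Real.log (4 * (L + B)) + 1 / 2 - lam * (h * m (j0 + 1))
        = Real.log (4 * (L + B)) + (1 / 2 - lam * (h * m (j0 + 1))) by ring, Real.exp_add,
        Real.exp_log (by positivity)]
    rw [h1] at hs0
    have h2 := mul_le_mul_of_nonneg_right hpow (show 0 ≤ 2 * (L + B) by positivity)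
    linarith
  have hB0 : ∫ θ, P 0 θ * ‖ev G (ze θ)‖ ∂mu ≤ B := by
    refine le_trans (le_of_eq ?_) hnB
    unfold nrm hn
    refine integral_congr_ae (Filter.Eventually.of_forall fun φ => ?_)
    simp only [P, norm_zero, sub_zero, norm_ze]
    norm_num
  have key := trunc_ineq2 hL hm hgap (show j0 < K by omega) hM' hG hG2 hw hw0 (B := B) hvB hB0
    hs hs1 hsM hS hSe
  have key2 := La_upper hL hw hF hs hs1 (by linarith : (0 : ℝ) ≤ B) hvB
    (fun φ hφ => (hFτ φ hφ).trans hsτ)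
  set π := ∫ φ in F, P (pt h θ) φ ∂mu with hπ
  have hP : Integrable (P (pt h θ)) mu := integrable_of_cont (continuous_P hw)
  have hπ1 : π ≤ 1 :=
    (setIntegral_le_integral hP (Filter.Eventually.of_forall fun φ => (P_pos hw φ).le)).trans
      (integral_P hw).le
  have hlogs : Real.log s ≤ 0 := Real.log_nonpos hs.le hs1
  have hlogL : 0 ≤ Real.log ((L : ℝ) + 1) := Real.log_nonneg (by linarith)
  have h1 : π * Real.log (L + 1) ≤ Real.log (L + 1) := by
    have := mul_le_mul_of_nonneg_right hπ1 hlogL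
    linarith
  have h2 : π * Real.log s ≤ (1 - 1 / (2 * ((L : ℝ) + 1))) * Real.log s :=
    mul_le_mul_of_nonpos_right hFP hlogs
  have h3 : (L * Real.log s + Real.log S - Real.log L / 2) / (L + 1)
      ≤ Real.log 2 + Real.log (L + 1) / 2 + (1 - 1 / (2 * ((L : ℝ) + 1))) * Real.log s
        + Real.log (L + B) := by
    have h4 : π * (Real.log (L + 1) + 2 * Real.log s)
        = π * Real.log (L + 1) + 2 * (π * Real.log s) := by ring
    rw [h4] at key2
    linarith
  rw [div_le_iff₀ (by positivity)] at h3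
  have h5 : (1 - 1 / (2 * ((L : ℝ) + 1))) * (L + 1) = L + 1 / 2 := by
    field_simp
    ring
  have h6 : (Real.log 2 + Real.log (L + 1) / 2 + (1 - 1 / (2 * ((L : ℝ) + 1))) * Real.log s
        + Real.log (L + B)) * (L + 1) = (L + 1) * Real.log 2 + (L + 1) / 2 * Real.log (L + 1)
        + ((1 - 1 / (2 * ((L : ℝ) + 1))) * (L + 1)) * Real.log s + (L + 1) * Real.log (L + B) := by
    ring
  rw [h6, h5] at h3
  unfold cL
  linarith

/-- the additive constant -/
def XX (L : ℕ) : ℝ := cL L + (L + 2) * Real.log (L + 1) + 10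

/-- the exponent in the leaf TAIL -/
def CC (L : ℕ) : ℕ := ⌈2 * XX L⌉₊ + L + 3

lemma const_bound {L : ℕ} (hL : 0 < L) {B : ℝ} (hB : 2 ≤ B) :
    0 ≤ DD L B ∧ DD L B ≤ CC L * Real.log B ∧ Real.log B + DD L B / 2 ≤ CC L * Real.log B ∧
      cL L + (L + 1) * Real.log (L + B) + DD L B / 2 ≤ CC L * Real.log B := by
  have hL1 : (1 : ℝ) ≤ L := by exact_mod_cast hL
  have hlB : 1 / 2 ≤ Real.log B := by
    have h1 := Real.log_two_gt_d9
    have h2 := Real.log_le_log (by norm_num) hB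
    linarith
  have hlL : 0 ≤ Real.log ((L : ℝ) + 1) := Real.log_nonneg (by linarith)
  have hLB : Real.log (L + B) ≤ Real.log (L + 1) + Real.log B := by
    rw [← Real.log_mul (by positivity) (by positivity)]
    refine Real.log_le_log (by positivity) ?_
    nlinarith
  have hLB0 : 0 ≤ Real.log (L + B) := Real.log_nonneg (by linarith)
  have hD : DD L B = Real.log 4 + Real.log (L + B) + 1 / 2 := by
    unfold DD
    rw [Real.log_mul (by norm_num) (by positivity)]
  have h4 : Real.log 4 ≤ 3 := by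
    have := Real.log_le_sub_one_of_pos (show (0 : ℝ) < 4 by norm_num)
    linarith
  have h40 : 0 ≤ Real.log 4 := Real.log_nonneg (by norm_num)
  have hc := cL_nonneg hL
  have hX0 : 0 ≤ XX L := by
    unfold XX
    positivity
  have hCC : 2 * XX L + L + 3 ≤ CC L := by
    unfold CC
    push_cast
    have := Nat.le_ceil (2 * XX L)
    linarith
  have hmain : ∀ y : ℝ, y ≤ XX L + (L + 3) * Real.log B → y ≤ CC L * Real.log B := by
    intro y hy
    have h5 : XX L ≤ 2 * XX L * Real.log B := by nlinarith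
    have h6 : (2 * XX L + L + 3) * Real.log B ≤ CC L * Real.log B :=
      mul_le_mul_of_nonneg_right hCC (by linarith)
    nlinarith
  have hDle : DD L B ≤ 4 + Real.log (L + 1) + Real.log B := by rw [hD]; linarith
  refine ⟨by rw [hD]; positivity, hmain _ ?_, hmain _ ?_, hmain _ ?_⟩
  · unfold XX
    nlinarith
  · unfold XX
    nlinarith
  · have h7 : (L + 1) * Real.log (L + B) ≤ (L + 1) * (Real.log (L + 1) + Real.log B) :=
      mul_le_mul_of_nonneg_left hLB (by positivity)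
    unfold XX
    nlinarith

end Tail

open Tail in
theorem tail_all {L : ℕ} {m : ℕ → ℕ} {lam : ℝ} (lac : Lac L m lam) : S_TAIL L m lam := by
  refine ⟨CC L, by unfold CC; omega, ?_⟩
  intro G F τ B h θ hG2 hF hτ hh hh2 hB hnB hvB hFτ hFP
  obtain ⟨hD0, hD1, hD2, hD3⟩ := const_bound lac.hL hB
  have hB0 : 0 < B := by linarith
  have hBpow : B ^ (CC L) = Real.exp (CC L * Real.log B) := by
    rw [Real.exp_nat_mul, Real.exp_log hB0]
  -- a large index
  have hlarge : ∀ K0 : ℕ, ∃ K, K0 ≤ K ∧ ∀ n : ℤ, n < -(m K : ℤ) → G n = 0 := by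
    intro K0
    obtain ⟨N, hN⟩ : ∃ N : ℕ, ∀ n ∈ G.support, n.natAbs ≤ N :=
      ⟨G.support.sup Int.natAbs, fun n hn => Finset.le_sup (f := Int.natAbs) hn⟩
    refine ⟨max K0 N, le_max_left _ _, fun n hn => ?_⟩
    by_contra hne
    have h1 := hN n (Finsupp.mem_support_iff.mpr hne)
    have h2 : max K0 N ≤ m (max K0 N) := lac.mono.le_apply
    have h3 : N ≤ max K0 N := le_max_right _ _
    omega
  refine ⟨fun j hj => ?_, fun j K hj hjK hτj hBτ => ?_⟩
  · set a := ‖G (-(m j : ℤ))‖ with ha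
    rw [hBpow, ← Real.exp_add]
    rcases (norm_nonneg (G (-(m j : ℤ)))).eq_or_lt with h0 | h0
    · rw [ha, ← h0]
      positivity
    rw [← ha] at h0
    rw [← Real.exp_log h0]
    refine Real.exp_le_exp.mpr ?_
    obtain ⟨K, hjK, hG⟩ := hlarge j
    have hmin1 : min τ (h * m j) ≤ h * m j := min_le_right _ _
    have hmin2 : min τ (h * m j) ≤ τ := min_le_left _ _
    have hmin0 : 0 ≤ min τ (h * m j) := le_min (by linarith) (by positivity)
    set μ := min τ (h * m j) with hμ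
    have hlm : lam * μ ≤ μ := by
      have := mul_le_mul_of_nonneg_right lac.lam_le hmin0
      linarith
    have hlm2 : lam * μ ≤ lam * (h * m j) := mul_le_mul_of_nonneg_left hmin1 lac.lam_pos.le
    by_cases hs1 : Real.exp (DD L B - lam * μ) ≤ 1
    · set S := Real.sqrt (∑ i ∈ Finset.Icc j K, ‖G (-(m i : ℤ))‖ ^ 2) with hS
      have hsum0 : 0 ≤ ∑ i ∈ Finset.Icc j K, ‖G (-(m i : ℤ))‖ ^ 2 :=
        Finset.sum_nonneg fun _ _ => sq_nonneg _
      have haS : a ≤ S := by
        rw [hS]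
        refine Real.le_sqrt_of_sq_le ?_
        exact Finset.single_le_sum (f := fun i => ‖G (-(m i : ℤ))‖ ^ 2)
          (fun i _ => sq_nonneg _) (Finset.mem_Icc.mpr ⟨le_rfl, hjK⟩)
      have hS0 : 0 < S := h0.trans_le haS
      have hlb := log_bound lac.hL lac.mono lac.gap lac.lam_pos lac.ratio hG2 hF hh hh2 hB hnB hvB
        hFτ hFP hj hjK hG (Real.exp_pos (DD L B - lam * μ)) hs1
        (Real.exp_le_exp.mpr (by linarith)) (Real.exp_le_exp.mpr (by linarith)) hS0
        (by rw [hS, Real.sq_sqrt hsum0])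
      rw [Real.log_exp] at hlb
      have h2 := Real.log_le_log h0 haS
      linarith
    · rw [Real.exp_le_one_iff] at hs1
      have h1 : a ≤ B := (coeff_le_nrm G _).trans hnB
      have h2 := Real.log_le_log h0 h1
      linarith
  · obtain ⟨K', hK', hG⟩ := hlarge K
    set A := ∑ i ∈ Finset.Icc j K', ‖G (-(m i : ℤ))‖ ^ 2 with hA
    have hAK : ∑ i ∈ Finset.Icc j K, ‖G (-(m i : ℤ))‖ ^ 2 ≤ A :=
      Finset.sum_le_sum_of_subset_of_nonneg (Finset.Icc_subset_Icc_right hK')
        fun _ _ _ => sq_nonneg _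
    have hA0 : 0 ≤ A := Finset.sum_nonneg fun _ _ => sq_nonneg _
    refine hAK.trans ?_
    rcases hA0.eq_or_lt with h0 | h0
    · rw [← h0]
      positivity
    set S := Real.sqrt A with hS
    have hS0 : 0 < S := Real.sqrt_pos.mpr h0
    have hS2 : S ^ 2 = A := Real.sq_sqrt hA0
    rw [← hS2]
    refine pow_le_pow_left₀ hS0.le ?_ 2
    rw [hBpow, ← Real.exp_add, ← Real.exp_log hS0]
    refine Real.exp_le_exp.mpr ?_
    have hDτ : DD L B ≤ lam * τ := by
      rw [hBpow] at hBτ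
      exact hD1.trans (Real.exp_le_exp.mp hBτ)
    have hlτ : lam * τ ≤ lam * (h * m j) := mul_le_mul_of_nonneg_left hτj lac.lam_pos.le
    have hlτ2 : lam * τ ≤ τ := by
      have := mul_le_mul_of_nonneg_right lac.lam_le (by linarith : (0 : ℝ) ≤ τ)
      linarith
    have hlb := log_bound lac.hL lac.mono lac.gap lac.lam_pos lac.ratio hG2 hF hh hh2 hB hnB hvB
      hFτ hFP hj (hjK.trans hK') hG (Real.exp_pos (DD L B - lam * τ))
      (Real.exp_le_one_iff.mpr (by linarith))
      (Real.exp_le_exp.mpr (by linarith)) (Real.exp_le_exp.mpr (by linarith)) hS0 hS2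
    rw [Real.log_exp] at hlb
    linarith

end

end Pool.Agent.K9h98.HLp
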